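import Pool.Agent.H559.HY.FinBH

set_option autoImplicit false

/-! # Positivity of the constants -/

open Finset Filter Topology Polynomial
open Pool.Agent.H474R2.PG (rho P2_core rho_le)
open Pool.Agent.H559.HY

namespace Pool.Agent.H559.PV

variable {k : ℕ}

/-- **The product of Bateman and Horn converges.** -/
theorem sg_conv' (D : ℕ) (f : Fin k → ℤ[X]) (hD : ∀ i, (f i).natDegree ≤ D) (hirr : ∀ i, Irreducible (f i))
    (hd : ∀ i, 0 < (f i).natDegree) (hne : ∀ i j, i ≠ j → f i ≠ f j ∧ f i ≠ -f j) :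
    ∃ S : ℝ, Tendsto (fun w : ℕ => Sg (arr D f) w) atTop (𝓝 S) ∧
      ((∀ p : ℕ, p.Prime → (rts (arr D f) p 0).card < p) → 0 < S) := by
  classical
  obtain ⟨B1, hB1⟩ := rts_rho D f hD hirr hd hne
  have hrl : ∀ i, ∃ B : ℕ, ∀ p : ℕ, p.Prime → B < p → rho (f i) p ≤ (f i).natDegree := fun i =>
    rho_le (f i) (hirr i).ne_zero
  choose B2 hB2 using hrl
  set B : ℕ := B1 + ∑ i, B2 i + 2 * (k * D) + 2 with hB
  have hom : ∀ p : ℕ, p.Prime → B < p → (rts (arr D f) p 0).card ≤ k * D := by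
    intro p hp hpB
    rw [hB1 p hp (by omega)]
    calc ∑ i, rho (f i) p ≤ ∑ _i : Fin k, D := by
          refine sum_le_sum fun i _ => ?_
          have h1 : B2 i ≤ ∑ i, B2 i := single_le_sum (f := B2) (fun _ _ => Nat.zero_le _) (mem_univ i)
          exact (hB2 i p hp (by omega)).trans (hD i)
      _ = k * D := by simp
  choose L hL using fun i => rho_conv (f i) (hirr i) (hd i)
  have hsumL : Tendsto (fun N : ℕ => ∑ i, ∑ p ∈ (Ioc 1 N).filter Nat.Prime, ((rho (f i) p : ℝ) - 1) / p) atTop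
      (𝓝 (∑ i, L i)) := tendsto_finsetSum _ fun i _ => hL i
  set t : ℕ → ℝ := fun p => (1 - ((rts (arr D f) p 0).card : ℝ) / p) / (1 - 1 / (p : ℝ)) ^ k with ht
  set v : ℕ → ℝ := fun p => if p.Prime ∧ B < p then Real.log (t p) + (((rts (arr D f) p 0).card : ℝ) - k) / p else 0 with hv
  have hbig : ∀ p : ℕ, p.Prime → B < p → 0 < t p ∧
      |Real.log (t p) + (((rts (arr D f) p 0).card : ℝ) - k) / p| ≤ ((k * D : ℕ) ^ 2 + k : ℝ) * (1 / (p : ℝ) ^ 2) := by
    intro p hp hpB
    have hp0 : (0 : ℝ) < p := by exact_mod_cast hp.pos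
    have h1 : ((rts (arr D f) p 0).card : ℝ) ≤ ((k * D : ℕ) : ℝ) := by exact_mod_cast hom p hp hpB
    have h2 : 2 * ((k * D : ℕ) : ℝ) ≤ p := by
      have : 2 * (k * D) ≤ p := by omega
      exact_mod_cast this
    have h3 : (2 : ℝ) ≤ p := by exact_mod_cast hp.two_le
    set u : ℝ := ((rts (arr D f) p 0).card : ℝ) / p with hu
    have hu0 : 0 ≤ u := by positivity
    have hu1 : u ≤ 1 / 2 := by
      rw [hu, div_le_iff₀ hp0]
      linarith
    have hw0 : (0 : ℝ) ≤ 1 / p := by positivity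
    have hw1 : (1 : ℝ) / p ≤ 1 / 2 := one_div_le_one_div_of_le (by norm_num) h3
    have e1 := log_err hu0 hu1
    have e2 := log_err hw0 hw1
    have hpos1 : 0 < 1 - u := by linarith
    have hpos2 : 0 < 1 - 1 / (p : ℝ) := by linarith
    refine ⟨div_pos hpos1 (pow_pos hpos2 k), ?_⟩
    have e3 : Real.log (t p) = Real.log (1 - u) - k * Real.log (1 - 1 / p) := by
      rw [ht]
      simp only
      rw [Real.log_div hpos1.ne' (pow_pos hpos2 k).ne', Real.log_pow]
    have e4 : Real.log (t p) + (((rts (arr D f) p 0).card : ℝ) - k) / p =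
        (Real.log (1 - u) + u) - k * (Real.log (1 - 1 / p) + 1 / p) := by
      rw [e3, hu]
      ring
    rw [e4]
    refine (abs_sub _ _).trans ?_
    rw [abs_mul, abs_of_nonneg (Nat.cast_nonneg k : (0 : ℝ) ≤ k)]
    have h4 : u ^ 2 ≤ ((k * D : ℕ) : ℝ) ^ 2 * (1 / (p : ℝ) ^ 2) := by
      rw [hu, div_pow, mul_one_div]
      gcongr
    have h5 : (k : ℝ) * |Real.log (1 - 1 / p) + 1 / p| ≤ k * (1 / (p : ℝ) ^ 2) := by
      have : (1 / (p : ℝ)) ^ 2 = 1 / (p : ℝ) ^ 2 := by rw [div_pow, one_pow]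
      rw [← this]
      gcongr
    calc |Real.log (1 - u) + u| + (k : ℝ) * |Real.log (1 - 1 / p) + 1 / p| ≤
          ((k * D : ℕ) : ℝ) ^ 2 * (1 / (p : ℝ) ^ 2) + k * (1 / (p : ℝ) ^ 2) := add_le_add (e1.trans h4) h5
      _ = _ := by ring
  have hvs : Summable v := by
    have h1 : Summable (fun n : ℕ => ((k * D : ℕ) ^ 2 + k : ℝ) * (1 / (n : ℝ) ^ 2)) :=
      (Real.summable_one_div_nat_pow.2 (by norm_num)).mul_left _
    refine Summable.of_norm_bounded h1 fun n => ?_
    rw [Real.norm_eq_abs, hv]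
    simp only
    split_ifs with h
    · exact (hbig n h.1 h.2).2
    · rw [abs_zero]
      positivity
  have hvl := (hvs.hasSum.tendsto_sum_nat).comp (tendsto_add_atTop_nat 1)
  set c : ℝ := ∑ p ∈ (Ioc 1 B).filter Nat.Prime, ∑ i, ((rho (f i) p : ℝ) - 1) / p with hc
  have hlim : Tendsto (fun N : ℕ => (∏ p ∈ (range (B + 1)).filter Nat.Prime, t p) *
      Real.exp (∑ n ∈ range (N + 1), v n - (∑ i, ∑ p ∈ (Ioc 1 N).filter Nat.Prime, ((rho (f i) p : ℝ) - 1) / p - c)))
      atTop (𝓝 ((∏ p ∈ (range (B + 1)).filter Nat.Prime, t p) * Real.exp (∑' n, v n - (∑ i, L i - c)))) := by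
    refine Tendsto.const_mul _ ?_
    refine (Real.continuous_exp.tendsto _).comp ?_
    exact hvl.sub (hsumL.sub_const c)
  refine ⟨_, hlim.congr' ?_, fun hadm => ?_⟩
  swap
  · refine mul_pos (prod_pos fun p hp => ?_) (Real.exp_pos _)
    have hpp := (mem_filter.1 hp).2
    have hp0 : (0 : ℝ) < p := by exact_mod_cast hpp.pos
    have hp2 : (2 : ℝ) ≤ p := by exact_mod_cast hpp.two_le
    have h1 : ((rts (arr D f) p 0).card : ℝ) < p := by exact_mod_cast hadm p hpp
    have h2 : ((rts (arr D f) p 0).card : ℝ) / p < 1 := by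
      rw [div_lt_one hp0]
      exact h1
    have h3 : 1 / (p : ℝ) < 1 := by
      rw [div_lt_one hp0]
      linarith
    rw [ht]
    exact div_pos (by linarith) (pow_pos (by linarith) k)
  filter_upwards [eventually_ge_atTop B] with N hN
  have e1 : ∑ n ∈ range (N + 1), v n = ∑ p ∈ (Ioc B N).filter Nat.Prime,
      (Real.log (t p) + (((rts (arr D f) p 0).card : ℝ) - k) / p) := by
    rw [hv]
    simp only
    rw [← sum_filter]
    refine sum_congr ?_ fun _ _ => rfl
    ext n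
    simp only [mem_filter, mem_range, mem_Ioc]
    constructor
    · rintro ⟨h1, h2, h3⟩
      exact ⟨⟨h3, by omega⟩, h2⟩
    · rintro ⟨⟨h1, h2⟩, h3⟩
      exact ⟨by omega, h3, h1⟩
  have e2 : ∑ i, ∑ p ∈ (Ioc 1 N).filter Nat.Prime, ((rho (f i) p : ℝ) - 1) / p - c =
      ∑ p ∈ (Ioc B N).filter Nat.Prime, (((rts (arr D f) p 0).card : ℝ) - k) / p := by
    rw [sum_comm, hc]
    have e3 : (Ioc 1 N).filter Nat.Prime = (Ioc 1 B).filter Nat.Prime ∪ (Ioc B N).filter Nat.Prime := by
      rw [← filter_union]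
      congr 1
      ext n
      simp only [mem_union, mem_Ioc]
      omega
    have e4 : Disjoint ((Ioc 1 B).filter Nat.Prime) ((Ioc B N).filter Nat.Prime) := by
      refine disjoint_filter_filter ?_
      rw [disjoint_left]
      intro n h1 h2
      rw [mem_Ioc] at h1 h2
      omega
    rw [e3, sum_union e4, add_sub_cancel_left]
    refine sum_congr rfl fun p hp => ?_
    rw [mem_filter, mem_Ioc] at hp
    rw [hB1 p hp.2 (by omega), ← sum_div, sum_sub_distrib]
    simp
  have e5 : Sg (arr D f) N = (∏ p ∈ (range (B + 1)).filter Nat.Prime, t p) * ∏ p ∈ (Ioc B N).filter Nat.Prime, t p := by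
    unfold Sg
    have e3 : (range (N + 1)).filter Nat.Prime = (range (B + 1)).filter Nat.Prime ∪ (Ioc B N).filter Nat.Prime := by
      rw [← filter_union]
      congr 1
      ext n
      simp only [mem_union, mem_Ioc, mem_range]
      omega
    have e4 : Disjoint ((range (B + 1)).filter Nat.Prime) ((Ioc B N).filter Nat.Prime) := by
      refine disjoint_filter_filter ?_
      rw [disjoint_left]
      intro n h1 h2
      rw [mem_Ioc] at h2
      rw [mem_range] at h1
      omega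
    rw [e3, prod_union e4]
  rw [e5, e1, e2, ← sum_sub_distrib, Real.exp_sum]
  congr 1
  refine prod_congr rfl fun p hp => ?_
  rw [mem_filter, mem_Ioc] at hp
  rw [add_sub_cancel_right, Real.exp_log (hbig p hp.2 hp.1.1).1]



theorem omF_rts (F : Finset ℤ[X]) (p : ℕ) (hpp : p.Prime) :
    omF F p = (rts (arr (∑ i, (fam F i).natDegree) (fam F)) p 0).card := by
  unfold omF rts
  congr 1
  refine filter_congr fun s _ => ?_
  have hprime : Prime (p : ℤ) := Nat.prime_iff_prime_int.1 hpp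
  rw [hprime.dvd_finsetProd_iff]
  constructor
  · rintro ⟨f, hf, h1⟩
    refine ⟨F.equivFin ⟨f, hf⟩, (cls_eq_iff _ _ p s 0 hpp.pos hpp.pos).2 ?_⟩
    rw [evl_arr _ _ (fam_le F), Nat.cast_zero, sub_zero]
    have h2 : fam F (F.equivFin ⟨f, hf⟩) = pos f := by
      unfold fam
      rw [Equiv.symm_apply_apply]
    rw [h2, ← dvd_abs, pos_eval, dvd_abs]
    exact h1
  · rintro ⟨i, h1⟩
    refine ⟨(F.equivFin.symm i : ℤ[X]), (F.equivFin.symm i).2, ?_⟩
    have h2 := (cls_eq_iff _ _ p s 0 hpp.pos hpp.pos).1 h1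
    rw [evl_arr _ _ (fam_le F), Nat.cast_zero, sub_zero] at h2
    unfold fam at h2
    rw [← dvd_abs, pos_eval, dvd_abs] at h2
    exact h2

/-- the constant of a system exists, and it is positive for the systems without a fixed prime divisor -/
theorem CF_conv' (F : Finset ℤ[X]) (hF : Sys F) :
    ∃ C : ℝ, Tendsto (CF F) atTop (𝓝 C) ∧ ((∀ p : ℕ, p.Prime → omF F p < p) → 0 < C) := by
  obtain ⟨S, hS, hS2⟩ := sg_conv' (∑ i, (fam F i).natDegree) (fam F) (fam_le F) (fam_irr F hF) (fam_deg F hF)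
    (fam_ne F hF)
  refine ⟨S, hS.congr fun x => (CF_eq F x).symm, fun h => hS2 fun p hp => ?_⟩
  rw [← omF_rts F p hp]
  exact h p hp

end Pool.Agent.H559.PV
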