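import Pool.Agent.H559.PV.Law2
import Pool.Agent.H559.PV.SPos

set_option autoImplicit false

/-! # The Poisson law for windows -/

open Finset Filter Topology Polynomial
open Pool.Agent.H559.BS (Limit TT TT_le TT_ge TT_top log_TT V_TT log_pow_le log_top g g_pos)
open Pool.Agent.H559.HY (RS CF WW)

namespace Pool.Agent.H559.PV

/-- the unit of length -/
noncomputable def un (G : Finset ℤ[X]) (c0 : ℝ) (x : ℕ) : ℝ := (∏ f ∈ G, (f.natDegree : ℝ) * Real.log x) / c0

theorem un_eq (G : Finset ℤ[X]) (c0 : ℝ) (x : ℕ) :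
    un G c0 x = (∏ f ∈ G, (f.natDegree : ℝ)) / c0 * Real.log x ^ G.card := by
  unfold un
  rw [prod_mul_distrib, prod_const]
  ring

/-- the number of the places in a window -/
noncomputable def pl (A : Set ℕ) (G : Finset ℤ[X]) (lo hi : ℝ) (n : ℕ) : ℕ :=
  {m : ℕ | n + lo < m ∧ m ≤ n + hi ∧ ∀ f ∈ G, (f.eval (m : ℤ)).natAbs ∈ A}.ncard

theorem pl_eq (A : Set ℕ) (G : Finset ℤ[X]) (lo hi : ℝ) (n : ℕ) (h0 : 0 ≤ lo) (h1 : lo ≤ hi) :
    pl A G lo hi n = (Pt A G ⌊lo⌋₊ (⌊hi⌋₊ - ⌊lo⌋₊) n).card := by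
  classical
  have hfl : ⌊lo⌋₊ ≤ ⌊hi⌋₊ := Nat.floor_le_floor h1
  unfold pl
  have e : {m : ℕ | n + lo < m ∧ m ≤ n + hi ∧ ∀ f ∈ G, (f.eval (m : ℤ)).natAbs ∈ A} =
      ((Pt A G ⌊lo⌋₊ (⌊hi⌋₊ - ⌊lo⌋₊) n).image (fun h => n + h) : Finset ℕ) := by
    ext m
    rw [Finset.mem_coe, mem_image, Set.mem_ofPred_eq]
    unfold Pt
    constructor
    · rintro ⟨a1, a2, a3⟩
      have hmn : n ≤ m := by
        have : (n : ℝ) ≤ m := by linarith
        exact_mod_cast this
      obtain ⟨h, rfl⟩ := Nat.exists_eq_add_of_le hmn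
      refine ⟨h, mem_filter.2 ⟨mem_Ioc.2 ⟨?_, ?_⟩, a3⟩, rfl⟩
      · rw [Nat.floor_lt h0]
        push_cast at a1
        linarith
      · rw [Nat.add_sub_cancel' hfl, Nat.le_floor_iff (h0.trans h1)]
        push_cast at a2
        linarith
    · rintro ⟨h, hh, rfl⟩
      obtain ⟨h2, h3⟩ := mem_filter.1 hh
      rw [mem_Ioc, Nat.add_sub_cancel' hfl, Nat.floor_lt h0, Nat.le_floor_iff (h0.trans h1)] at h2
      push_cast
      exact ⟨by linarith, by linarith, h3⟩
  rw [e, Set.ncard_coe_finset, card_image_of_injective _ (add_right_injective n)]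

theorem log_pow_eps (q : ℕ) (K : ℝ) : ∀ᶠ x : ℕ in atTop, K * Real.log x ^ q ≤ Real.log x ^ (q + 1) := by
  filter_upwards [log_top.eventually_ge_atTop (max K 1)] with x hx
  rw [pow_succ, mul_comm]
  have h1 : 0 ≤ Real.log x := le_trans (by positivity) ((le_max_right K 1).trans hx)
  exact mul_le_mul_of_nonneg_left ((le_max_left _ _).trans hx) (by positivity)

/-- **The Poisson law for windows.** -/
theorem law_win (z : ℕ → ℕ) (hz : Limit z) (c : ℝ) (hc : 1 < c) (b : ℕ → ℕ) (hOK : OK z (WW c) b)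
    (s : ℕ) (F : Fin s → Finset ℤ[X]) (hG : ∀ i, ∀ f ∈ F i, GP f) (hne : ∀ i, (F i).Nonempty)
    (S : Fin s → ℝ) (hS : ∀ i, Tendsto (CF (F i)) atTop (𝓝 (S i))) (hS0 : ∀ i, 0 < S i)
    (hSF : ∀ i j, F i = F j → S i = S j) (u v : Fin s → ℝ) (huv : ∀ i, 0 ≤ u i ∧ u i < v i)
    (hsep : ∀ i j, i ≠ j → (F i = F j ∧ (v i ≤ u j ∨ v j ≤ u i)) ∨ ∀ t : ℤ, F i ≠ (F j).image (fun f => f.comp (X + C t)))
    (r : Fin s → ℕ) :
    Tendsto (fun x : ℕ => ({n : ℕ | 1 ≤ n ∧ n ≤ x ∧ ∀ i, pl (RS z (WW c) b) (F i) (u i * un (F i) (S i) x)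
      (v i * un (F i) (S i) x) n = r i}.ncard : ℝ) / x) atTop
      (𝓝 (∏ i, (Real.exp (-(v i - u i)) * (v i - u i) ^ r i / (r i).factorial))) := by
  classical
  set A := RS z (WW c) b with hA
  set D : ℕ := ∑ i, ∑ f ∈ F i, f.natDegree with hDdef
  have hD : ∀ i, ∀ f ∈ F i, f.natDegree ≤ D := fun i f hf =>
    (single_le_sum (f := fun f : ℤ[X] => f.natDegree) (fun _ _ => Nat.zero_le _) hf).trans
      (single_le_sum (f := fun i => ∑ f ∈ F i, f.natDegree) (fun _ _ => Nat.zero_le _) (mem_univ i))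
  obtain ⟨d0, K0, E0, hdata⟩ := all_data (univ.biUnion F) (by
    intro f hf
    rw [mem_biUnion] at hf
    obtain ⟨i, _, hi⟩ := hf
    exact hG i f hi)
  have hPD : ∀ i j, ∀ f ∈ F i, ∀ g ∈ F j, PD f g d0 K0 E0 := fun i j f hf g hg =>
    hdata f (mem_biUnion.2 ⟨i, mem_univ _, hf⟩) g (mem_biUnion.2 ⟨j, mem_univ _, hg⟩)
  set a : Fin s → ℕ → ℕ := fun i x => ⌊u i * un (F i) (S i) x⌋₊ with ha
  set l : Fin s → ℕ → ℕ := fun i x => ⌊v i * un (F i) (S i) x⌋₊ - ⌊u i * un (F i) (S i) x⌋₊ with hl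
  set E1 : ℕ := ∑ i, (F i).card + 1 with hE1
  have hdeg0 : ∀ i, 0 < ∏ f ∈ F i, (f.natDegree : ℝ) := fun i => prod_pos fun f hf => by
    exact_mod_cast (hG i f hf).deg
  have hun0 : ∀ i, ∀ x : ℕ, 0 ≤ un (F i) (S i) x := by
    intro i x
    rw [un_eq]
    have := hdeg0 i
    have := hS0 i
    have : 0 ≤ Real.log x := Real.log_natCast_nonneg x
    positivity
  have hle : ∀ i, ∀ x : ℕ, u i * un (F i) (S i) x ≤ v i * un (F i) (S i) x := fun i x =>
    mul_le_mul_of_nonneg_right (huv i).2.le (hun0 i x)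
  have hfl : ∀ i, ∀ x : ℕ, a i x + l i x = ⌊v i * un (F i) (S i) x⌋₊ := by
    intro i x
    have := Nat.floor_le_floor (hle i x)
    simp only [ha, hl]
    omega
  have hW : Win F S a l (fun i => v i - u i) E1 := by
    refine ⟨fun i => by have := huv i; linarith, fun i => ?_, fun i => ?_, fun i j hij => ?_⟩
    · set K : ℝ := (∏ f ∈ F i, (f.natDegree : ℝ)) / S i with hK
      set k := (F i).card with hk
      have hkpos : 1 ≤ k := (hne i).card_pos
      have e1 : (v i - u i) * (∏ f ∈ F i, (f.natDegree : ℝ)) / S i = (v i - u i) * K := by rw [hK, mul_div_assoc]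
      rw [e1]
      have h1 : Tendsto (fun x : ℕ => 1 / Real.log x ^ k) atTop (𝓝 0) :=
        tendsto_const_nhds.div_atTop ((tendsto_pow_atTop (by omega)).comp log_top)
      have h2 : Tendsto (fun x : ℕ => (v i - u i) * K - 1 / Real.log x ^ k) atTop (𝓝 ((v i - u i) * K - 0)) :=
        tendsto_const_nhds.sub h1
      have h3 : Tendsto (fun x : ℕ => (v i - u i) * K + 1 / Real.log x ^ k) atTop (𝓝 ((v i - u i) * K + 0)) :=
        tendsto_const_nhds.add h1
      rw [sub_zero] at h2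
      rw [add_zero] at h3
      have hb : ∀ᶠ x : ℕ in atTop, (v i - u i) * K - 1 / Real.log x ^ k ≤ (l i x : ℝ) / Real.log x ^ k ∧
          (l i x : ℝ) / Real.log x ^ k ≤ (v i - u i) * K + 1 / Real.log x ^ k := by
        filter_upwards [log_top.eventually_ge_atTop 1] with x hx
        have hLk : 0 < Real.log x ^ k := by positivity
        have h4 : (l i x : ℝ) = (⌊v i * un (F i) (S i) x⌋₊ : ℝ) - (⌊u i * un (F i) (S i) x⌋₊ : ℝ) := by
          simp only [hl]
          rw [Nat.cast_sub (Nat.floor_le_floor (hle i x))]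
        have h5 := Nat.floor_le (mul_nonneg (huv i).1 (hun0 i x))
        have h6 := Nat.lt_floor_add_one (u i * un (F i) (S i) x)
        have h7 := Nat.floor_le (mul_nonneg ((huv i).1.trans (huv i).2.le) (hun0 i x))
        have h8 := Nat.lt_floor_add_one (v i * un (F i) (S i) x)
        have h9 : un (F i) (S i) x = K * Real.log x ^ k := by rw [un_eq]
        rw [h4, le_div_iff₀ hLk, div_le_iff₀ hLk, sub_mul, add_mul, one_div_mul_cancel hLk.ne', mul_assoc, ← h9]
        constructor <;> linarith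
      exact tendsto_of_tendsto_of_tendsto_of_le_of_le' h2 h3 (hb.mono fun x hx => hx.1) (hb.mono fun x hx => hx.2)
    · filter_upwards [log_pow_eps (F i).card (v i * ((∏ f ∈ F i, (f.natDegree : ℝ)) / S i)),
        log_top.eventually_ge_atTop 1] with x h1 h2
      rw [hfl]
      refine (Nat.floor_le (mul_nonneg ((huv i).1.trans (huv i).2.le) (hun0 i x))).trans ?_
      rw [un_eq, ← mul_assoc]
      refine h1.trans (pow_le_pow_right₀ h2 ?_)
      have : (F i).card ≤ ∑ i, (F i).card := single_le_sum (f := fun i => (F i).card) (fun _ _ => Nat.zero_le _) (mem_univ i)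
      omega
    · rcases hsep i j hij with ⟨h1, h2⟩ | h1
      · refine Or.inl ⟨h1, Eventually.of_forall fun x => ?_⟩
        rw [hfl, hfl]
        have h3 : un (F i) (S i) x = un (F j) (S j) x := by rw [h1, hSF i j h1]
        simp only [ha]
        rw [h3]
        rcases h2 with h2 | h2
        · exact Or.inl (Nat.floor_le_floor (mul_le_mul_of_nonneg_right h2 (hun0 j x)))
        · exact Or.inr (Nat.floor_le_floor (mul_le_mul_of_nonneg_right h2 (hun0 j x)))
      · exact Or.inr h1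
  have hmain := law F D hD hG z hz c hc b hOK S hS hS0 a l (fun i => v i - u i) E1 hW hne d0 K0 E0 hPD r
    (fun x => (Ioc 0 x).filter (fun n => ∀ i, (Pt A (F i) (a i x) (l i x) n).card = r i)) (fun x n => by
      rw [mem_filter, mem_Ioc])
  refine hmain.congr fun x => ?_
  congr 2
  rw [← Set.ncard_coe_finset]
  congr 1
  ext n
  rw [Finset.mem_coe, mem_filter, mem_Ioc, Set.mem_ofPred_eq, and_assoc]
  refine and_congr_right fun _ => and_congr_right fun _ => forall_congr' fun i => ?_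
  rw [pl_eq A (F i) _ _ n (mul_nonneg (huv i).1 (hun0 i x)) (hle i x)]

end Pool.Agent.H559.PV
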