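import Pool.Agent.H559.PV.Res

set_option autoImplicit false

/-! # The average of the local densities over tuples of shifts -/

open Finset Filter Topology

namespace Pool.Agent.H559.PV

/-- the density of a family of classes -/
noncomputable def den (Om : ℕ → Finset ℕ) (T : ℕ) : ℝ :=
  ∏ p ∈ (range (T + 1)).filter Nat.Prime, (1 - ((Om p).card : ℝ) / p)

theorem den_nonneg (Om : ℕ → Finset ℕ) (T : ℕ) (h : ∀ p ≤ T, p.Prime → Om p ⊆ range p) : 0 ≤ den Om T := by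
  unfold den
  refine prod_nonneg fun p hp => ?_
  rw [mem_filter, mem_range] at hp
  have h1 := card_le_card (h p (by omega) hp.2)
  rw [card_range] at h1
  have h2 : (0 : ℝ) < p := by exact_mod_cast hp.2.pos
  have h3 : ((Om p).card : ℝ) / p ≤ 1 := by
    rw [div_le_one h2]
    exact_mod_cast h1
  linarith

theorem den_le_one (Om : ℕ → Finset ℕ) (T : ℕ) (h : ∀ p ≤ T, p.Prime → Om p ⊆ range p) : den Om T ≤ 1 := by
  unfold den
  refine prod_le_one (fun p hp => ?_) fun p hp => ?_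
  · rw [mem_filter, mem_range] at hp
    have h1 := card_le_card (h p (by omega) hp.2)
    rw [card_range] at h1
    have h2 : (0 : ℝ) < p := by exact_mod_cast hp.2.pos
    have h3 : ((Om p).card : ℝ) / p ≤ 1 := by
      rw [div_le_one h2]
      exact_mod_cast h1
    linarith
  · have : 0 ≤ ((Om p).card : ℝ) / p := by positivity
    linarith

theorem le_of_div (a b c : ℝ) (h : ∀ M : ℕ, 1 ≤ M → a ≤ b + c / M) : a ≤ b := by
  have h1 : Tendsto (fun M : ℕ => b + c / (M : ℝ)) atTop (𝓝 (b + 0)) :=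
    tendsto_const_nhds.add (tendsto_const_nhds.div_atTop tendsto_natCast_atTop_atTop)
  rw [add_zero] at h1
  refine ge_of_tendsto h1 ?_
  filter_upwards [eventually_ge_atTop 1] with M hM using h M hM

/-- the double counting -/
theorem dc {κ : Type} [Fintype κ] [DecidableEq κ] (good : κ → ℕ → Prop) [∀ ι, DecidablePred (good ι)]
    [∀ h : κ → ℕ, DecidablePred (fun n => ∀ ι, good ι (n + h ι))] (M : ℕ) (lo l : κ → ℕ) :
    ∑ h ∈ Fintype.piFinset (fun ι => Ioc (lo ι) (lo ι + l ι)), (((Ioc 0 (0 + M)).filter (fun n => ∀ ι, good ι (n + h ι))).card : ℝ) =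
      ∑ n ∈ Ioc 0 (0 + M), ∏ ι, (((Ioc (n + lo ι) (n + lo ι + l ι)).filter (fun m => good ι m)).card : ℝ) := by
  have e1 : ∀ h : κ → ℕ, (((Ioc 0 (0 + M)).filter (fun n => ∀ ι, good ι (n + h ι))).card : ℝ) =
      ∑ n ∈ Ioc 0 (0 + M), ∏ ι, (if good ι (n + h ι) then (1 : ℝ) else 0) := by
    intro h
    rw [card_filter]
    push_cast
    refine sum_congr rfl fun n _ => ?_
    rw [Finset.prod_ite_zero]
    simp only [mem_univ, forall_const, prod_const_one]
  simp only [e1]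
  rw [sum_comm]
  refine sum_congr rfl fun n _ => ?_
  rw [← Finset.prod_univ_sum (fun ι => Ioc (lo ι) (lo ι + l ι)) (fun ι m => if good ι (n + m) then (1 : ℝ) else 0)]
  refine prod_congr rfl fun ι _ => ?_
  rw [card_filter]
  push_cast
  have e2 : Ioc (n + lo ι) (n + lo ι + l ι) = (Ioc (lo ι) (lo ι + l ι)).map (addLeftEmbedding n) := by
    rw [map_add_left_Ioc, add_assoc]
  rw [e2, sum_map]
  rfl

/-- **The average.** -/
theorem avg (κ₀ : ℕ) (ε : ℝ) (hε : 0 < ε) (hε1 : ε ≤ 1) : ∃ B : ℕ, ∃ Kf : ℝ, 0 < Kf ∧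
    ∀ (κ : Type) [Fintype κ] [DecidableEq κ] (T : ℕ) (S : κ → ℕ → Finset ℕ) (Om : (κ → ℕ) → ℕ → Finset ℕ),
    (∀ ι, ∀ p ≤ T, p.Prime → S ι p ⊆ range p ∧ (S ι p).card ≤ κ₀) →
    (∀ h, ∀ p ≤ T, p.Prime → Om h p ⊆ range p ∧ (Om h p).card ≤ κ₀) →
    (∀ h, ∀ p ≤ T, p.Prime → ∀ n, (n % p ∉ Om h p ↔ ∀ ι, (n + h ι) % p ∉ S ι p)) →
    ∀ lo l : κ → ℕ,
    (1 - ε) * ∑ h ∈ Fintype.piFinset (fun ι => Ioc (lo ι) (lo ι + l ι)), den (Om h) T ≤
        ∏ ι, ((1 + ε) * (l ι * den (S ι) T) + Kf * ((T : ℝ) + 1) ^ B) ∧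
      ((∀ ι, 0 ≤ (1 - ε) * (l ι * den (S ι) T) - Kf * ((T : ℝ) + 1) ^ B) →
        ∏ ι, ((1 - ε) * (l ι * den (S ι) T) - Kf * ((T : ℝ) + 1) ^ B) ≤
          (1 + ε) * ∑ h ∈ Fintype.piFinset (fun ι => Ioc (lo ι) (lo ι + l ι)), den (Om h) T) := by
  classical
  obtain ⟨B, Kf, hKf, hfl⟩ := Pool.Agent.T2H32.GB.flg κ₀ ε hε
  refine ⟨B, Kf, hKf, ?_⟩
  intro κ _ _ T S Om hS hOm hiff lo l
  set E : ℝ := Kf * ((T : ℝ) + 1) ^ B with hE
  have hE0 : 0 ≤ E := by positivity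
  set HH := Fintype.piFinset (fun ι => Ioc (lo ι) (lo ι + l ι)) with hHH
  set good : κ → ℕ → Prop := fun ι m => ∀ p ≤ T, p.Prime → m % p ∉ S ι p with hgood
  have hA : ∀ (M : ℕ) (h : κ → ℕ), (Ioc 0 (0 + M)).filter (fun n => ∀ p ≤ T, p.Prime → n % p ∉ Om h p) =
      (Ioc 0 (0 + M)).filter (fun n => ∀ ι, good ι (n + h ι)) := by
    intro M h
    refine filter_congr fun n _ => ?_
    constructor
    · intro h1 ι p hp hpp
      exact (hiff h p hp hpp n).1 (h1 p hp hpp) ι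
    · intro h1 p hp hpp
      exact (hiff h p hp hpp n).2 fun ι => h1 ι p hp hpp
  have hfA : ∀ (M : ℕ) (h : κ → ℕ), |(((Ioc 0 (0 + M)).filter (fun n => ∀ ι, good ι (n + h ι))).card : ℝ) -
      M * den (Om h) T| ≤ ε * (M * den (Om h) T) + E := by
    intro M h
    rw [← hA M h]
    exact hfl T (Om h) (hOm h) 0 M
  have hfB : ∀ (ι : κ) (n : ℕ), |(((Ioc (n + lo ι) (n + lo ι + l ι)).filter (fun m => good ι m)).card : ℝ) -
      l ι * den (S ι) T| ≤ ε * (l ι * den (S ι) T) + E := by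
    intro ι n
    exact hfl T (S ι) (hS ι) (n + lo ι) (l ι)
  have hsum : ∀ M : ℕ, ∑ h ∈ HH, (((Ioc 0 (0 + M)).filter (fun n => ∀ ι, good ι (n + h ι))).card : ℝ) =
      ∑ n ∈ Ioc 0 (0 + M), ∏ ι, (((Ioc (n + lo ι) (n + lo ι + l ι)).filter (fun m => good ι m)).card : ℝ) :=
    fun M => dc good M lo l
  have hcardM : ∀ (M : ℕ) (c : ℝ), ∑ _n ∈ Ioc 0 (0 + M), c = M * c := by
    intro M c
    rw [sum_const, Nat.card_Ioc, nsmul_eq_mul]
    congr 2
    omega
  constructor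
  · refine le_of_div _ _ (E * HH.card) fun M hM => ?_
    have hM0 : (0 : ℝ) < M := by exact_mod_cast hM
    have h1 : (1 - ε) * (M * ∑ h ∈ HH, den (Om h) T) - HH.card * E ≤
        ∑ h ∈ HH, (((Ioc 0 (0 + M)).filter (fun n => ∀ ι, good ι (n + h ι))).card : ℝ) := by
      have h2 : ∑ h ∈ HH, ((1 - ε) * (M * den (Om h) T) - E) ≤
          ∑ h ∈ HH, (((Ioc 0 (0 + M)).filter (fun n => ∀ ι, good ι (n + h ι))).card : ℝ) := by
        refine sum_le_sum fun h _ => ?_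
        have := (abs_le.1 (hfA M h)).1
        linarith
      rw [sum_sub_distrib, ← mul_sum, ← mul_sum, sum_const, nsmul_eq_mul] at h2
      exact h2
    have h2 : ∑ n ∈ Ioc 0 (0 + M), ∏ ι, (((Ioc (n + lo ι) (n + lo ι + l ι)).filter (fun m => good ι m)).card : ℝ) ≤
        M * ∏ ι, ((1 + ε) * (l ι * den (S ι) T) + E) := by
      rw [← hcardM]
      refine sum_le_sum fun n _ => prod_le_prod (fun ι _ => Nat.cast_nonneg _) fun ι _ => ?_
      have := (abs_le.1 (hfB ι n)).2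
      linarith
    rw [hsum M] at h1
    have h3 := h1.trans h2
    rw [div_eq_mul_inv, ← sub_le_iff_le_add]
    have h4 : (1 - ε) * ∑ h ∈ HH, den (Om h) T - E * HH.card * (M : ℝ)⁻¹ =
        ((1 - ε) * (M * ∑ h ∈ HH, den (Om h) T) - HH.card * E) / M := by
      field_simp
    rw [h4, div_le_iff₀ hM0]
    linarith
  · intro hpos
    refine le_of_div _ _ (E * HH.card) fun M hM => ?_
    have hM0 : (0 : ℝ) < M := by exact_mod_cast hM
    have h1 : ∑ h ∈ HH, (((Ioc 0 (0 + M)).filter (fun n => ∀ ι, good ι (n + h ι))).card : ℝ) ≤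
        (1 + ε) * (M * ∑ h ∈ HH, den (Om h) T) + HH.card * E := by
      have h2 : ∑ h ∈ HH, (((Ioc 0 (0 + M)).filter (fun n => ∀ ι, good ι (n + h ι))).card : ℝ) ≤
          ∑ h ∈ HH, ((1 + ε) * (M * den (Om h) T) + E) := by
        refine sum_le_sum fun h _ => ?_
        have := (abs_le.1 (hfA M h)).2
        linarith
      rw [sum_add_distrib, ← mul_sum, ← mul_sum, sum_const, nsmul_eq_mul] at h2
      exact h2
    have h2 : M * ∏ ι, ((1 - ε) * (l ι * den (S ι) T) - E) ≤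
        ∑ n ∈ Ioc 0 (0 + M), ∏ ι, (((Ioc (n + lo ι) (n + lo ι + l ι)).filter (fun m => good ι m)).card : ℝ) := by
      rw [← hcardM]
      refine sum_le_sum fun n _ => prod_le_prod (fun ι _ => hpos ι) fun ι _ => ?_
      have := (abs_le.1 (hfB ι n)).1
      linarith
    rw [← hsum M] at h2
    have h3 := h2.trans h1
    have h4 : (1 + ε) * ∑ h ∈ HH, den (Om h) T + E * HH.card / (M : ℝ) =
        ((1 + ε) * (M * ∑ h ∈ HH, den (Om h) T) + HH.card * E) / M := by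
      field_simp
    rw [h4, le_div_iff₀ hM0]
    linarith

end Pool.Agent.H559.PV
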