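import Pool.Agent.H559.PV.MomL

set_option autoImplicit false

/-! # Close pairs of places are rare -/

open Finset Filter Topology Polynomial
open Pool.Agent.T2H32.BF (V V_pos V_anti V_ratio recip_le mertens)
open Pool.Agent.H559.BS (Limit TT TT_le TT_ge TT_top log_TT V_TT log_pow_le log_top g g_pos)
open Pool.Agent.H559.HY (RS CF CF_conv WW bh cntF log_val)
open Pool.Agent.W149.CS (comp_irred comp_natDegree comp_lc)

namespace Pool.Agent.H559.PV

theorem GP_comp (f : ℤ[X]) (hf : GP f) (t : ℤ) : GP (f.comp (X + C t)) :=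
  ⟨comp_irred f hf.irr t, by rw [comp_natDegree]; exact hf.deg, by rw [comp_lc]; exact hf.lead⟩

theorem sys_of (G : Finset ℤ[X]) (hG : ∀ f ∈ G, GP f) : Pool.Agent.H559.HY.Sys G := by
  refine ⟨fun f hf => ⟨(hG f hf).irr, (hG f hf).deg⟩, fun f hf g hg _ h => ?_⟩
  have h1 := congrArg Polynomial.leadingCoeff h
  rw [leadingCoeff_neg] at h1
  have := (hG f hf).lead
  have := (hG g hg).lead
  omega

/-- a finite set of polynomials is not invariant under a translation -/
theorem not_shift (G : Finset ℤ[X]) (hG : ∀ f ∈ G, GP f) (hne : G.Nonempty) (t : ℤ)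
    (h : G = G.image (fun f => f.comp (X + C t))) : t = 0 := by
  have h1 : (∏ f ∈ G, f).comp (X + C t) = ∏ f ∈ G, f := by
    rw [Polynomial.prod_comp]
    conv_rhs => rw [h]
    rw [prod_image]
    intro f _ g _ hfg
    exact comp_inj t f g hfg
  refine not_periodic (∏ f ∈ G, f) ?_ t 0 (by rw [h1, comp_zero'])
  rw [natDegree_prod _ _ fun f hf => (hG f hf).irr.ne_zero]
  exact sum_pos (fun f hf => (hG f hf).deg) hne

/-- an upper bound for the number of the places -/
theorem cnt_up (z : ℕ → ℕ) (hz : Limit z) (c : ℝ) (hc : 1 < c) (b : ℕ → ℕ) (hOK : Pool.Agent.H559.HY.OK z (WW c) b)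
    (G : Finset ℤ[X]) (hG : ∀ f ∈ G, GP f) : ∃ C2 : ℝ, 0 < C2 ∧ ∀ᶠ x : ℕ in atTop,
      (cntF (RS z (WW c) b) G x : ℝ) ≤ C2 * (x / Real.log x ^ G.card) := by
  obtain ⟨S, hS⟩ := CF_conv G (sys_of G hG)
  have h1 := bh z hz c hc b hOK G (sys_of G hG) S hS
  refine ⟨(|S| + 1) * 2 ^ G.card, by positivity, ?_⟩
  have h2 : ∀ᶠ x : ℕ in atTop, ∀ f : G, (1 / 2 : ℝ) < Real.log (((f : ℤ[X]).eval (x : ℤ) : ℤ) : ℝ) / Real.log x := by
    refine eventually_all.2 fun f => ?_
    have h3 := log_val (f : ℤ[X]) (hG f f.2).deg (hG f f.2).lead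
    have h4 : (1 : ℝ) ≤ ((f : ℤ[X]).natDegree : ℝ) := by exact_mod_cast (hG f f.2).deg
    exact h3.eventually_const_lt (by linarith)
  filter_upwards [h1.eventually_lt_const (show S < |S| + 1 by linarith [le_abs_self S]), h2, log_top.eventually_ge_atTop 1,
    eventually_ge_atTop 1] with x h3 h4 h5 h6
  have hx0 : (0 : ℝ) < x := by exact_mod_cast h6
  have hL : 0 < Real.log x := by linarith
  have h7 : (Real.log x / 2) ^ G.card ≤ ∏ f ∈ G, Real.log |((f.eval (x : ℤ) : ℤ) : ℝ)| := by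
    rw [← prod_const]
    refine prod_le_prod (fun f _ => by positivity) fun f hf => ?_
    have h8 := h4 ⟨f, hf⟩
    simp only at h8
    rw [lt_div_iff₀ hL] at h8
    rw [Real.log_abs]
    linarith
  rw [div_lt_iff₀ hx0] at h3
  have h8 : (cntF (RS z (WW c) b) G x : ℝ) * (Real.log x / 2) ^ G.card ≤ (|S| + 1) * x :=
    (mul_le_mul_of_nonneg_left h7 (Nat.cast_nonneg _)).trans h3.le
  rw [div_pow] at h8
  have h9 : 0 < Real.log x ^ G.card := by positivity
  have h10 : (cntF (RS z (WW c) b) G x : ℝ) * (Real.log x ^ G.card / 2 ^ G.card) * 2 ^ G.card ≤ (|S| + 1) * x * 2 ^ G.card :=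
    mul_le_mul_of_nonneg_right h8 (by positivity)
  have h11 : (cntF (RS z (WW c) b) G x : ℝ) * (Real.log x ^ G.card / 2 ^ G.card) * 2 ^ G.card =
      (cntF (RS z (WW c) b) G x : ℝ) * Real.log x ^ G.card := by
    field_simp
  rw [h11] at h10
  rw [mul_div_assoc', le_div_iff₀ h9]
  linarith

open Classical in
/-- the `n ≤ x` with two places at distance `t` -/
noncomputable def Bt (A : Set ℕ) (G1 G2 : Finset ℤ[X]) (t : ℤ) (a1 l1 a2 l2 x : ℕ) : Finset ℕ :=
  (Ioc 0 x).filter (fun n => ∃ a ∈ Ioc a1 (a1 + l1), ∃ b ∈ Ioc a2 (a2 + l2), (b : ℤ) = a + t ∧ n + a ∈ Pts A G1 ∧ n + b ∈ Pts A G2)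

theorem Bt_card (A : Set ℕ) (G1 G2 : Finset ℤ[X]) (t : ℤ) (a1 l1 a2 l2 x : ℕ) (h1 : a1 + l1 ≤ x) :
    ((Bt A G1 G2 t a1 l1 a2 l2 x).card : ℝ) ≤
      min l1 l2 * cntF A (G1 ∪ G2.image (fun f => f.comp (X + C t))) (2 * x) := by
  classical
  set G := G1 ∪ G2.image (fun f => f.comp (X + C t)) with hG
  set Ha : Finset ℕ := (Ioc a1 (a1 + l1)).filter (fun a => ∃ b ∈ Ioc a2 (a2 + l2), (b : ℤ) = a + t) with hHa
  set Ms : Finset ℕ := (Ioc 0 (2 * x)).filter (fun m => ∀ f ∈ G, (f.eval (m : ℤ)).natAbs ∈ A) with hMs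
  have hMc : Ms.card = cntF A G (2 * x) := by
    unfold cntF
    rw [← Set.ncard_coe_finset]
    congr 1
    ext m
    simp only [hMs, coe_filter, mem_Ioc, Set.mem_ofPred_eq]
    constructor
    · rintro ⟨⟨h2, h3⟩, h4⟩
      exact ⟨by omega, h3, h4⟩
    · rintro ⟨h2, h3, h4⟩
      exact ⟨⟨by omega, h3⟩, h4⟩
  have hsub : Bt A G1 G2 t a1 l1 a2 l2 x ⊆ Ha.biUnion (fun a => (Ioc 0 x).filter (fun n => n + a ∈ Ms)) := by
    intro n hn
    unfold Bt at hn
    rw [mem_filter] at hn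
    obtain ⟨hn0, a, ha, b, hb, hab, h2, h3⟩ := hn
    rw [mem_biUnion]
    refine ⟨a, mem_filter.2 ⟨ha, b, hb, hab⟩, mem_filter.2 ⟨hn0, mem_filter.2 ⟨?_, ?_⟩⟩⟩
    · rw [mem_Ioc] at hn0 ha ⊢
      omega
    · intro f hf
      rw [hG, mem_union, mem_image] at hf
      rcases hf with hf | ⟨f', hf', rfl⟩
      · exact h2 f hf
      · have h4 := h3 f' hf'
        rw [eval_comp]
        simp only [eval_add, eval_X, eval_C]
        have e : ((n + a : ℕ) : ℤ) + t = ((n + b : ℕ) : ℤ) := by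
          push_cast
          linarith
        rw [e]
        exact h4
  have h2 : (Bt A G1 G2 t a1 l1 a2 l2 x).card ≤ Ha.card * Ms.card := by
    refine (card_le_card hsub).trans (card_biUnion_le.trans ?_)
    rw [← smul_eq_mul]
    refine sum_le_card_nsmul _ _ _ fun a _ => ?_
    refine card_le_card_of_injOn (fun n => n + a) ?_ ?_
    · intro n hn
      rw [mem_coe, mem_filter] at hn
      exact hn.2
    · intro n _ n' _ h
      have : n + a = n' + a := h
      omega
  have h3 : Ha.card ≤ l1 := by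
    refine (card_filter_le _ _).trans ?_
    rw [Nat.card_Ioc]
    omega
  have h4 : Ha.card ≤ l2 := by
    have h5 : Ha.card ≤ (Ioc a2 (a2 + l2)).card := by
      refine card_le_card_of_injOn (fun a => ((a : ℤ) + t).toNat) ?_ ?_
      · intro a ha
        rw [mem_coe, mem_filter] at ha
        obtain ⟨_, b, hb, hab⟩ := ha
        have : ((a : ℤ) + t).toNat = b := by omega
        rw [mem_coe]
        show ((a : ℤ) + t).toNat ∈ _
        rw [this]
        exact hb
      · intro a ha a' ha' h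
        rw [mem_coe, mem_filter] at ha ha'
        obtain ⟨_, b, _, hab⟩ := ha
        obtain ⟨_, b', _, hab'⟩ := ha'
        have : ((a : ℤ) + t).toNat = ((a' : ℤ) + t).toNat := h
        omega
    rw [Nat.card_Ioc] at h5
    omega
  rw [← hMc]
  have h5 : Ha.card ≤ min l1 l2 := le_min h3 h4
  have h6 := h2.trans (Nat.mul_le_mul_right Ms.card h5)
  exact_mod_cast h6

/-- two systems which are not translates: the pairs at distance `t` are rare -/
theorem Bt_rare (z : ℕ → ℕ) (hz : Limit z) (c : ℝ) (hc : 1 < c) (b : ℕ → ℕ) (hOK : Pool.Agent.H559.HY.OK z (WW c) b)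
    (G1 G2 : Finset ℤ[X]) (hG1 : ∀ f ∈ G1, GP f) (hG2 : ∀ f ∈ G2, GP f) (t : ℤ)
    (hne : G1 ≠ G2.image (fun f => f.comp (X + C t))) (a1 l1 a2 l2 : ℕ → ℕ) (L1 L2 : ℝ)
    (hl1 : Tendsto (fun x : ℕ => (l1 x : ℝ) / Real.log x ^ G1.card) atTop (𝓝 L1))
    (hl2 : Tendsto (fun x : ℕ => (l2 x : ℝ) / Real.log x ^ G2.card) atTop (𝓝 L2))
    (hx : ∀ᶠ x : ℕ in atTop, a1 x + l1 x ≤ x) :
    Tendsto (fun x : ℕ => ((Bt (RS z (WW c) b) G1 G2 t (a1 x) (l1 x) (a2 x) (l2 x) x).card : ℝ) / x) atTop (𝓝 0) := by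
  classical
  set G := G1 ∪ G2.image (fun f => f.comp (X + C t)) with hG
  have hGP : ∀ f ∈ G, GP f := by
    intro f hf
    rw [hG, mem_union, mem_image] at hf
    rcases hf with hf | ⟨f', hf', rfl⟩
    · exact hG1 f hf
    · exact GP_comp f' (hG2 f' hf') t
  have himg : (G2.image (fun f => f.comp (X + C t))).card = G2.card :=
    card_image_of_injective _ fun f g h => comp_inj t f g h
  have hq : min G1.card G2.card < G.card := by
    by_contra hcon
    rw [not_lt, le_min_iff] at hcon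
    have h1 : G1 = G := eq_of_subset_of_card_le subset_union_left hcon.1
    have h2 : G2.image (fun f => f.comp (X + C t)) = G :=
      eq_of_subset_of_card_le subset_union_right (by rw [himg]; exact hcon.2)
    exact hne (h1.trans h2.symm)
  obtain ⟨C2, hC2, hcnt⟩ := cnt_up z hz c hc b hOK G hGP
  have hcnt2 := (tendsto_id.const_mul_atTop' (show 0 < 2 by norm_num) : Tendsto (fun x : ℕ => 2 * x) atTop atTop).eventually hcnt
  have hlim : Tendsto (fun x : ℕ => ((|L1| + |L2| + 1) * (2 * C2)) / Real.log x) atTop (𝓝 0) :=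
    tendsto_const_nhds.div_atTop log_top
  refine tendsto_of_tendsto_of_tendsto_of_le_of_le' tendsto_const_nhds hlim (Eventually.of_forall fun x => by positivity) ?_
  filter_upwards [hx, hcnt2, hl1.eventually_lt_const (show L1 < |L1| + |L2| + 1 by
      linarith [le_abs_self L1, abs_nonneg L2]), hl2.eventually_lt_const (show L2 < |L1| + |L2| + 1 by
      linarith [le_abs_self L2, abs_nonneg L1]), log_top.eventually_ge_atTop 1, eventually_ge_atTop 1] with x h1 h2 h3 h4 h5 h6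
  have hx0 : (0 : ℝ) < x := by exact_mod_cast h6
  have hL : 0 < Real.log x := by linarith
  set Lx := Real.log x with hLx
  set Λ : ℝ := |L1| + |L2| + 1 with hΛ
  have hΛ0 : 0 ≤ Λ := by positivity
  have h7 := Bt_card (RS z (WW c) b) G1 G2 t (a1 x) (l1 x) (a2 x) (l2 x) x h1
  rw [div_lt_iff₀ (by positivity)] at h3 h4
  have h8 : ((min (l1 x) (l2 x) : ℕ) : ℝ) ≤ Λ * Lx ^ min G1.card G2.card := by
    rcases le_total G1.card G2.card with h9 | h9
    · rw [min_eq_left h9]
      refine le_trans ?_ h3.le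
      exact_mod_cast min_le_left _ _
    · rw [min_eq_right h9]
      refine le_trans ?_ h4.le
      exact_mod_cast min_le_right _ _
  have h9 : (cntF (RS z (WW c) b) G (2 * x) : ℝ) ≤ 2 * C2 * (x / Lx ^ G.card) := by
    refine h2.trans ?_
    push_cast
    have h10 : Lx ≤ Real.log (2 * (x : ℝ)) := Real.log_le_log hx0 (by linarith)
    calc C2 * (2 * (x : ℝ) / Real.log (2 * (x : ℝ)) ^ G.card) ≤ C2 * (2 * (x : ℝ) / Lx ^ G.card) := by gcongr
      _ = _ := by ring
  have h10 : Lx ^ min G1.card G2.card * Lx ≤ Lx ^ G.card := by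
    rw [← pow_succ]
    exact pow_le_pow_right₀ h5 hq
  rw [div_le_div_iff₀ hx0 hL]
  have h11 : ((Bt (RS z (WW c) b) G1 G2 t (a1 x) (l1 x) (a2 x) (l2 x) x).card : ℝ) ≤
      (Λ * Lx ^ min G1.card G2.card) * (2 * C2 * (x / Lx ^ G.card)) := by
    refine h7.trans ?_
    exact mul_le_mul h8 h9 (Nat.cast_nonneg _) (by positivity)
  have h12 : (Λ * Lx ^ min G1.card G2.card) * (2 * C2 * (x / Lx ^ G.card)) * Lx ≤ Λ * (2 * C2) * x := by
    have h13 : 0 < Lx ^ G.card := by positivity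
    calc (Λ * Lx ^ min G1.card G2.card) * (2 * C2 * (x / Lx ^ G.card)) * Lx =
          Λ * (2 * C2) * x * ((Lx ^ min G1.card G2.card * Lx) / Lx ^ G.card) := by
          field_simp
      _ ≤ Λ * (2 * C2) * x * 1 := by
          gcongr
          rw [div_le_one h13]
          exact h10
      _ = _ := mul_one _
  exact (mul_le_mul_of_nonneg_right h11 hL.le).trans h12

end Pool.Agent.H559.PV
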