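import Pool.Agent.H559.PV.Tail

set_option autoImplicit false

/-! # Counting the simultaneous random prime values of polynomials, uniformly -/

open Finset MeasureTheory ProbabilityTheory Filter Topology
open Pool.Agent.T2H32.BF (Model prob V V_pos V_anti V_ratio recip_le mertens)
open Pool.Agent.H559.BS (Limit TT TT_le TT_ge TT_top log_TT V_TT log_pow_le log_top g g_pos sum_sq)
open Pool.Agent.H559.HY (Arr evl rts rts_sub box mem_box card_box X K2 K2_pos tau kl wt wt_le surv dev base Om RS cnt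
  low_sub up_sub Cut facts_ev Facts tt Sg Sg_nonneg dens_split cmpA cmpB prodk prodV up_dens card_le_p pow_top)

namespace Pool.Agent.H559.PV

variable {Ω : Type*} [MeasurableSpace Ω] {P : Measure Ω} {a : ℕ → Ω → ℕ} {k D : ℕ}

theorem low_dens (C : Arr k D) (w1 w2 T N : ℕ) (b : ℕ → ℕ) (Z : Fin k → ℕ) (h1 : w1 ≤ w2) (h2 : w2 ≤ T)
    (hC : ∀ p, p.Prime → w1 < p → Gd C p) (hw1 : 4 * K2 k D ≤ w1) (ε η : ℝ)
    (hη : Real.log (V w1 / V w2) ≤ η) (hX : |∑ p ∈ (Ioc w2 T).filter Nat.Prime, X C p (b p)| ≤ ε)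
    (hT : ∀ i, T ≤ Z i) (hN : ∀ i, Z i ≤ N) :
    Real.exp (-tt k D ε η w1) * (Sg C w1 * ∏ i, V (Z i)) ≤
      (∏ p ∈ (range (T + 1)).filter Nat.Prime, (1 - ((Om C w1 w2 false b p).card : ℝ) / p)) *
        ∏ p ∈ (Ioc T N).filter Nat.Prime, (1 - (wt Z p : ℝ) / (p : ℝ)) := by
  have hK := K2_pos k D
  set K : ℝ := 2 * K2 k D with hKd
  have hw1' : (4 : ℝ) ≤ w1 := by linarith
  have hw1n : 1 ≤ w1 := by
    have : (1 : ℝ) ≤ w1 := by linarith
    exact_mod_cast this
  have hw10 : (0 : ℝ) < w1 := by linarith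
  have hKk : (k : ℝ) ≤ K := by
    have : (0 : ℝ) ≤ k * D := by positivity
    rw [hKd]
    unfold K2
    linarith [(Nat.cast_nonneg k : (0 : ℝ) ≤ k)]
  have hKkD : 2 * (k : ℝ) * D ≤ K := by
    rw [hKd]
    unfold K2
    linarith [(Nat.cast_nonneg k : (0 : ℝ) ≤ k)]
  have hK0 : 0 ≤ K := by linarith
  have hV1 := V_pos w1
  have hV2 := V_pos w2
  have hVT := V_pos T
  have hw12 : (w1 : ℝ) ≤ w2 := by exact_mod_cast h1
  have hw1T : (w1 : ℝ) ≤ T := by exact_mod_cast h1.trans h2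
  rw [dens_split C w1 w2 T false b h1 h2]
  -- the middle range
  have e1 : Real.exp (-(K * η) - 2 * K ^ 2 / w1) ≤ ∏ p ∈ (Ioc w1 w2).filter Nat.Prime,
      (1 - (((if false then ∅ else rts C p 0 ∪ rts C p (b p)) : Finset ℕ).card : ℝ) / p) := by
    have h3 := cmpB w1 w2 hw1n
      (fun p => ((if false then ∅ else rts C p 0 ∪ rts C p (b p)) : Finset ℕ).card) (fun _ => 0) K (by
        intro p hp
        rw [mem_filter, mem_Ioc] at hp
        have hg := hC p hp.2 hp.1.1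
        have h4 : (rts C p 0 ∪ rts C p (b p)).card ≤ k * D + k * D :=
          (card_union_le _ _).trans (Nat.add_le_add (rts_card C p _ hp.2 hg) (rts_card C p _ hp.2 hg))
        have h5 : ((rts C p 0 ∪ rts C p (b p)).card : ℝ) ≤ k * D + k * D := by exact_mod_cast h4
        simp only [Bool.false_eq_true, if_false]
        linarith) hK0 (by linarith)
    simp only [pow_zero, prod_const_one, mul_one, Nat.cast_zero, sub_zero] at h3
    refine le_trans (Real.exp_le_exp.2 ?_) h3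
    have h6 : ∑ p ∈ (Ioc w1 w2).filter Nat.Prime,
        (((if false then ∅ else rts C p 0 ∪ rts C p (b p)) : Finset ℕ).card : ℝ) / p ≤ K * η := by
      calc _ ≤ ∑ p ∈ (Ioc w1 w2).filter Nat.Prime, K * (1 / (p : ℝ)) := by
            refine sum_le_sum fun p hp => ?_
            rw [mem_filter, mem_Ioc] at hp
            have hg := hC p hp.2 hp.1.1
            have h4 : (rts C p 0 ∪ rts C p (b p)).card ≤ k * D + k * D :=
              (card_union_le _ _).trans (Nat.add_le_add (rts_card C p _ hp.2 hg) (rts_card C p _ hp.2 hg))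
            have h5 : ((rts C p 0 ∪ rts C p (b p)).card : ℝ) ≤ k * D + k * D := by exact_mod_cast h4
            simp only [Bool.false_eq_true, if_false]
            rw [div_eq_mul_one_div]
            exact mul_le_mul_of_nonneg_right (by linarith) (by positivity)
        _ = K * ∑ p ∈ (Ioc w1 w2).filter Nat.Prime, 1 / (p : ℝ) := by rw [mul_sum]
        _ ≤ K * η := mul_le_mul_of_nonneg_left ((recip_le w1 w2 h1).trans hη) hK0
    linarith
  -- the last range
  have e2 : Real.exp (-ε - 2 * K ^ 2 / w1) * (V T / V w2) ^ k ≤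
      ∏ p ∈ (Ioc w2 T).filter Nat.Prime, (1 - ((rts C p (b p)).card : ℝ) / p) := by
    have h3 := cmpB w2 T (by omega) (fun p => (rts C p (b p)).card) (fun _ => k) K (by
        intro p hp
        rw [mem_filter, mem_Ioc] at hp
        have h5 : ((rts C p (b p)).card : ℝ) ≤ k * D := by
          exact_mod_cast rts_card C p _ hp.2 (hC p hp.2 (by omega))
        have : (0 : ℝ) ≤ k * D := by positivity
        linarith) hK0 (by linarith)
    rw [prodk w2 T h2 k] at h3
    refine le_trans (mul_le_mul_of_nonneg_right (Real.exp_le_exp.2 ?_) (by positivity)) h3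
    have h4 : ∑ p ∈ (Ioc w2 T).filter Nat.Prime, (((rts C p (b p)).card : ℝ) - k) / p ≤ ε :=
      (le_abs_self _).trans hX
    have h5 : 2 * K ^ 2 / (w2 : ℝ) ≤ 2 * K ^ 2 / w1 := by gcongr
    linarith
  -- the random range
  have e3 : Real.exp (-(2 * K ^ 2 / w1)) * ((∏ i, V (Z i)) / V T ^ k) ≤
      ∏ p ∈ (Ioc T N).filter Nat.Prime, (1 - (wt Z p : ℝ) / (p : ℝ)) := by
    have h3 := cmpB T N (by omega) (fun p => wt Z p) (fun p => wt Z p) K (by
        intro p hp
        have : (wt Z p : ℝ) ≤ k := by exact_mod_cast wt_le Z p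
        linarith) hK0 (by linarith)
    rw [prodV Z T N hT hN] at h3
    have hP : 0 ≤ (∏ i, V (Z i)) / V T ^ k :=
      div_nonneg (prod_nonneg fun i _ => (V_pos _).le) (pow_nonneg hVT.le _)
    refine le_trans (mul_le_mul_of_nonneg_right (Real.exp_le_exp.2 ?_) hP) h3
    have h5 : 2 * K ^ 2 / (T : ℝ) ≤ 2 * K ^ 2 / w1 := by gcongr
    simp only [sub_self, zero_div, sum_const_zero, neg_zero, zero_sub]
    linarith
  have hP0 : 0 ≤ ∏ i, V (Z i) := prod_nonneg fun i _ => (V_pos _).le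
  have hSg := Sg_nonneg C w1
  have hVV : 1 ≤ (V w1 / V w2) ^ k := by
    refine one_le_pow₀ ?_
    rw [one_le_div hV2]
    exact V_anti h1
  calc Real.exp (-tt k D ε η w1) * (Sg C w1 * ∏ i, V (Z i))
      = Real.exp (-tt k D ε η w1) * (Sg C w1 * (1 * ∏ i, V (Z i))) := by ring
    _ ≤ Real.exp (-tt k D ε η w1) * (Sg C w1 * ((V w1 / V w2) ^ k * ∏ i, V (Z i))) := by gcongr
    _ = (Sg C w1 * V w1 ^ k * Real.exp (-(K * η) - 2 * K ^ 2 / w1) *
        (Real.exp (-ε - 2 * K ^ 2 / w1) * (V T / V w2) ^ k)) *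
        (Real.exp (-(2 * K ^ 2 / w1)) * ((∏ i, V (Z i)) / V T ^ k)) := by
        have h3 : Real.exp (-tt k D ε η w1) = Real.exp (-(K * η) - 2 * K ^ 2 / w1) *
            Real.exp (-ε - 2 * K ^ 2 / w1) * Real.exp (-(2 * K ^ 2 / w1)) := by
          rw [← Real.exp_add, ← Real.exp_add]
          congr 1
          unfold tt
          rw [hKd]
          ring
        rw [h3, div_pow, div_pow]
        field_simp
    _ ≤ _ := by
        have p1 : 0 ≤ Sg C w1 * V w1 ^ k := mul_nonneg hSg (pow_nonneg hV1.le _)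
        have p2 := (Real.exp_pos (-(K * η) - 2 * K ^ 2 / w1)).le.trans e1
        have p3 : 0 ≤ Real.exp (-ε - 2 * K ^ 2 / w1) * (V T / V w2) ^ k := by positivity
        have p4 : 0 ≤ Real.exp (-(2 * K ^ 2 / w1)) * ((∏ i, V (Z i)) / V T ^ k) :=
          mul_nonneg (Real.exp_pos _).le (div_nonneg hP0 (pow_nonneg hVT.le _))
        exact mul_le_mul (mul_le_mul (mul_le_mul_of_nonneg_left e1 p1) e2 p3 (mul_nonneg p1 p2)) e3 p4
          (mul_nonneg (mul_nonneg p1 p2) (p3.trans e2))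

/-- the bound for the number of the classes of the rule -/
theorem Om_card (C : Arr k D) (w1 w2 P0 : ℕ) (up : Bool) (b : ℕ → ℕ) (p : ℕ) (hp : p.Prime)
    (hC : ∀ p, p.Prime → P0 < p → Gd C p) :
    Om C w1 w2 up b p ⊆ range p ∧ (Om C w1 w2 up b p).card ≤ 2 * (k * D) + 2 * P0 := by
  have h1 : ∀ c, (rts C p c).card ≤ k * D + P0 := by
    intro c
    by_cases h : P0 < p
    · have := rts_card C p c hp (hC p hp h)
      omega
    · have := card_le_p C p c
      omega
  unfold Om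
  split_ifs
  · exact ⟨rts_sub _ _ _, by have := h1 0; omega⟩
  · simp
  · refine ⟨union_subset (rts_sub _ _ _) (rts_sub _ _ _), ?_⟩
    have h2 := card_union_le (rts C p 0) (rts C p (b p))
    have h3 := h1 0
    have h4 := h1 (b p)
    omega
  · exact ⟨rts_sub _ _ _, by have := h1 (b p); omega⟩

/-- **The number of the simultaneous random prime values.** -/
theorem engine (h : Model P a) (z W : ℕ → ℕ) (hz : Limit z) (hW : Cut W) (k D A P0 B : ℕ) (hA : 1 ≤ A) (η ε : ℝ)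
    (hη : 0 < η) (hη1 : η ≤ 1) (hε : 0 < ε) (hε1 : ε ≤ 1) :
    ∀ᵐ ω ∂P, ∀ᶠ x : ℕ in atTop, ∀ C ∈ box k D (x ^ A), (∀ p, p.Prime → P0 < p → Gd C p) → Row C →
      ∀ (k0 y : ℕ) (lo hi : Fin k → ℕ), k0 ≤ x → y ≤ x → (∀ i, TT η x ≤ lo i) → (∀ i, hi i ≤ x ^ A) →
      (∀ m ∈ Ioc k0 (k0 + y), ∀ i, (lo i : ℤ) ≤ evl (C i) m ∧ evl (C i) m ≤ hi i) →
      (1 - ε) * (y * (Sg C (W (TT η x)) * ∏ i, V (z (hi i)))) - x / Real.log x ^ B ≤
        cnt C (RS z W (fun p => a p ω)) k0 y ∧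
      cnt C (RS z W (fun p => a p ω)) k0 y ≤
        (1 + ε) * (y * (Sg C (W (TT η x)) * ∏ i, V (z (lo i)))) + x / Real.log x ^ B := by
  have hprob := prob h
  have hg := g_pos
  have hK := K2_pos k D
  have hA0 : (0 : ℝ) < A := by exact_mod_cast hA
  obtain ⟨Bf, Kf, hKf, hfl⟩ := Pool.Agent.T2H32.GB.flg (2 * (k * D) + 2 * P0) (ε / 4) (by positivity)
  set δ : ℝ := min (1 / (2 * ((Bf : ℝ) + 1))) (g * η / 16) with hδd
  have hBf0 : (0 : ℝ) ≤ Bf := Nat.cast_nonneg _
  have hδ : 0 < δ := lt_min (by positivity) (by positivity)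
  have hδ1' : δ ≤ 1 / (2 * ((Bf : ℝ) + 1)) := min_le_left _ _
  have hδ2 : 16 * δ ≤ g * η := by
    have : δ ≤ g * η / 16 := min_le_right _ _
    linarith
  have hδ1 : δ ≤ 1 := by
    refine hδ1'.trans ?_
    rw [div_le_one (by positivity)]
    linarith
  have hδB : δ * Bf ≤ 1 / 2 := by
    calc δ * Bf ≤ 1 / (2 * ((Bf : ℝ) + 1)) * Bf := by gcongr
      _ ≤ 1 / 2 := by
          rw [div_mul_eq_mul_div, div_le_div_iff₀ (by positivity) (by norm_num)]
          linarith
  have hc1 : 0 < 8 * A * g / δ := by positivity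
  have he : 0 < min (ε / 8) 1 := by positivity
  have hF := facts_ev z W hz hW k D A P0 B Bf hA η δ ε Kf hη hη1 hδ hδ1 hδ2 hε hKf hδB
  have hE1 := ev1 h k D (4 * A) P0 B δ (1 / 2) (8 * A * g / δ) hδ hδ1 (by norm_num) hc1 (fun x => W (TT η x))
    (fun x => W (x ^ A))
  have hwt : Tendsto (fun x : ℕ => ((W (x ^ A) : ℕ) : ℝ) / Real.log x) atTop atTop := by
    have h1 := hW.top.comp (pow_top A hA)
    refine tendsto_atTop_mono' atTop ?_ h1
    filter_upwards [log_top.eventually_ge_atTop 1] with x hx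
    simp only [Function.comp_apply, Nat.cast_pow, Real.log_pow]
    have h2 : (1 : ℝ) ≤ A := by exact_mod_cast hA
    have h3 : (0 : ℝ) ≤ (W (x ^ A) : ℝ) := Nat.cast_nonneg _
    gcongr
    nlinarith
  have hE2 := ev2 h k D (4 * A) P0 (min (ε / 8) 1) he (min_le_right _ _) (fun x => W (x ^ A)) hwt
  filter_upwards [hE1, hE2] with ω hω1 hω2
  filter_upwards [hω1, hω2, hF] with x hx1 hx2 hf C hCb hC hRow k0 y lo hi hk0 hy hlo hhi hm
  obtain ⟨x2, L1, T1, TA, w1a, w1b, w1c, w12, w2T, lo3, slow, Tz, zA, VT, E⟩ := hf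
  set T := TT δ x with hTd
  set w1 := W (TT η x) with hw1
  set w2 := W (x ^ A) with hw2
  set b : ℕ → ℕ := fun p => a p ω with hb
  set N := z (x ^ A) with hN
  have hLB : 0 < Real.log x ^ B := pow_pos (by linarith) B
  have hx0 : (0 : ℝ) < x := by
    have : (2 : ℝ) ≤ x := by exact_mod_cast x2
    linarith
  have hXB : 0 ≤ (x : ℝ) / Real.log x ^ B := by positivity
  have hSg := Sg_nonneg C w1
  rcases Nat.eq_zero_or_pos y with hy0 | hy0
  · have h0 : cnt C (RS z W b) k0 y = 0 := by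
      unfold cnt
      rw [hy0]
      simp
    rw [h0, hy0]
    simp only [Nat.cast_zero, zero_mul, mul_zero, zero_sub, zero_add]
    exact ⟨by linarith, hXB⟩
  have hlohi : ∀ i, lo i ≤ hi i := by
    intro i
    have h1 := hm (k0 + 1) (by rw [mem_Ioc]; omega) i
    have h2 := h1.1.trans h1.2
    exact_mod_cast h2
  have hbox : C ∈ box k D (x ^ (4 * A)) := by
    rw [mem_box] at hCb ⊢
    intro i j
    refine (hCb i j).trans ?_
    exact_mod_cast Nat.pow_le_pow_right (by omega) (by omega)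
  have hxA : x ^ A ≤ x ^ (4 * A) := Nat.pow_le_pow_right (by omega) (by omega)
  have hzm := hz.1
  have hzhi : ∀ i, z (hi i) ≤ N := fun i => hzm (hhi i)
  have hzlo : ∀ i, z (lo i) ≤ N := fun i => hzm ((hlohi i).trans (hhi i))
  have hTlo : ∀ i, T ≤ z (lo i) := fun i => Tz.trans (hzm (hlo i))
  have hThi : ∀ i, T ≤ z (hi i) := fun i => (hTlo i).trans (hzm (hlohi i))
  have hCw : ∀ p, p.Prime → w1 < p → Gd C p := fun p hp h1 => hC p hp (by omega)
  have hXs : |∑ p ∈ (Ioc w2 T).filter Nat.Prime, X C p (b p)| ≤ ε / 8 :=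
    (hx2 C hbox hC hRow T TA).le.trans (min_le_left _ _)
  have htt : tt k D (ε / 8) (ε / (16 * K2 k D)) w1 ≤ 3 * ε / 8 := by
    unfold tt
    have : 2 * K2 k D * (ε / (16 * K2 k D)) = ε / 8 := by
      field_simp
      norm_num
    rw [this]
    linarith
  have hpr : ∀ Z : Fin k → ℕ, 0 ≤ ∏ p ∈ (Ioc T N).filter Nat.Prime, (1 - (wt Z p : ℝ) / (p : ℝ)) ∧
      ∏ p ∈ (Ioc T N).filter Nat.Prime, (1 - (wt Z p : ℝ) / (p : ℝ)) ≤ 1 := by
    intro Z
    have hkT : k ≤ T := by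
      have h1 : (k : ℝ) ≤ w1 := by
        have : (k : ℝ) ≤ K2 k D := by
          unfold K2
          have : (0 : ℝ) ≤ k * D := by positivity
          linarith
        linarith
      have h2 : k ≤ w1 := by exact_mod_cast h1
      exact h2.trans (w12.trans w2T)
    have h1 : ∀ p ∈ (Ioc T N).filter Nat.Prime, 0 ≤ 1 - (wt Z p : ℝ) / (p : ℝ) ∧ 1 - (wt Z p : ℝ) / (p : ℝ) ≤ 1 := by
      intro p hp
      rw [mem_filter, mem_Ioc] at hp
      have h3 : (wt Z p : ℝ) ≤ p := by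
        have := wt_le Z p
        exact_mod_cast (show wt Z p ≤ p by omega)
      have h4 : (wt Z p : ℝ) / p ≤ 1 := by rw [div_le_one (by exact_mod_cast hp.2.pos)]; exact h3
      have h5 : 0 ≤ (wt Z p : ℝ) / p := by positivity
      constructor <;> linarith
    exact ⟨prod_nonneg fun p hp => (h1 p hp).1, prod_le_one (fun p hp => (h1 p hp).1) fun p hp => (h1 p hp).2⟩
  have hy0R : (0 : ℝ) ≤ y := Nat.cast_nonneg _
  constructor
  · -- lower bound
    have h1 := low_sub C z W hzm hW.mono b w1 w2 T N k0 y lo hi (fun i => lo3.trans (hlo i))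
      (fun i => hW.mono (hlo i)) (fun i => hW.mono (hhi i)) w2T hzhi hm
    have h2 := hx1 C hbox hC hRow (fun i => z (hi i)) N k0 y false (fun i => (hzhi i).trans zA) zA hk0 hy VT
    have h3 := hfl T (Om C w1 w2 false b) (fun p _ hpp => Om_card C w1 w2 P0 false b p hpp hC) k0 y
    have h4 := low_dens C w1 w2 T N b (fun i => z (hi i)) w12 w2T hCw w1a (ε / 8) _ slow hXs hThi hzhi
    set Pi := ∏ p ∈ (Ioc T N).filter Nat.Prime, (1 - (wt (fun i => z (hi i)) p : ℝ) / (p : ℝ)) with hPi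
    set Dn := ∏ p ∈ (range (T + 1)).filter Nat.Prime, (1 - ((Om C w1 w2 false b p).card : ℝ) / p) with hDn
    obtain ⟨hPi0, hPi1⟩ := hpr (fun i => z (hi i))
    unfold dev at h2
    have h5 := (abs_lt.1 h2).1
    have h6 := (abs_le.1 h3).1
    set bc : ℝ := ((base C w1 w2 false T k0 y b).card : ℝ) with hbc
    have h6' : (1 - ε / 4) * (y * Dn) - Kf * ((T : ℝ) + 1) ^ Bf ≤ bc := by
      have : bc = (((Ioc k0 (k0 + y)).filter (fun n => ∀ p ≤ T, p.Prime → n % p ∉ Om C w1 w2 false b p)).card : ℝ) := rfl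
      rw [this]
      linarith
    set EE := Kf * ((T : ℝ) + 1) ^ Bf with hEE
    have hEE0 : 0 ≤ EE := by positivity
    have h7 : (1 - ε / 4) * (y * (Dn * Pi)) - EE ≤ bc * Pi := by
      have h8 := mul_le_mul_of_nonneg_right h6' hPi0
      have h9 : EE * Pi ≤ EE * 1 := mul_le_mul_of_nonneg_left hPi1 hEE0
      nlinarith
    set Q := Sg C w1 * ∏ i, V (z (hi i)) with hQ
    have hQ0 : 0 ≤ Q := mul_nonneg hSg (prod_nonneg fun i _ => (V_pos _).le)
    have h8 : (1 - 3 * ε / 8) * Q ≤ Dn * Pi := by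
      refine le_trans (mul_le_mul_of_nonneg_right ?_ hQ0) h4
      have := Real.add_one_le_exp (-tt k D (ε / 8) (ε / (16 * K2 k D)) w1)
      linarith
    have h9 : (1 - ε) * (y * Q) ≤ (1 - ε / 4) * (y * (Dn * Pi)) := by
      have h10 : y * ((1 - 3 * ε / 8) * Q) ≤ y * (Dn * Pi) := mul_le_mul_of_nonneg_left h8 hy0R
      have h11 : (1 - ε / 4) * (y * ((1 - 3 * ε / 8) * Q)) ≤ (1 - ε / 4) * (y * (Dn * Pi)) :=
        mul_le_mul_of_nonneg_left h10 (by linarith)
      refine le_trans ?_ h11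
      have h12 : 0 ≤ y * Q := by positivity
      have h13 : (1 - ε) * (y * Q) ≤ ((1 - ε / 4) * (1 - 3 * ε / 8)) * (y * Q) :=
        mul_le_mul_of_nonneg_right (by nlinarith) h12
      linarith
    have h10 : ((surv (kl C (fun i => z (hi i))) b ((Ioc T N).filter Nat.Prime)
        (base C w1 w2 false T k0 y b)).card : ℝ) ≤ cnt C (RS z W b) k0 y := by exact_mod_cast h1
    linarith
  · -- upper bound
    have h1 := up_sub C z W hzm hW.mono b w1 w2 T N k0 y lo hi
      (fun i => hW.mono (hlo i)) (fun i => hW.mono (hhi i)) w2T hTlo hm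
    have h2 := hx1 C hbox hC hRow (fun i => z (lo i)) N k0 y true (fun i => (hzlo i).trans zA) zA hk0 hy VT
    have h3 := hfl T (Om C w1 w2 true b) (fun p _ hpp => Om_card C w1 w2 P0 true b p hpp hC) k0 y
    have h4 := up_dens C w1 w2 T N b (fun i => z (lo i)) w12 w2T w1a (ε / 8) _ slow hXs hTlo hzlo
    set Pi := ∏ p ∈ (Ioc T N).filter Nat.Prime, (1 - (wt (fun i => z (lo i)) p : ℝ) / (p : ℝ)) with hPi
    set Dn := ∏ p ∈ (range (T + 1)).filter Nat.Prime, (1 - ((Om C w1 w2 true b p).card : ℝ) / p) with hDn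
    obtain ⟨hPi0, hPi1⟩ := hpr (fun i => z (lo i))
    unfold dev at h2
    have h5 := (abs_lt.1 h2).2
    have h6 := (abs_le.1 h3).2
    set bc : ℝ := ((base C w1 w2 true T k0 y b).card : ℝ) with hbc
    have h6' : bc ≤ (1 + ε / 4) * (y * Dn) + Kf * ((T : ℝ) + 1) ^ Bf := by
      have : bc = (((Ioc k0 (k0 + y)).filter (fun n => ∀ p ≤ T, p.Prime → n % p ∉ Om C w1 w2 true b p)).card : ℝ) := rfl
      rw [this]
      linarith
    set EE := Kf * ((T : ℝ) + 1) ^ Bf with hEE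
    have hEE0 : 0 ≤ EE := by positivity
    have h7 : bc * Pi ≤ (1 + ε / 4) * (y * (Dn * Pi)) + EE := by
      have h8 := mul_le_mul_of_nonneg_right h6' hPi0
      have h9 : EE * Pi ≤ EE * 1 := mul_le_mul_of_nonneg_left hPi1 hEE0
      nlinarith
    set Q := Sg C w1 * ∏ i, V (z (lo i)) with hQ
    have hQ0 : 0 ≤ Q := mul_nonneg hSg (prod_nonneg fun i _ => (V_pos _).le)
    have h8 : Dn * Pi ≤ (1 + 3 * ε / 8 + (3 * ε / 8) ^ 2) * Q := by
      refine h4.trans (mul_le_mul_of_nonneg_right ?_ hQ0)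
      refine (Real.exp_le_exp.2 htt).trans ?_
      have h9 : |3 * ε / 8| ≤ 1 := by
        rw [abs_of_nonneg (by positivity)]
        linarith
      have := (abs_le.1 (Real.abs_exp_sub_one_sub_id_le h9)).2
      linarith
    have h9 : (1 + ε / 4) * (y * (Dn * Pi)) ≤ (1 + ε) * (y * Q) := by
      have h10 : y * (Dn * Pi) ≤ y * ((1 + 3 * ε / 8 + (3 * ε / 8) ^ 2) * Q) := mul_le_mul_of_nonneg_left h8 hy0R
      have h11 := mul_le_mul_of_nonneg_left h10 (show 0 ≤ 1 + ε / 4 by positivity)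
      refine h11.trans ?_
      have h12 : 0 ≤ y * Q := by positivity
      have h13 : ((1 + ε / 4) * (1 + 3 * ε / 8 + (3 * ε / 8) ^ 2)) * (y * Q) ≤ (1 + ε) * (y * Q) := by
        refine mul_le_mul_of_nonneg_right ?_ h12
        nlinarith [sq_nonneg ε, mul_pos hε hε]
      linarith
    have h10 : (cnt C (RS z W b) k0 y : ℝ) ≤ ((surv (kl C (fun i => z (lo i))) b ((Ioc T N).filter Nat.Prime)
        (base C w1 w2 true T k0 y b)).card : ℝ) := by exact_mod_cast h1
    linarith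


/-- the conclusion of the main theorem for one sample -/
def OK (z W : ℕ → ℕ) (b : ℕ → ℕ) : Prop :=
  ∀ k D A P0 B n : ℕ, 1 ≤ A → ∀ᶠ x : ℕ in atTop, ∀ C ∈ box k D (x ^ A), (∀ p, p.Prime → P0 < p → Gd C p) → Row C →
    ∀ (k0 y : ℕ) (lo hi : Fin k → ℕ), k0 ≤ x → y ≤ x → (∀ i, TT (1 / 4) x ≤ lo i) → (∀ i, hi i ≤ x ^ A) →
    (∀ m ∈ Ioc k0 (k0 + y), ∀ i, (lo i : ℤ) ≤ evl (C i) m ∧ evl (C i) m ≤ hi i) →
    (1 - 1 / ((n : ℝ) + 1)) * (y * (Sg C (W (TT (1 / 4) x)) * ∏ i, V (z (hi i)))) - x / Real.log x ^ B ≤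
        cnt C (RS z W b) k0 y ∧
      cnt C (RS z W b) k0 y ≤
        (1 + 1 / ((n : ℝ) + 1)) * (y * (Sg C (W (TT (1 / 4) x)) * ∏ i, V (z (lo i)))) + x / Real.log x ^ B

theorem ae_OK (h : Model P a) (z W : ℕ → ℕ) (hz : Limit z) (hW : Cut W) : ∀ᵐ ω ∂P, OK z W (fun p => a p ω) := by
  unfold OK
  simp only [ae_all_iff]
  intro k D A P0 B n hA
  exact engine h z W hz hW k D A P0 B hA (1 / 4) (1 / ((n : ℝ) + 1)) (by norm_num) (by norm_num) (by positivity) (by
    rw [div_le_one (by positivity)]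
    linarith [(Nat.cast_nonneg n : (0 : ℝ) ≤ n)])

end Pool.Agent.H559.PV
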