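import Pool.Agent.H559.PV.Close

set_option autoImplicit false

/-! # Factorial moments -/

open Finset Filter Topology Polynomial

namespace Pool.Agent.H559.PV

open Classical in
/-- the places of one label -/
noncomputable def Pt (A : Set ℕ) (G : Finset ℤ[X]) (a l n : ℕ) : Finset ℕ :=
  (Ioc a (a + l)).filter (fun h => n + h ∈ Pts A G)

variable {s : ℕ} (F : Fin s → Finset ℤ[X])

/-- no close pairs of places -/
def NC (A : Set ℕ) (d0 : ℕ) (a l : Fin s → ℕ) (n : ℕ) : Prop :=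
  ∀ i j, ∀ h ∈ Pt A (F i) (a i) (l i) n, ∀ h' ∈ Pt A (F j) (a j) (l j) n, (i ≠ j ∨ h ≠ h') → (d0 : ℤ) < |(h' : ℤ) - h|

open Classical in
theorem Tn_eq (A : Set ℕ) (d0 : ℕ) (a l : Fin s → ℕ) (n : ℕ) (hNC : NC F A d0 a l n) (r : Fin s → ℕ) :
    Tn F (κ := Σ i, Fin (r i)) Sigma.fst A d0 (fun ι => a ι.1) (fun ι => l ι.1) n =
      ∏ i, ((Pt A (F i) (a i) (l i) n).card).descFactorial (r i) := by
  set P : Fin s → Finset ℕ := fun i => Pt A (F i) (a i) (l i) n with hP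
  have hcard : Fintype.card (∀ i, Fin (r i) ↪ {m // m ∈ P i}) = ∏ i, ((P i).card).descFactorial (r i) := by
    rw [Fintype.card_pi]
    refine prod_congr rfl fun i _ => ?_
    rw [Fintype.card_embedding_eq, Fintype.card_fin, Fintype.card_coe]
  rw [← hcard, ← card_univ]
  unfold Tn
  set φ : (∀ i, Fin (r i) ↪ {m // m ∈ P i}) → ((Σ i, Fin (r i)) → ℕ) := fun e ι => (e ι.1 ι.2).1 with hφ
  have hφi : Function.Injective φ := by
    intro e e' h
    funext i
    ext x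
    exact congrFun h ⟨i, x⟩
  rw [← card_image_of_injective univ hφi]
  congr 1
  ext h
  rw [mem_filter, mem_image]
  constructor
  · rintro ⟨h1, h2⟩
    unfold HS at h1
    rw [mem_filter, Fintype.mem_piFinset] at h1
    have hmem : ∀ ι : (Σ i, Fin (r i)), h ι ∈ P ι.1 := fun ι => mem_filter.2 ⟨h1.1 ι, h2 ι⟩
    refine ⟨fun i => ⟨fun x => ⟨h ⟨i, x⟩, hmem ⟨i, x⟩⟩, ?_⟩, mem_univ _, ?_⟩
    · intro x y hxy
      by_contra hne
      have h3 : h ⟨i, x⟩ = h ⟨i, y⟩ := congrArg Subtype.val hxy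
      have h4 := h1.2 ⟨i, x⟩ ⟨i, y⟩ (by
        intro h5
        have h6 := (Sigma.mk.inj_iff.1 h5).2
        exact hne (eq_of_heq h6))
      rw [h3, sub_self, abs_zero] at h4
      omega
    · funext ι
      rfl
  · rintro ⟨e, _, rfl⟩
    have hmem : ∀ ι : (Σ i, Fin (r i)), φ e ι ∈ P ι.1 := fun ι => (e ι.1 ι.2).2
    have hmem2 : ∀ ι : (Σ i, Fin (r i)), φ e ι ∈ Ioc (a ι.1) (a ι.1 + l ι.1) ∧ n + φ e ι ∈ Pts A (F ι.1) := fun ι =>
      mem_filter.1 (hmem ι)
    refine ⟨?_, fun ι => (hmem2 ι).2⟩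
    unfold HS
    rw [mem_filter, Fintype.mem_piFinset]
    refine ⟨fun ι => (hmem2 ι).1, fun ι ι' hne => ?_⟩
    refine hNC ι.1 ι'.1 _ (hmem ι) _ (hmem ι') ?_
    by_cases h1 : ι.1 = ι'.1
    · right
      intro h2
      apply hne
      rcases ι with ⟨i, x⟩
      rcases ι' with ⟨i', x'⟩
      simp only at h1
      subst h1
      have h3 : e i x = e i x' := Subtype.ext h2
      rw [(e i).injective h3]
    · exact Or.inl h1

variable {κ : Type} [Fintype κ] [DecidableEq κ] (lab : κ → Fin s)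

/-- the number of all the places -/
noncomputable def Nt (A : Set ℕ) (a l : Fin s → ℕ) (n : ℕ) : ℕ := ∑ i, (Pt A (F i) (a i) (l i) n).card

theorem Tn_le (A : Set ℕ) (d0 : ℕ) (a l : Fin s → ℕ) (n : ℕ) :
    Tn F lab A d0 (fun ι => a (lab ι)) (fun ι => l (lab ι)) n ≤ Nt F A a l n ^ Fintype.card κ := by
  classical
  unfold Tn
  have h1 : (HS d0 (fun ι => a (lab ι)) (fun ι => l (lab ι))).filter (fun h => ∀ ι, n + h ι ∈ Pts A (F (lab ι))) ⊆
      Fintype.piFinset (fun ι => Pt A (F (lab ι)) (a (lab ι)) (l (lab ι)) n) := by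
    intro h hh
    rw [mem_filter] at hh
    unfold HS at hh
    rw [mem_filter, Fintype.mem_piFinset] at hh
    rw [Fintype.mem_piFinset]
    exact fun ι => mem_filter.2 ⟨hh.1.1 ι, hh.2 ι⟩
  refine (card_le_card h1).trans ?_
  rw [Fintype.card_piFinset]
  calc ∏ ι, (Pt A (F (lab ι)) (a (lab ι)) (l (lab ι)) n).card ≤ ∏ _ι : κ, Nt F A a l n := by
        refine prod_le_prod' fun ι _ => ?_
        exact single_le_sum (f := fun i => (Pt A (F i) (a i) (l i) n).card) (fun _ _ => Nat.zero_le _) (mem_univ (lab ι))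
    _ = _ := by rw [prod_const, card_univ]

open Classical in
/-- the places of one residue class -/
noncomputable def Pq (A : Set ℕ) (a l : Fin s → ℕ) (n q : ℕ) (i : Fin s) (ρ : ℕ) : Finset ℕ :=
  (Pt A (F i) (a i) (l i) n).filter (fun h => h % q = ρ)

open Classical in
/-- the separated tuples of places -/
noncomputable def TS (A : Set ℕ) (d0 : ℕ) (lo l : κ → ℕ) (n : ℕ) : Finset (κ → ℕ) :=
  (HS d0 lo l).filter (fun h => ∀ ι, n + h ι ∈ Pts A (F (lab ι)))

theorem Tn_TS (A : Set ℕ) (d0 : ℕ) (lo l : κ → ℕ) (n : ℕ) : Tn F lab A d0 lo l n = (TS F lab A d0 lo l n).card := rfl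

theorem mem_TS (A : Set ℕ) (d0 : ℕ) (lo l : κ → ℕ) (n : ℕ) (h : κ → ℕ) :
    h ∈ TS F lab A d0 lo l n ↔ (∀ ι, h ι ∈ Ioc (lo ι) (lo ι + l ι)) ∧ Sep d0 h ∧ ∀ ι, n + h ι ∈ Pts A (F (lab ι)) := by
  classical
  unfold TS HS
  rw [mem_filter, mem_filter, Fintype.mem_piFinset]
  exact and_assoc

theorem desc_le_Tn (A : Set ℕ) (d0 : ℕ) (a l : Fin s → ℕ) (n M : ℕ) (i : Fin s) (ρ : ℕ) :
    ((Pq F A a l n (d0 + 1) i ρ).card).descFactorial M ≤
      Tn F (κ := Fin M) (fun _ => i) A d0 (fun _ => a i) (fun _ => l i) n := by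
  classical
  set P : Finset ℕ := Pq F A a l n (d0 + 1) i ρ with hP
  have hcard : Fintype.card (Fin M ↪ {m // m ∈ P}) = (P.card).descFactorial M := by
    rw [Fintype.card_embedding_eq, Fintype.card_fin, Fintype.card_coe]
  rw [← hcard, ← card_univ, Tn_TS]
  refine card_le_card_of_injOn (fun e ι => (e ι).1) ?_ ?_
  · intro e _
    have hmem : ∀ ι : Fin M, (e ι).1 ∈ P := fun ι => (e ι).2
    have hmem1 : ∀ ι : Fin M, (e ι).1 ∈ Pt A (F i) (a i) (l i) n ∧ (e ι).1 % (d0 + 1) = ρ := fun ι => mem_filter.1 (hmem ι)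
    have hmem2 : ∀ ι : Fin M, (e ι).1 ∈ Ioc (a i) (a i + l i) ∧ n + (e ι).1 ∈ Pts A (F i) := fun ι =>
      mem_filter.1 (hmem1 ι).1
    refine mem_coe.2 ((mem_TS F _ A d0 _ _ n _).2 ⟨fun ι => (hmem2 ι).1, fun ι ι' hne => ?_, fun ι => (hmem2 ι).2⟩)
    have h1 : (e ι).1 ≠ (e ι').1 := by
      intro h
      exact hne (e.injective (Subtype.ext h))
    have h2 : (e ι).1 % (d0 + 1) = (e ι').1 % (d0 + 1) := by rw [(hmem1 ι).2, (hmem1 ι').2]
    have h3 : (((d0 + 1 : ℕ) : ℤ)) ∣ (((e ι').1 : ℕ) : ℤ) - (((e ι).1 : ℕ) : ℤ) := (Nat.modEq_iff_dvd).1 h2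
    have h4 : (((e ι').1 : ℕ) : ℤ) - (((e ι).1 : ℕ) : ℤ) ≠ 0 := by
      intro h5
      apply h1
      omega
    have h5 := Int.le_of_dvd (abs_pos.2 h4) ((dvd_abs _ _).2 h3)
    push_cast at h5
    show (d0 : ℤ) < |(((e ι').1 : ℕ) : ℤ) - (((e ι).1 : ℕ) : ℤ)|
    omega
  · intro e _ e' _ h
    ext x
    exact congrFun h x

theorem pow_le_desc (m M : ℕ) : m ^ M ≤ (2 * M) ^ M + 2 ^ M * m.descFactorial M := by
  rcases lt_or_ge m (2 * M) with h | h
  · exact (Nat.pow_le_pow_left h.le M).trans (Nat.le_add_right _ _)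
  · have h1 := Nat.pow_sub_le_descFactorial m M
    have h2 : m ≤ 2 * (m + 1 - M) := by omega
    calc m ^ M ≤ (2 * (m + 1 - M)) ^ M := Nat.pow_le_pow_left h2 M
      _ = 2 ^ M * (m + 1 - M) ^ M := by rw [mul_pow]
      _ ≤ 2 ^ M * m.descFactorial M := Nat.mul_le_mul_left _ h1
      _ ≤ _ := Nat.le_add_left _ _

/-- **The powers of the number of the places.** -/
theorem Nt_pow (A : Set ℕ) (d0 : ℕ) (a l : Fin s → ℕ) (n M : ℕ) (hM : 1 ≤ M) :
    Nt F A a l n ^ M ≤ (s * (d0 + 1)) ^ M * ((2 * M) ^ M + 2 ^ M *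
      ∑ i, Tn F (κ := Fin M) (fun _ => i) A d0 (fun _ => a i) (fun _ => l i) n) := by
  classical
  have h1 : ∀ i, (Pt A (F i) (a i) (l i) n).card = ∑ ρ ∈ range (d0 + 1), (Pq F A a l n (d0 + 1) i ρ).card := by
    intro i
    unfold Pq
    exact card_eq_sum_card_fiberwise fun h _ => mem_coe.2 (mem_range.2 (Nat.mod_lt _ (by omega)))
  rcases Nat.eq_zero_or_pos s with hs | hs
  · subst hs
    have : Nt F A a l n = 0 := by
      unfold Nt
      simp
    rw [this, zero_pow (by omega)]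
    exact Nat.zero_le _
  · have hne : ((univ : Finset (Fin s)) ×ˢ range (d0 + 1)).Nonempty := by
      refine ⟨(⟨0, hs⟩, 0), mem_product.2 ⟨mem_univ _, mem_range.2 (by omega)⟩⟩
    obtain ⟨⟨i0, ρ0⟩, _, hmax⟩ := exists_max_image ((univ : Finset (Fin s)) ×ˢ range (d0 + 1))
      (fun q => (Pq F A a l n (d0 + 1) q.1 q.2).card) hne
    have h2 : Nt F A a l n ≤ s * (d0 + 1) * (Pq F A a l n (d0 + 1) i0 ρ0).card := by
      unfold Nt
      calc ∑ i, (Pt A (F i) (a i) (l i) n).card = ∑ i, ∑ ρ ∈ range (d0 + 1), (Pq F A a l n (d0 + 1) i ρ).card :=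
            sum_congr rfl fun i _ => h1 i
        _ ≤ ∑ _i : Fin s, ∑ _ρ ∈ range (d0 + 1), (Pq F A a l n (d0 + 1) i0 ρ0).card := by
            refine sum_le_sum fun i _ => sum_le_sum fun ρ hρ => ?_
            exact hmax (i, ρ) (mem_product.2 ⟨mem_univ _, hρ⟩)
        _ = _ := by
            rw [sum_const, sum_const, card_univ, Fintype.card_fin, card_range, smul_eq_mul, smul_eq_mul, mul_assoc]
    calc Nt F A a l n ^ M ≤ (s * (d0 + 1) * (Pq F A a l n (d0 + 1) i0 ρ0).card) ^ M := Nat.pow_le_pow_left h2 M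
      _ = (s * (d0 + 1)) ^ M * (Pq F A a l n (d0 + 1) i0 ρ0).card ^ M := by rw [mul_pow]
      _ ≤ _ := by
          refine Nat.mul_le_mul_left _ ?_
          refine (pow_le_desc _ M).trans ?_
          refine Nat.add_le_add_left (Nat.mul_le_mul_left _ ?_) _
          refine (desc_le_Tn F A d0 a l n M i0 ρ0).trans ?_
          exact single_le_sum (f := fun i => Tn F (κ := Fin M) (fun _ => i) A d0 (fun _ => a i) (fun _ => l i) n)
            (fun _ _ => Nat.zero_le _) (mem_univ i0)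

end Pool.Agent.H559.PV
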