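import Pool.Agent.H559.PV.Fac
import Pool.Graph.R_pool_sql_team_seeded_1acbe0a2.Y406.JL.Law

set_option autoImplicit false

/-! # The Poisson law -/

open Finset Filter Topology Polynomial
open Pool.Agent.T2H32.BF (V V_pos V_anti V_ratio recip_le mertens)
open Pool.Agent.H559.BS (Limit TT TT_le TT_ge TT_top log_TT V_TT log_pow_le log_top g g_pos)
open Pool.Agent.H559.HY (RS CF WW)

namespace Pool.Agent.H559.PV

theorem OK_of (z W b : ℕ → ℕ) (h : OK z W b) : Pool.Agent.H559.HY.OK z W b := by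
  intro k D A P0 B n hA
  filter_upwards [h k D A P0 B n hA] with x hx C hC hgood
  refine hx C hC (fun p hp hP => (hgood p hp hP).1) ?_
  intro i i' hi heq
  obtain ⟨p, hp1, hp2⟩ := Nat.exists_infinite_primes (P0 + 1)
  obtain ⟨j, hj⟩ := (hgood p hp2 hp1).2 i i' hi
  apply hj
  rw [heq, sub_self]
  exact dvd_zero _

variable {s : ℕ} (F : Fin s → Finset ℤ[X]) (D : ℕ)
variable (hD : ∀ i, ∀ f ∈ F i, f.natDegree ≤ D) (hG : ∀ i, ∀ f ∈ F i, GP f)

/-- the data of the windows -/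
structure Win (S : Fin s → ℝ) (a l : Fin s → ℕ → ℕ) (lam : Fin s → ℝ) (E1 : ℕ) : Prop where
  pos : ∀ i, 0 < lam i
  lim : ∀ i, Tendsto (fun x : ℕ => (l i x : ℝ) / Real.log x ^ (F i).card) atTop
    (𝓝 (lam i * (∏ f ∈ F i, (f.natDegree : ℝ)) / S i))
  bd : ∀ i, ∀ᶠ x : ℕ in atTop, ((a i x + l i x : ℕ) : ℝ) ≤ Real.log x ^ E1
  sep : ∀ i j, i ≠ j → (F i = F j ∧ ∀ᶠ x : ℕ in atTop, (a i x + l i x ≤ a j x ∨ a j x + l j x ≤ a i x)) ∨
    ∀ t : ℤ, F i ≠ (F j).image (fun f => f.comp (X + C t))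

open Classical in
/-- the `n` with close places -/
noncomputable def Cs (A : Set ℕ) (d0 : ℕ) (a l : Fin s → ℕ → ℕ) (J x : ℕ) : Finset ℕ :=
  (Ioc (x / J) x).filter (fun n => ¬ NC F A d0 (fun i => a i x) (fun i => l i x) n)

include hG in
theorem Cs_rare (z : ℕ → ℕ) (hz : Limit z) (c : ℝ) (hc : 1 < c) (b : ℕ → ℕ) (hOK : OK z (WW c) b)
    (S : Fin s → ℝ) (a l : Fin s → ℕ → ℕ) (lam : Fin s → ℝ) (E1 : ℕ) (hW : Win F S a l lam E1) (hne : ∀ i, (F i).Nonempty)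
    (d0 J : ℕ) : Tendsto (fun x : ℕ => ((Cs F (RS z (WW c) b) d0 a l J x).card : ℝ) / x) atTop (𝓝 0) := by
  classical
  set A := RS z (WW c) b with hA
  set I : Finset (Fin s × Fin s × ℤ) := ((univ : Finset (Fin s)) ×ˢ (univ : Finset (Fin s)) ×ˢ Icc (-(d0 : ℤ)) d0).filter
    (fun q => F q.1 ≠ (F q.2.1).image (fun f => f.comp (X + C q.2.2))) with hI
  have hbdx : ∀ i, ∀ᶠ x : ℕ in atTop, a i x + l i x ≤ x := by
    intro i
    filter_upwards [hW.bd i, log_pow_le E1 1 1 one_pos] with x h1 h2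
    rw [Real.rpow_one, one_mul] at h2
    exact_mod_cast h1.trans h2
  have h1 : Tendsto (fun x : ℕ => ∑ q ∈ I, ((Bt A (F q.1) (F q.2.1) q.2.2 (a q.1 x) (l q.1 x) (a q.2.1 x) (l q.2.1 x) x).card : ℝ) / x)
      atTop (𝓝 (∑ _q ∈ I, 0)) := by
    refine tendsto_finsetSum _ fun q hq => ?_
    rw [hI, mem_filter] at hq
    exact Bt_rare z hz c hc b (OK_of z (WW c) b hOK) (F q.1) (F q.2.1) (hG _) (hG _) q.2.2 hq.2 (a q.1) (l q.1) (a q.2.1)
      (l q.2.1) _ _ (hW.lim q.1) (hW.lim q.2.1) (hbdx _)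
  rw [sum_const_zero] at h1
  have hsep : ∀ᶠ x : ℕ in atTop, ∀ q : Fin s × Fin s, q.1 ≠ q.2 → F q.1 = F q.2 → (∃ t : ℤ, F q.1 = (F q.2).image (fun f => f.comp (X + C t))) →
      (a q.1 x + l q.1 x ≤ a q.2 x ∨ a q.2 x + l q.2 x ≤ a q.1 x) := by
    refine eventually_all.2 fun q => ?_
    by_cases hq : q.1 = q.2
    · exact Eventually.of_forall fun x h => absurd hq h
    · rcases hW.sep q.1 q.2 hq with ⟨_, h3⟩ | h3
      · filter_upwards [h3] with x hx _ _ _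
        exact hx
      · refine Eventually.of_forall fun x _ _ h4 => ?_
        obtain ⟨t, ht⟩ := h4
        exact absurd ht (h3 t)
  refine tendsto_of_tendsto_of_tendsto_of_le_of_le' tendsto_const_nhds h1 (Eventually.of_forall fun x => by positivity) ?_
  filter_upwards [hsep] with x hx
  rw [← sum_div]
  refine div_le_div_of_nonneg_right ?_ (Nat.cast_nonneg _)
  have hsub : Cs F A d0 a l J x ⊆ I.biUnion (fun q => Bt A (F q.1) (F q.2.1) q.2.2 (a q.1 x) (l q.1 x) (a q.2.1 x) (l q.2.1 x) x) := by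
    intro n hn
    unfold Cs at hn
    rw [mem_filter] at hn
    obtain ⟨hn1, hn2⟩ := hn
    unfold NC at hn2
    push Not at hn2
    obtain ⟨i, j, h, hh, h', hh', hor, hle⟩ := hn2
    have hh1 := mem_filter.1 hh
    have hh1' := mem_filter.1 hh'
    rw [mem_biUnion]
    refine ⟨(i, j, (h' : ℤ) - h), ?_, ?_⟩
    · rw [hI, mem_filter]
      refine ⟨mem_product.2 ⟨mem_univ _, mem_product.2 ⟨mem_univ _, ?_⟩⟩, ?_⟩
      · rw [mem_Icc]
        exact abs_le.1 hle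
      · intro hcon
        simp only at hcon
        by_cases hij : i = j
        · subst hij
          have h2 := not_shift (F i) (hG i) (hne i) _ hcon
          rcases hor with h3 | h3
          · exact h3 rfl
          · apply h3
            omega
        · have hFF : F i = F j := by
            rcases hW.sep i j hij with ⟨h3, _⟩ | h3
            · exact h3
            · exact absurd hcon (h3 _)
          have h2 := not_shift (F i) (hG i) (hne i) ((h' : ℤ) - h) (by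
            conv_rhs => rw [hFF]
            exact hcon)
          have h4 := hx (i, j) hij hFF ⟨_, hcon⟩
          have h5 := mem_Ioc.1 hh1.1
          have h6 := mem_Ioc.1 hh1'.1
          simp only at h4
          omega
    · unfold Bt
      rw [mem_filter]
      refine ⟨?_, h, hh1.1, h', hh1'.1, (by ring : (h' : ℤ) = h + ((h' : ℤ) - h)), hh1.2, hh1'.2⟩
      rw [mem_Ioc] at hn1
      exact mem_Ioc.2 ⟨lt_of_le_of_lt (Nat.zero_le _) hn1.1, hn1.2⟩
  have h2 := (card_le_card hsub).trans card_biUnion_le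
  exact_mod_cast h2

include hD hG in
/-- the powers of the number of the places have bounded averages -/
theorem Nt_avg (z : ℕ → ℕ) (hz : Limit z) (c : ℝ) (hc : 1 < c) (b : ℕ → ℕ) (hOK : OK z (WW c) b)
    (S : Fin s → ℝ) (hS : ∀ i, Tendsto (CF (F i)) atTop (𝓝 (S i))) (hS0 : ∀ i, 0 < S i)
    (a l : Fin s → ℕ → ℕ) (lam : Fin s → ℝ) (E1 : ℕ) (hW : Win F S a l lam E1) (hne : ∀ i, (F i).Nonempty)
    (d0 K0 E0 : ℕ) (hPD : ∀ i j, ∀ f ∈ F i, ∀ g ∈ F j, PD f g d0 K0 E0) (J : ℕ) (hJ : 1 ≤ J) (M : ℕ) (hM : 1 ≤ M) :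
    ∃ K : ℝ, 0 < K ∧ ∀ᶠ x : ℕ in atTop,
      ∑ n ∈ Ioc (x / J) x, (Nt F (RS z (WW c) b) (fun i => a i x) (fun i => l i x) n : ℝ) ^ M ≤ K * x := by
  classical
  set A := RS z (WW c) b with hA
  have h1 : ∀ i, Tendsto (fun x : ℕ => (∑ n ∈ Ioc (x / J) x, (Tn F (κ := Fin M) (fun _ => i) A d0 (fun _ => a i x)
      (fun _ => l i x) n : ℝ)) / x) atTop (𝓝 ((1 - 1 / (J : ℝ)) * ∏ _ι : Fin M, lam i)) := by
    intro i
    exact moment F (κ := Fin M) (fun _ => i) D hD hG z hz c hc b hOK S hS hS0 hne d0 K0 E0 hPD (fun _ => a i)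
      (fun _ => l i) (fun _ => lam i) (fun _ => hW.pos i) (fun _ => hW.lim i) E1 (fun _ => hW.bd i) J hJ
  have h2 := tendsto_finsetSum (univ : Finset (Fin s)) fun i _ => h1 i
  set Q : ℝ := ∑ i : Fin s, (1 - 1 / (J : ℝ)) * ∏ _ι : Fin M, lam i with hQ
  refine ⟨(s * (d0 + 1)) ^ M * ((2 * M) ^ M + 2 ^ M * (|Q| + 1)) + 1, by positivity, ?_⟩
  filter_upwards [h2.eventually_lt_const (show Q < |Q| + 1 by linarith [le_abs_self Q]), eventually_ge_atTop 1] with x h3 h4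
  have hx0 : (0 : ℝ) < x := by exact_mod_cast h4
  rw [← sum_div, div_lt_iff₀ hx0] at h3
  have h5 : ∀ n, (Nt F A (fun i => a i x) (fun i => l i x) n : ℝ) ^ M ≤ (s * (d0 + 1)) ^ M * ((2 * M) ^ M + 2 ^ M *
      ∑ i, (Tn F (κ := Fin M) (fun _ => i) A d0 (fun _ => a i x) (fun _ => l i x) n : ℝ)) := by
    intro n
    have := Nt_pow F A d0 (fun i => a i x) (fun i => l i x) n M hM
    exact_mod_cast this
  have hcard : ((Ioc (x / J) x).card : ℝ) ≤ x := by
    rw [Nat.card_Ioc]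
    exact_mod_cast Nat.sub_le _ _
  calc ∑ n ∈ Ioc (x / J) x, (Nt F A (fun i => a i x) (fun i => l i x) n : ℝ) ^ M ≤
        ∑ n ∈ Ioc (x / J) x, ((s * (d0 + 1)) ^ M * ((2 * M) ^ M + 2 ^ M *
      ∑ i, (Tn F (κ := Fin M) (fun _ => i) A d0 (fun _ => a i x) (fun _ => l i x) n : ℝ)) : ℝ) := sum_le_sum fun n _ => h5 n
    _ = (s * (d0 + 1)) ^ M * (((Ioc (x / J) x).card : ℝ) * (2 * M) ^ M + 2 ^ M *
      ∑ i, ∑ n ∈ Ioc (x / J) x, (Tn F (κ := Fin M) (fun _ => i) A d0 (fun _ => a i x) (fun _ => l i x) n : ℝ)) := by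
        rw [← mul_sum, sum_add_distrib, sum_const, nsmul_eq_mul, ← mul_sum, sum_comm]
    _ ≤ (s * (d0 + 1)) ^ M * (x * (2 * M) ^ M + 2 ^ M * ((|Q| + 1) * x)) := by gcongr
    _ ≤ ((s * (d0 + 1)) ^ M * ((2 * M) ^ M + 2 ^ M * (|Q| + 1)) + 1) * x := by
        have e : (s * (d0 + 1) : ℝ) ^ M * (x * (2 * M) ^ M + 2 ^ M * ((|Q| + 1) * x)) =
          ((s * (d0 + 1)) ^ M * ((2 * M) ^ M + 2 ^ M * (|Q| + 1))) * x := by ring
        rw [e]
        linarith

end Pool.Agent.H559.PV
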