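import Pool.Agent.H559.PV.Law

set_option autoImplicit false

/-! # The Poisson law -/

open Finset Filter Topology Polynomial
open Pool.Agent.H559.BS (Limit TT TT_le TT_ge TT_top log_TT V_TT log_pow_le log_top g g_pos)
open Pool.Agent.H559.HY (RS CF WW)

namespace Pool.Agent.H559.PV

variable {s : ℕ} (F : Fin s → Finset ℤ[X]) (D : ℕ)
variable (hD : ∀ i, ∀ f ∈ F i, f.natDegree ≤ D) (hG : ∀ i, ∀ f ∈ F i, GP f)

open Classical in
/-- the `n` without close places -/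
noncomputable def Os (A : Set ℕ) (d0 : ℕ) (a l : Fin s → ℕ → ℕ) (J x : ℕ) : Finset ℕ :=
  (Ioc (x / J) x).filter (fun n => NC F A d0 (fun i => a i x) (fun i => l i x) n)

theorem Os_add (A : Set ℕ) (d0 : ℕ) (a l : Fin s → ℕ → ℕ) (J x : ℕ) :
    ((Os F A d0 a l J x).card : ℝ) = ((x - x / J : ℕ) : ℝ) - (Cs F A d0 a l J x).card := by
  classical
  have h1 := card_filter_add_card_filter_not (s := Ioc (x / J) x) (fun n => NC F A d0 (fun i => a i x) (fun i => l i x) n)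
  rw [Nat.card_Ioc] at h1
  unfold Os Cs
  rw [← h1]
  push_cast
  ring

theorem Os_sum (A : Set ℕ) (d0 : ℕ) (a l : Fin s → ℕ → ℕ) (J x : ℕ) (φ : ℕ → ℝ) :
    ∑ n ∈ Os F A d0 a l J x, φ n = ∑ n ∈ Ioc (x / J) x, φ n - ∑ n ∈ Cs F A d0 a l J x, φ n := by
  classical
  have h1 := sum_filter_add_sum_filter_not (Ioc (x / J) x) (fun n => NC F A d0 (fun i => a i x) (fun i => l i x) n) φ
  unfold Os Cs
  rw [← h1]
  ring

include hD hG in
/-- the factorial moments -/
theorem fac_moment (z : ℕ → ℕ) (hz : Limit z) (c : ℝ) (hc : 1 < c) (b : ℕ → ℕ) (hOK : OK z (WW c) b)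
    (S : Fin s → ℝ) (hS : ∀ i, Tendsto (CF (F i)) atTop (𝓝 (S i))) (hS0 : ∀ i, 0 < S i)
    (a l : Fin s → ℕ → ℕ) (lam : Fin s → ℝ) (E1 : ℕ) (hW : Win F S a l lam E1) (hne : ∀ i, (F i).Nonempty)
    (d0 K0 E0 : ℕ) (hPD : ∀ i j, ∀ f ∈ F i, ∀ g ∈ F j, PD f g d0 K0 E0) (J : ℕ) (hJ : 1 ≤ J) (r : Fin s → ℕ) :
    Tendsto (fun x : ℕ => (∑ n ∈ Os F (RS z (WW c) b) d0 a l J x,
      ∏ i, (((Pt (RS z (WW c) b) (F i) (a i x) (l i x) n).card).choose (r i) : ℝ)) / x) atTop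
      (𝓝 ((1 - 1 / (J : ℝ)) * ∏ i, (lam i ^ r i / (r i).factorial))) := by
  classical
  set A := RS z (WW c) b with hA
  set T : ℕ → ℕ → ℝ := fun x n => (Tn F (κ := Σ i, Fin (r i)) Sigma.fst A d0 (fun ι => a ι.1 x) (fun ι => l ι.1 x) n : ℝ) with hT
  set rr : ℕ := Fintype.card (Σ i, Fin (r i)) with hrr
  have h1 : Tendsto (fun x : ℕ => (∑ n ∈ Ioc (x / J) x, T x n) / x) atTop
      (𝓝 ((1 - 1 / (J : ℝ)) * ∏ ι : (Σ i, Fin (r i)), lam ι.1)) :=
    moment F (κ := Σ i, Fin (r i)) Sigma.fst D hD hG z hz c hc b hOK S hS hS0 hne d0 K0 E0 hPD (fun ι => a ι.1)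
      (fun ι => l ι.1) (fun ι => lam ι.1) (fun ι => hW.pos ι.1) (fun ι => hW.lim ι.1) E1 (fun ι => hW.bd ι.1) J hJ
  have e1 : ∏ ι : (Σ i, Fin (r i)), lam ι.1 = ∏ i, lam i ^ r i := by
    rw [Fintype.prod_sigma]
    refine prod_congr rfl fun i _ => ?_
    show ∏ _y : Fin (r i), lam i = _
    rw [prod_const, card_univ, Fintype.card_fin]
  rw [e1] at h1
  -- the close places
  obtain ⟨K, hK, hK2⟩ := Nt_avg F D hD hG z hz c hc b hOK S hS hS0 a l lam E1 hW hne d0 K0 E0 hPD J hJ (2 * rr + 2) (by omega)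
  have h2 := Cs_rare F hG z hz c hc b hOK S a l lam E1 hW hne d0 J
  have h3 : Tendsto (fun x : ℕ => √((((Cs F A d0 a l J x).card : ℝ) / x) * (1 + K))) atTop (𝓝 0) := by
    have h4 := ((h2.mul_const (1 + K)).sqrt)
    rw [zero_mul, Real.sqrt_zero] at h4
    exact h4
  have h4 : Tendsto (fun x : ℕ => (∑ n ∈ Cs F A d0 a l J x, T x n) / x) atTop (𝓝 0) := by
    refine tendsto_of_tendsto_of_tendsto_of_le_of_le' tendsto_const_nhds h3 ?_ ?_
    · exact Eventually.of_forall fun x => div_nonneg (sum_nonneg fun n _ => Nat.cast_nonneg _) (Nat.cast_nonneg _)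
    · filter_upwards [hK2, eventually_ge_atTop 1] with x h5 h6
      have hx0 : (0 : ℝ) < x := by exact_mod_cast h6
      refine Real.le_sqrt_of_sq_le ?_
      have h7 : (∑ n ∈ Cs F A d0 a l J x, T x n) ^ 2 ≤ (Cs F A d0 a l J x).card * ∑ n ∈ Cs F A d0 a l J x, T x n ^ 2 :=
        sq_sum_le_card_mul_sum_sq
      have h8 : ∑ n ∈ Cs F A d0 a l J x, T x n ^ 2 ≤ (1 + K) * x := by
        have h9 : ∀ n, T x n ^ 2 ≤ 1 + (Nt F A (fun i => a i x) (fun i => l i x) n : ℝ) ^ (2 * rr + 2) := by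
          intro n
          have h10 := Tn_le F (κ := Σ i, Fin (r i)) Sigma.fst A d0 (fun i => a i x) (fun i => l i x) n
          have h11 : T x n ≤ (Nt F A (fun i => a i x) (fun i => l i x) n : ℝ) ^ rr := by
            rw [hT, hrr]
            show (Tn F (κ := Σ i, Fin (r i)) Sigma.fst A d0 (fun ι => a ι.1 x) (fun ι => l ι.1 x) n : ℝ) ≤ _
            exact_mod_cast h10
          have h12 : T x n ^ 2 ≤ ((Nt F A (fun i => a i x) (fun i => l i x) n : ℝ) ^ rr) ^ 2 :=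
            pow_le_pow_left₀ (Nat.cast_nonneg _) h11 2
          rw [← pow_mul] at h12
          refine h12.trans ?_
          rcases Nat.eq_zero_or_pos (Nt F A (fun i => a i x) (fun i => l i x) n) with h13 | h13
          · rw [h13, Nat.cast_zero, zero_pow (by omega : 2 * rr + 2 ≠ 0), add_zero]
            rcases Nat.eq_zero_or_pos rr with h14 | h14
            · rw [h14]
              simp
            · rw [zero_pow (by omega)]
              exact zero_le_one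
          · have h14 : (1 : ℝ) ≤ (Nt F A (fun i => a i x) (fun i => l i x) n : ℝ) := by exact_mod_cast h13
            have h15 := pow_le_pow_right₀ h14 (by omega : rr * 2 ≤ 2 * rr + 2)
            linarith
        calc ∑ n ∈ Cs F A d0 a l J x, T x n ^ 2 ≤ ∑ n ∈ Ioc (x / J) x, T x n ^ 2 := by
              refine sum_le_sum_of_subset_of_nonneg (filter_subset _ _) fun n _ _ => sq_nonneg _
          _ ≤ ∑ n ∈ Ioc (x / J) x, (1 + (Nt F A (fun i => a i x) (fun i => l i x) n : ℝ) ^ (2 * rr + 2)) :=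
              sum_le_sum fun n _ => h9 n
          _ = ((x - x / J : ℕ) : ℝ) + ∑ n ∈ Ioc (x / J) x, (Nt F A (fun i => a i x) (fun i => l i x) n : ℝ) ^ (2 * rr + 2) := by
              rw [sum_add_distrib, sum_const, nsmul_eq_mul, mul_one, Nat.card_Ioc]
          _ ≤ x + K * x := by
              have : ((x - x / J : ℕ) : ℝ) ≤ x := by exact_mod_cast Nat.sub_le _ _
              exact add_le_add this h5
          _ = (1 + K) * x := by ring
      rw [div_pow, div_le_iff₀ (by positivity)]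
      calc (∑ n ∈ Cs F A d0 a l J x, T x n) ^ 2 ≤ (Cs F A d0 a l J x).card * ((1 + K) * x) :=
            h7.trans (mul_le_mul_of_nonneg_left h8 (Nat.cast_nonneg _))
        _ = ((Cs F A d0 a l J x).card : ℝ) / x * (1 + K) * x ^ 2 := by field_simp
  have h5 := h1.sub h4
  rw [sub_zero] at h5
  have h6 := h5.div_const (∏ i, ((r i).factorial : ℝ))
  have e2 : (1 - 1 / (J : ℝ)) * ∏ i, (lam i ^ r i / (r i).factorial) =
      (1 - 1 / (J : ℝ)) * (∏ i, lam i ^ r i) / ∏ i, ((r i).factorial : ℝ) := by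
    rw [prod_div_distrib, mul_div_assoc]
  rw [e2]
  refine h6.congr fun x => ?_
  rw [← sub_div, ← Os_sum, div_right_comm, sum_div]
  congr 1
  refine sum_congr rfl fun n hn => ?_
  unfold Os at hn
  have hNC := (mem_filter.1 hn).2
  have h7 := Tn_eq F A d0 (fun i => a i x) (fun i => l i x) n hNC r
  show (Tn F (κ := Σ i, Fin (r i)) Sigma.fst A d0 (fun ι => a ι.1 x) (fun ι => l ι.1 x) n : ℝ) / ∏ i, ((r i).factorial : ℝ) = _
  rw [h7]
  push_cast
  rw [← prod_div_distrib]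
  refine prod_congr rfl fun i _ => ?_
  rw [Nat.descFactorial_eq_factorial_mul_choose]
  push_cast
  field_simp

include hD hG in
/-- **The Poisson law.** -/
theorem law (z : ℕ → ℕ) (hz : Limit z) (c : ℝ) (hc : 1 < c) (b : ℕ → ℕ) (hOK : OK z (WW c) b)
    (S : Fin s → ℝ) (hS : ∀ i, Tendsto (CF (F i)) atTop (𝓝 (S i))) (hS0 : ∀ i, 0 < S i)
    (a l : Fin s → ℕ → ℕ) (lam : Fin s → ℝ) (E1 : ℕ) (hW : Win F S a l lam E1) (hne : ∀ i, (F i).Nonempty)
    (d0 K0 E0 : ℕ) (hPD : ∀ i j, ∀ f ∈ F i, ∀ g ∈ F j, PD f g d0 K0 E0) (r : Fin s → ℕ) (Q : ℕ → Finset ℕ)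
    (hQ : ∀ x n, n ∈ Q x ↔ (0 < n ∧ n ≤ x) ∧ ∀ i, (Pt (RS z (WW c) b) (F i) (a i x) (l i x) n).card = r i) :
    Tendsto (fun x : ℕ => ((Q x).card : ℝ) / x) atTop
      (𝓝 (∏ i, (Real.exp (-lam i) * lam i ^ r i / (r i).factorial))) := by
  classical
  set A := RS z (WW c) b with hA
  set Pr : ℝ := ∏ i, (Real.exp (-lam i) * lam i ^ r i / (r i).factorial) with hPr
  rw [Metric.tendsto_atTop]
  suffices h : ∀ ε : ℝ, 0 < ε → ∀ᶠ x : ℕ in atTop, |((Q x).card : ℝ) / x - Pr| < ε by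
    intro ε hε
    obtain ⟨N, hN⟩ := eventually_atTop.1 (h ε hε)
    exact ⟨N, fun x hx => by rw [Real.dist_eq]; exact hN x hx⟩
  intro ε hε
  have hlam0 : ∀ i, 0 ≤ lam i := fun i => (hW.pos i).le
  have hlamx : ∀ i, lam i ≤ ∑ j, lam j := fun i => single_le_sum (f := lam) (fun j _ => hlam0 j) (mem_univ i)
  obtain ⟨R, η, hη, hJL⟩ := Pool.Agent.Y406.JL.t_JLAW s (∑ j, lam j) (ε / 8) (sum_nonneg fun j _ => hlam0 j) (by positivity)
  -- the cut
  obtain ⟨J0, hJ0⟩ := exists_nat_gt (8 / ε)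
  obtain ⟨J, hJdef⟩ : ∃ J, J = J0 + 2 := ⟨_, rfl⟩
  have hJ1 : 1 ≤ J := by omega
  have hJr : (0 : ℝ) < J := by exact_mod_cast hJ1
  have hJ2 : 1 / (J : ℝ) < ε / 8 := by
    rw [div_lt_div_iff₀ hJr (by norm_num)]
    have h1 : 8 / ε < J := lt_trans hJ0 (by exact_mod_cast (by omega : J0 < J))
    rw [div_lt_iff₀ hε] at h1
    linarith
  have hJ3 : 1 / (J : ℝ) ≤ 1 / 2 := by
    have : (2 : ℝ) ≤ J := by exact_mod_cast (by omega : 2 ≤ J)
    exact one_div_le_one_div_of_le (by norm_num) this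
  have hCs := Cs_rare F hG z hz c hc b hOK S a l lam E1 hW hne d0 J
  have hOm : Tendsto (fun x : ℕ => ((Os F A d0 a l J x).card : ℝ) / x) atTop (𝓝 (1 - 1 / (J : ℝ))) := by
    have h1 := (y_lim J hJ1).sub hCs
    rw [sub_zero] at h1
    refine h1.congr fun x => ?_
    rw [Os_add, sub_div]
  -- the moments
  have hmom : ∀ᶠ x : ℕ in atTop, ∀ r' ∈ Fintype.piFinset (fun _ : Fin s => range R),
      |∑ n ∈ Os F A d0 a l J x, ∏ i, (((Pt A (F i) (a i x) (l i x) n).card).choose (r' i) : ℝ) -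
        (Os F A d0 a l J x).card * ∏ i, (lam i ^ r' i / (r' i).factorial)| ≤ η * (Os F A d0 a l J x).card := by
    rw [Filter.eventually_all_finset]
    intro r' _
    have h1 := fac_moment F D hD hG z hz c hc b hOK S hS hS0 a l lam E1 hW hne d0 K0 E0 hPD J hJ1 r'
    have h2 := h1.sub (hOm.mul_const (∏ i, (lam i ^ r' i / (r' i).factorial)))
    rw [sub_self] at h2
    have h3 := h2.abs
    rw [abs_zero] at h3
    filter_upwards [h3.eventually_lt_const (show (0 : ℝ) < η * (1 / 4) by positivity),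
      hOm.eventually_const_lt (show (1 / 4 : ℝ) < 1 - 1 / (J : ℝ) by linarith), eventually_ge_atTop 1] with x h4 h5 h6
    have hx0 : (0 : ℝ) < x := by exact_mod_cast h6
    rw [div_mul_eq_mul_div, ← sub_div, abs_div, abs_of_pos hx0, div_lt_iff₀ hx0] at h4
    rw [lt_div_iff₀ hx0] at h5
    refine h4.le.trans ?_
    rw [mul_assoc]
    exact mul_le_mul_of_nonneg_left h5.le hη.le
  filter_upwards [hmom, hCs.eventually_lt_const (show (0 : ℝ) < ε / 8 by positivity), eventually_ge_atTop 1] with x h1 h2 h3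
  have hx0 : (0 : ℝ) < x := by exact_mod_cast h3
  have h4 := hJL (Os F A d0 a l J x) (fun i n => (Pt A (F i) (a i x) (l i x) n).card) lam (fun i => ⟨hlam0 i, hlamx i⟩)
    (fun r' hr' => h1 r' (Fintype.mem_piFinset.2 fun i => mem_range.2 (hr' i))) {r}
  rw [sum_singleton] at h4
  set Q1 : Finset ℕ := (Os F A d0 a l J x).filter (fun n => (fun i => (Pt A (F i) (a i x) (l i x) n).card) ∈
    ({r} : Finset (Fin s → ℕ))) with hQ1
  have hsub1 : Q1 ⊆ Q x := by
    intro n hn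
    rw [hQ1, mem_filter, mem_singleton] at hn
    unfold Os at hn
    have h5 := mem_Ioc.1 (mem_filter.1 hn.1).1
    rw [hQ]
    exact ⟨⟨lt_of_le_of_lt (Nat.zero_le _) h5.1, h5.2⟩, fun i => congrFun hn.2 i⟩
  have hsub2 : Q x ⊆ (Q1 ∪ Ioc 0 (x / J)) ∪ Cs F A d0 a l J x := by
    intro n hn
    rw [hQ] at hn
    obtain ⟨⟨h5, h6⟩, h7⟩ := hn
    rw [mem_union, mem_union]
    by_cases h8 : n ≤ x / J
    · exact Or.inl (Or.inr (mem_Ioc.2 ⟨h5, h8⟩))
    · have h9 : n ∈ Ioc (x / J) x := mem_Ioc.2 ⟨not_le.1 h8, h6⟩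
      by_cases h10 : NC F A d0 (fun i => a i x) (fun i => l i x) n
      · left
        left
        rw [hQ1, mem_filter, mem_singleton]
        exact ⟨mem_filter.2 ⟨h9, h10⟩, funext h7⟩
      · exact Or.inr (mem_filter.2 ⟨h9, h10⟩)
  have h5 : (Q1.card : ℝ) ≤ (Q x).card := by exact_mod_cast card_le_card hsub1
  have h6 : ((Q x).card : ℝ) ≤ Q1.card + ((x / J : ℕ) : ℝ) + (Cs F A d0 a l J x).card := by
    have h7 := (card_le_card hsub2).trans ((card_union_le _ _).trans (Nat.add_le_add_right (card_union_le _ _) _))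
    rw [Nat.card_Ioc, Nat.sub_zero] at h7
    exact_mod_cast h7
  have h7 : ((x / J : ℕ) : ℝ) ≤ ε / 8 * x := by
    calc ((x / J : ℕ) : ℝ) ≤ (x : ℝ) / J := Nat.cast_div_le
      _ = 1 / (J : ℝ) * x := by ring
      _ ≤ _ := mul_le_mul_of_nonneg_right hJ2.le hx0.le
  have h8 : ((Cs F A d0 a l J x).card : ℝ) ≤ ε / 8 * x := by
    rw [div_lt_iff₀ hx0] at h2
    exact h2.le
  have h9 := Os_add F A d0 a l J x
  rw [Nat.cast_sub (Nat.div_le_self x J)] at h9
  have hPr0 : 0 ≤ Pr := prod_nonneg fun i _ => by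
    have := hlam0 i
    positivity
  have hPr1 : Pr ≤ 1 := by
    refine prod_le_one (fun i _ => by have := hlam0 i; positivity) fun i _ => ?_
    rw [Real.exp_neg, mul_div_assoc, inv_mul_le_iff₀ (Real.exp_pos _), mul_one]
    exact Real.pow_div_factorial_le_exp (lam i) (hlam0 i) (r i)
  have hOx : ((Os F A d0 a l J x).card : ℝ) ≤ x := by
    have : (0 : ℝ) ≤ ((x / J : ℕ) : ℝ) := Nat.cast_nonneg _
    have : (0 : ℝ) ≤ ((Cs F A d0 a l J x).card : ℝ) := Nat.cast_nonneg _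
    linarith
  rw [abs_le] at h4
  obtain ⟨h10, h11⟩ := h4
  have h12 : ε / 8 * ((Os F A d0 a l J x).card : ℝ) ≤ ε / 8 * x := mul_le_mul_of_nonneg_left hOx (by positivity)
  have h13 : ((Os F A d0 a l J x).card : ℝ) * Pr ≤ x * Pr := mul_le_mul_of_nonneg_right hOx hPr0
  have h14 : x * Pr ≤ ((Os F A d0 a l J x).card : ℝ) * Pr + (ε / 8 * x + ε / 8 * x) := by
    have h15 : (x : ℝ) ≤ ((Os F A d0 a l J x).card : ℝ) + (ε / 8 * x + ε / 8 * x) := by linarith
    have h16 : (ε / 8 * x + ε / 8 * x) * Pr ≤ ε / 8 * x + ε / 8 * x := mul_le_of_le_one_right (by positivity) hPr1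
    nlinarith
  have h17 : 0 < ε * x := by positivity
  rw [abs_lt, lt_sub_iff_add_lt, sub_lt_iff_lt_add, div_lt_iff₀ hx0, lt_div_iff₀ hx0]
  constructor
  · nlinarith
  · nlinarith

end Pool.Agent.H559.PV
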