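import Pool.Agent.H559.PV.Poly

set_option autoImplicit false

/-! # The random part of the sieve -/

open Finset MeasureTheory ProbabilityTheory
open Pool.Agent.T2H32.BF (Model prob cond)
open Pool.Agent.H559.HY (Arr kl wt wt_le kl_card kl_sub surv surv_congr conc)

namespace Pool.Agent.H559.PV

variable {Ω : Type*} [MeasurableSpace Ω] {P : Measure Ω} {a : ℕ → Ω → ℕ} {k D : ℕ}

open Classical in
/-- the sum over the bad primes -/
noncomputable def bs (C : Arr k D) (u v : ℕ) : ℝ := ∑ p ∈ (Ioc u v).filter Nat.Prime, (if Bad C p then (1 : ℝ) / p else 0)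

theorem bs_nonneg (C : Arr k D) (u v : ℕ) : 0 ≤ bs C u v := by
  classical
  unfold bs
  refine sum_nonneg fun p _ => ?_
  split_ifs
  · positivity
  · exact le_rfl

/-- **The random part of the sieve.** -/
theorem block (h : Model P a) (C : Arr k D) (Z : Fin k → ℕ) (T M k0 y : ℕ) (hT : 0 < T) (hkT : k ≤ T)
    (hC : ∀ p, p.Prime → T < p → Gd C p)
    (A : (ℕ → ℕ) → Finset ℕ) (hAs : ∀ b, A b ⊆ Ioc k0 (k0 + y))
    (hAd : ∀ b b' : ℕ → ℕ, (∀ p ≤ T, p.Prime → b p = b' p) → A b = A b') (θ lam : ℝ) (hθ : 0 ≤ θ)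
    (hθc : θ * (k * D * (y / T + 1)) ≤ 1) :
    P.real {ω | lam ≤ |((surv (kl C Z) (fun i => a i ω) ((Ioc T M).filter Nat.Prime) (A (fun i => a i ω))).card : ℝ) -
      (A (fun i => a i ω)).card * ∏ p ∈ (Ioc T M).filter Nat.Prime, (1 - (wt Z p : ℝ) / (p : ℝ))|} ≤
      2 * Real.exp (-(θ * lam) + θ * ((∑ p ∈ (Ioc T M).filter Nat.Prime, (k ^ 2 * D * (y / T + 1)) / (p : ℝ)) +
        k * y * bs C T M) +
        θ ^ 2 * (y * ∑ p ∈ (Ioc T M).filter Nat.Prime, k * (k * D * (y / T + 1)) / (p : ℝ))) := by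
  classical
  have := prob h
  set L := (Ioc T M).filter Nat.Prime with hL
  set W := ∏ p ∈ L, (1 - (wt Z p : ℝ) / (p : ℝ)) with hW
  have hTr : (0 : ℝ) < T := by exact_mod_cast hT
  refine cond h ((range (T + 1)).filter Nat.Prime) L ?_
    (fun b => lam ≤ |((surv (kl C Z) b L (A b)).card : ℝ) - (A b).card * W|) ?_ _ (by positivity) ?_
  · rw [disjoint_left]
    intro p hp hp'
    rw [mem_filter, mem_range] at hp
    rw [hL, mem_filter, mem_Ioc] at hp'
    omega
  · intro b b' hbb
    have e1 : A b = A b' := hAd b b' fun p hp hpp => hbb p (by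
      rw [mem_union, mem_filter, mem_range]
      exact Or.inl ⟨by omega, hpp⟩)
    have e2 : surv (kl C Z) b L (A b) = surv (kl C Z) b' L (A b') := by
      rw [e1]
      exact surv_congr _ _ _ _ _ fun p hp => hbb p (mem_union_right _ hp)
    rw [e2, e1]
  · intro α
    have e1 : ∀ ω, A (fun i => if i ∈ (range (T + 1)).filter Nat.Prime then α i else a i ω) = A α := by
      intro ω
      refine hAd _ _ fun p hp hpp => ?_
      have h9 : p ∈ (range (T + 1)).filter Nat.Prime := mem_filter.2 ⟨mem_range.2 (by omega), hpp⟩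
      simp only [h9, if_true]
    have e2 : ∀ ω, surv (kl C Z) (fun i => if i ∈ (range (T + 1)).filter Nat.Prime then α i else a i ω) L (A α) =
        surv (kl C Z) (fun i => a i ω) L (A α) := by
      intro ω
      refine surv_congr _ _ _ _ _ fun p hp => ?_
      rw [hL, mem_filter, mem_Ioc] at hp
      have h9 : p ∉ (range (T + 1)).filter Nat.Prime := by
        rw [mem_filter, mem_range]
        omega
      simp only [h9, if_false]
    have hpp : ∀ p ∈ L, p.Prime ∧ T < p := fun p hp => by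
      rw [hL, mem_filter, mem_Ioc] at hp
      exact ⟨hp.2, hp.1.1⟩
    have hyp : ∀ p ∈ L, (y : ℝ) / p ≤ y / T := by
      intro p hp
      have h3 : (T : ℝ) ≤ p := by exact_mod_cast (hpp p hp).2.le
      gcongr
    have hmain := conc h (kl C Z) L (A α) (fun p hp => (hpp p hp).1) (fun p => (wt Z p : ℝ))
      (fun p => k ^ 2 * D * (y / T + 1) + if Bad C p then (k : ℝ) * y else 0) (k * D * (y / T + 1)) k
      (fun p hp u => kl_sub C Z p u (hpp p hp).1.pos)
      (fun p _ => Nat.cast_nonneg _) (fun p hp => by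
        have h1 := wt_le Z p
        have h2 := (hpp p hp).2
        exact_mod_cast (show wt Z p ≤ p by omega)) (fun p _ u => by
        exact_mod_cast (kl_card C Z p u).trans (wt_le Z p)) θ hθ (fun p hp r => by
        refine (kill_le C Z p (hpp p hp).1 (hC p (hpp p hp).1 (hpp p hp).2) k0 y r (A α) (hAs α)).trans ?_
        have := hyp p hp
        gcongr) (fun p hp => by
        refine (dev_leB C Z p (hpp p hp).1 (hC p (hpp p hp).1 (hpp p hp).2) k0 y (A α) (hAs α)).trans ?_
        have := hyp p hp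
        gcongr) hθc lam
    have e5 : {ω | lam ≤ |((surv (kl C Z) (fun i => if i ∈ (range (T + 1)).filter Nat.Prime then α i else a i ω) L
        (A (fun i => if i ∈ (range (T + 1)).filter Nat.Prime then α i else a i ω))).card : ℝ) -
        (A (fun i => if i ∈ (range (T + 1)).filter Nat.Prime then α i else a i ω)).card * W|} =
        {ω | lam ≤ |((surv (kl C Z) (fun i => a i ω) L (A α)).card : ℝ) - (A α).card * W|} := by
      ext ω
      simp only [Set.mem_ofPred_eq]
      rw [e1, e2]
    rw [e5]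
    refine hmain.trans ?_
    have hAy : ((A α).card : ℝ) ≤ y := by
      have := card_le_card (hAs α)
      rw [Nat.card_Ioc] at this
      exact_mod_cast (show (A α).card ≤ y by omega)
    have h6 : 0 ≤ ∑ p ∈ L, k * (k * D * (y / T + 1)) / (p : ℝ) := sum_nonneg fun p _ => by positivity
    have h7 : θ ^ 2 * ((A α).card * ∑ p ∈ L, k * (k * D * (y / T + 1)) / (p : ℝ)) ≤
        θ ^ 2 * (y * ∑ p ∈ L, k * (k * D * (y / T + 1)) / (p : ℝ)) :=
      mul_le_mul_of_nonneg_left (mul_le_mul_of_nonneg_right hAy h6) (sq_nonneg θ)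
    have e9 : ∑ p ∈ L, (k ^ 2 * D * (y / T + 1) + if Bad C p then (k : ℝ) * y else 0) / (p : ℝ) =
        (∑ p ∈ L, (k ^ 2 * D * (y / T + 1)) / (p : ℝ)) + k * y * bs C T M := by
      unfold bs
      rw [mul_sum, ← sum_add_distrib]
      refine sum_congr rfl fun p _ => ?_
      split_ifs
      · ring
      · ring
    rw [e9]
    have h8 := Real.exp_le_exp.2 (add_le_add_right h7 (-(θ * lam) + θ * ((∑ p ∈ L, (k ^ 2 * D * (y / T + 1)) / (p : ℝ)) +
      k * y * bs C T M)))
    linarith

end Pool.Agent.H559.PV
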