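import Pool.Agent.H559.PV.SgL

set_option autoImplicit false

/-! # The moments -/

open Finset Filter Topology Polynomial
open Pool.Agent.T2H32.BF (V V_pos V_anti V_ratio recip_le mertens)
open Pool.Agent.H559.BS (Limit TT TT_le TT_ge TT_top log_TT V_TT log_pow_le log_top g g_pos)
open Pool.Agent.H559.HY (Arr evl cnt cnt_le RS box mem_box Sg Sg_nonneg CF WW WW_top WW_mono growth log_lin div_lim mul_lim
  log_TT_lim)
open Pool.Agent.W149.CS (comp_irred comp_natDegree comp_lc)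

namespace Pool.Agent.H559.PV

/-- the places at which all the values are in `A` -/
def Pts (A : Set ℕ) (G : Finset ℤ[X]) : Set ℕ := {m | ∀ f ∈ G, (f.eval (m : ℤ)).natAbs ∈ A}

variable {s : ℕ} (F : Fin s → Finset ℤ[X]) {κ : Type} [Fintype κ] [DecidableEq κ] (lab : κ → Fin s) (D : ℕ)

open Classical in
/-- the number of the separated tuples of places -/
noncomputable def Tn (A : Set ℕ) (d0 : ℕ) (lo l : κ → ℕ) (n : ℕ) : ℕ :=
  ((HS d0 lo l).filter (fun h => ∀ ι, n + h ι ∈ Pts A (F (lab ι)))).card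

variable (hD : ∀ i, ∀ f ∈ F i, f.natDegree ≤ D) (hG : ∀ i, ∀ f ∈ F i, GP f)

include hG in
/-- the growth of the polynomials of the systems -/
theorem grow_all : ∃ m0 H : ℕ, 1 ≤ H ∧ ∀ i, ∀ f ∈ F i, ∀ m : ℕ, m0 ≤ m →
    ((m : ℝ) / 2) ^ f.natDegree ≤ ((f.eval (m : ℤ) : ℤ) : ℝ) ∧ ((f.eval (m : ℤ) : ℤ) : ℝ) ≤ ((H : ℝ) * m) ^ f.natDegree := by
  classical
  have h0 : ∀ f : ℤ[X], ∃ m0 H : ℕ, (∃ i, f ∈ F i) → ∀ m : ℕ, m0 ≤ m →
      ((m : ℝ) / 2) ^ f.natDegree ≤ ((f.eval (m : ℤ) : ℤ) : ℝ) ∧ ((f.eval (m : ℤ) : ℤ) : ℝ) ≤ ((H : ℝ) * m) ^ f.natDegree := by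
    intro f
    by_cases h : ∃ i, f ∈ F i
    · obtain ⟨i, hi⟩ := h
      have hgp := hG i f hi
      obtain ⟨m0, hm0⟩ := eventually_atTop.1 (growth f hgp.deg hgp.lead)
      refine ⟨m0, 2 * f.leadingCoeff.natAbs + 1, fun _ m hm => ?_⟩
      obtain ⟨h1, h2⟩ := hm0 m hm
      have hmn : (0 : ℝ) ≤ m := Nat.cast_nonneg _
      constructor
      · refine le_trans ?_ h1
        rw [div_pow]
        have h3 : (2 : ℝ) ≤ 2 ^ f.natDegree := by
          calc (2 : ℝ) = 2 ^ 1 := by norm_num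
            _ ≤ 2 ^ f.natDegree := pow_le_pow_right₀ (by norm_num) hgp.deg
        gcongr
      · refine h2.trans ?_
        rw [mul_pow]
        have h3 : ((f.leadingCoeff : ℤ) : ℝ) = (f.leadingCoeff.natAbs : ℝ) := by
          rw [Nat.cast_natAbs, abs_of_pos hgp.lead]
        have h4 : (1 : ℝ) ≤ ((2 * f.leadingCoeff.natAbs + 1 : ℕ) : ℝ) := by
          push_cast
          have : (0 : ℝ) ≤ (f.leadingCoeff.natAbs : ℝ) := Nat.cast_nonneg _
          linarith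
        have h5 := le_self_pow₀ h4 (by have := hgp.deg; omega : f.natDegree ≠ 0)
        refine mul_le_mul_of_nonneg_right ?_ (by positivity)
        refine le_trans ?_ h5
        rw [h3]
        push_cast
        linarith
    · exact ⟨0, 0, fun h' => absurd h' h⟩
  choose M0 HH h1 using h0
  refine ⟨∑ i, ∑ f ∈ F i, M0 f, ∑ i, ∑ f ∈ F i, HH f + 1, by omega, fun i f hf m hm => ?_⟩
  have h2 : M0 f ≤ ∑ i, ∑ f ∈ F i, M0 f :=
    (single_le_sum (f := M0) (fun _ _ => Nat.zero_le _) hf).trans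
      (single_le_sum (f := fun i => ∑ f ∈ F i, M0 f) (fun _ _ => Nat.zero_le _) (mem_univ i))
  have h3 : HH f ≤ ∑ i, ∑ f ∈ F i, HH f :=
    (single_le_sum (f := HH) (fun _ _ => Nat.zero_le _) hf).trans
      (single_le_sum (f := fun i => ∑ f ∈ F i, HH f) (fun _ _ => Nat.zero_le _) (mem_univ i))
  obtain ⟨h4, h5⟩ := h1 f ⟨i, hf⟩ m (by omega)
  refine ⟨h4, h5.trans ?_⟩
  have h6 : (HH f : ℝ) ≤ ((∑ i, ∑ f ∈ F i, HH f + 1 : ℕ) : ℝ) := by exact_mod_cast (by omega)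
  gcongr

include hD in
/-- the coefficients of the translates -/
theorem box_ar : ∃ A0 : ℕ, ∀ A ≥ A0, ∀ᶠ x : ℕ in atTop, ∀ h : κ → ℕ, (∀ ι, h ι ≤ x) → ar F lab D h ∈ box (KK F lab) D (x ^ A) := by
  classical
  choose K E hKE using coeff_bound
  set K1 : ℕ := ∑ j, ∑ i : Fin (D + 1), K (ix F lab j).2.1 i with hK1
  set E1 : ℕ := ∑ j, ∑ i : Fin (D + 1), E (ix F lab j).2.1 i with hE1
  refine ⟨1 + 2 * E1, fun A hA => ?_⟩
  filter_upwards [eventually_ge_atTop (max K1 2)] with x hx h hh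
  have hx1 : K1 ≤ x := (le_max_left _ _).trans hx
  have hx2 : 2 ≤ x := (le_max_right _ _).trans hx
  have hx2R : (2 : ℝ) ≤ x := by exact_mod_cast hx2
  rw [mem_box]
  intro j i
  have h1 := hKE (ix F lab j).2.1 i (h (ix F lab j).1)
  have h2 : K (ix F lab j).2.1 i ≤ K1 :=
    (single_le_sum (f := fun i : Fin (D + 1) => K (ix F lab j).2.1 i) (fun _ _ => Nat.zero_le _) (mem_univ i)).trans
      (single_le_sum (f := fun j => ∑ i : Fin (D + 1), K (ix F lab j).2.1 i) (fun _ _ => Nat.zero_le _) (mem_univ j))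
  have h3 : E (ix F lab j).2.1 i ≤ E1 :=
    (single_le_sum (f := fun i : Fin (D + 1) => E (ix F lab j).2.1 i) (fun _ _ => Nat.zero_le _) (mem_univ i)).trans
      (single_le_sum (f := fun j => ∑ i : Fin (D + 1), E (ix F lab j).2.1 i) (fun _ _ => Nat.zero_le _) (mem_univ j))
  have h4 : ((h (ix F lab j).1 : ℕ) : ℝ) ≤ x := by exact_mod_cast hh _
  have h5 : (K (ix F lab j).2.1 i : ℝ) ≤ x := by exact_mod_cast h2.trans hx1
  have h6 : (1 : ℝ) ≤ 1 + (x : ℝ) := by linarith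
  have h7 : (K (ix F lab j).2.1 i : ℝ) * (1 + ((h (ix F lab j).1 : ℕ) : ℝ)) ^ E (ix F lab j).2.1 i ≤ (x : ℝ) ^ A := by
    calc (K (ix F lab j).2.1 i : ℝ) * (1 + ((h (ix F lab j).1 : ℕ) : ℝ)) ^ E (ix F lab j).2.1 i ≤
          x * (1 + (x : ℝ)) ^ E (ix F lab j).2.1 i := by gcongr
      _ ≤ x * (1 + (x : ℝ)) ^ E1 := by
          have := pow_le_pow_right₀ h6 h3
          gcongr
      _ ≤ x * ((x : ℝ) ^ 2) ^ E1 := by
          gcongr
          nlinarith
      _ = (x : ℝ) ^ (1 + 2 * E1) := by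
          rw [← pow_mul]
          ring
      _ ≤ (x : ℝ) ^ A := pow_le_pow_right₀ (by linarith) hA
  have h8 := h1.trans h7
  have h9 : |(((qq F lab h j).coeff i : ℤ) : ℝ)| ≤ ((x ^ A : ℕ) : ℝ) := by
    push_cast
    exact h8
  have h10 : ((|(qq F lab h j).coeff i| : ℤ) : ℝ) ≤ (((x ^ A : ℕ) : ℤ) : ℝ) := by
    push_cast at h9 ⊢
    exact h9
  exact Int.cast_le.1 h10

include hD hG in
/-- the polynomials of a separated tuple are different -/
theorem Row_ar (d0 K E : ℕ) (hPD : ∀ i j, ∀ f ∈ F i, ∀ g ∈ F j, PD f g d0 K E) (h : κ → ℕ) (hs : Sep d0 h) :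
    Row (ar F lab D h) := by
  intro j j' hne hcon
  have hpoly : qq F lab h j = qq F lab h j' := by
    ext n
    by_cases hn : n ≤ D
    · exact congrFun hcon ⟨n, Nat.lt_succ_of_le hn⟩
    · rw [coeff_eq_zero_of_natDegree_lt, coeff_eq_zero_of_natDegree_lt]
      · rw [qq_deg]
        exact lt_of_le_of_lt (hD _ _ (ix F lab j').2.2) (by omega)
      · rw [qq_deg]
        exact lt_of_le_of_lt (hD _ _ (ix F lab j).2.2) (by omega)
  by_cases hι : (ix F lab j).1 = (ix F lab j').1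
  · apply hne
    apply ix_inj F lab
    rcases hj : ix F lab j with ⟨ι, f, hf⟩
    rcases hj' : ix F lab j' with ⟨ι', f', hf'⟩
    unfold qq at hpoly
    rw [hj, hj'] at hpoly hι
    simp only at hpoly hι
    subst hι
    have := comp_inj _ _ _ hpoly
    subst this
    rfl
  · obtain ⟨h1, -⟩ := hPD _ _ _ (ix F lab j).2.2 _ (ix F lab j').2.2 ((h (ix F lab j').1 : ℤ) - h (ix F lab j).1) (hs _ _ hι)
    apply h1
    unfold qq at hpoly
    have h2 := congrArg (fun q : ℤ[X] => q.comp (X + C (-(h (ix F lab j).1 : ℤ)))) hpoly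
    simp only [comp_comp', add_neg_cancel, comp_zero'] at h2
    rw [h2]
    congr 3

theorem HS_le (d0 : ℕ) (lo l : κ → ℕ) (M : ℕ) (hM : ∀ ι, lo ι + l ι ≤ M) (h : κ → ℕ) (hh : h ∈ HS d0 lo l) (ι : κ) : h ι ≤ M := by
  classical
  unfold HS at hh
  rw [mem_filter, Fintype.mem_piFinset] at hh
  exact (mem_Ioc.1 (hh.1 ι)).2.trans (hM ι)

theorem HS_card (d0 : ℕ) (lo l : κ → ℕ) : (HS d0 lo l).card ≤ ∏ ι, l ι := by
  classical
  unfold HS
  refine (card_filter_le _ _).trans ?_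
  rw [Fintype.card_piFinset]
  refine prod_le_prod' fun ι _ => ?_
  rw [Nat.card_Ioc]
  omega

include hD in
/-- double counting -/
theorem sum_Tn (z W b : ℕ → ℕ) (d0 : ℕ) (lo l : κ → ℕ) (k0 y m0 : ℕ) (hm0 : m0 ≤ k0)
    (hpos : ∀ i, ∀ f ∈ F i, ∀ m : ℕ, m0 ≤ m → 0 ≤ f.eval (m : ℤ)) :
    ∑ n ∈ Ioc k0 (k0 + y), (Tn F lab (RS z W b) d0 lo l n : ℝ) =
      ∑ h ∈ HS d0 lo l, (cnt (ar F lab D h) (RS z W b) k0 y : ℝ) := by
  classical
  have e1 : ∀ n, (Tn F lab (RS z W b) d0 lo l n : ℝ) = ∑ h ∈ HS d0 lo l,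
      (if (∀ ι, n + h ι ∈ Pts (RS z W b) (F (lab ι))) then (1 : ℝ) else 0) := by
    intro n
    unfold Tn
    rw [card_filter]
    push_cast
    rfl
  simp only [e1]
  rw [sum_comm]
  refine sum_congr rfl fun h _ => ?_
  unfold cnt
  rw [card_filter]
  push_cast
  refine sum_congr rfl fun n hn => ?_
  rw [mem_Ioc] at hn
  have hiff : (∀ ι, n + h ι ∈ Pts (RS z W b) (F (lab ι))) ↔ ∀ j, (evl (ar F lab D h j) n).toNat ∈ RS z W b := by
    have hev : ∀ j, (evl (ar F lab D h j) n).toNat = ((ix F lab j).2.1.eval ((n + h (ix F lab j).1 : ℕ) : ℤ)).natAbs := by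
      intro j
      rw [evl_ar F lab D hD]
      have h1 := hpos _ _ (ix F lab j).2.2 (n + h (ix F lab j).1) (by omega)
      push_cast at h1 ⊢
      omega
    constructor
    · intro h1 j
      rw [hev]
      exact h1 (ix F lab j).1 _ (ix F lab j).2.2
    · intro h1 ι f hf
      obtain ⟨j, hj⟩ := ix_surj F lab ⟨ι, ⟨f, hf⟩⟩
      have h2 := h1 j
      rw [hev, hj] at h2
      exact h2
  by_cases h1 : ∀ ι, n + h ι ∈ Pts (RS z W b) (F (lab ι))
  · rw [if_pos h1, if_pos (hiff.1 h1)]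
  · rw [if_neg h1, if_neg (fun h2 => h1 (hiff.2 h2))]

end Pool.Agent.H559.PV
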