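import Pool.Agent.H559.PV.Mom

set_option autoImplicit false

/-! # The limits of the moments -/

open Finset Filter Topology Polynomial
open Pool.Agent.T2H32.BF (V V_pos V_anti V_ratio recip_le mertens)
open Pool.Agent.H559.BS (Limit TT TT_le TT_ge TT_top log_TT V_TT log_pow_le log_top g g_pos)
open Pool.Agent.H559.HY (Arr evl cnt cnt_le RS box mem_box Sg Sg_nonneg CF WW WW_top WW_mono growth log_lin div_lim mul_lim
  log_TT_lim)

namespace Pool.Agent.H559.PV

variable {s : ℕ} (F : Fin s → Finset ℤ[X]) {κ : Type} [Fintype κ] [DecidableEq κ] (lab : κ → Fin s) (D : ℕ)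
variable (hD : ∀ i, ∀ f ∈ F i, f.natDegree ≤ D) (hG : ∀ i, ∀ f ∈ F i, GP f)

theorem TT_small : ∀ J : ℕ, 1 ≤ J → ∀ᶠ x : ℕ in atTop, TT (1 / 4) x ≤ x / (2 * J) := by
  intro J hJ
  have h1 : Tendsto (fun n : ℕ => (n : ℝ) ^ (1 / 4 : ℝ)) atTop atTop :=
    (tendsto_rpow_atTop (by norm_num)).comp tendsto_natCast_atTop_atTop
  filter_upwards [h1.eventually_ge_atTop 1, eventually_ge_atTop ((2 * J) ^ 2), eventually_ge_atTop 4] with x h0 h2 h3
  have hx0 : (0 : ℝ) < x := by exact_mod_cast (show 0 < x by omega)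
  rw [Nat.le_div_iff_mul_le (by omega)]
  have h4 : ((2 * J : ℕ) : ℝ) ≤ √x := by
    rw [Real.le_sqrt (Nat.cast_nonneg _) (Nat.cast_nonneg _)]
    exact_mod_cast h2
  have h6 : (TT (1 / 4) x : ℝ) ≤ √x := by
    refine (TT_le _ _).trans ?_
    have h2 : √(x : ℝ) = (x : ℝ) ^ (1 / 4 : ℝ) * (x : ℝ) ^ (1 / 4 : ℝ) := by
      rw [← Real.rpow_add hx0, Real.sqrt_eq_rpow]
      norm_num
    rw [h2]
    nlinarith
  have h5 : (TT (1 / 4) x : ℝ) * ((2 * J : ℕ) : ℝ) ≤ x := by
    calc (TT (1 / 4) x : ℝ) * ((2 * J : ℕ) : ℝ) ≤ √x * √x := by gcongr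
      _ = x := Real.mul_self_sqrt (Nat.cast_nonneg _)
  exact_mod_cast h5

/-- the cut is larger than the small powers of the logarithm -/
theorem cut_ge (c : ℝ) (hc : 1 < c) (c' : ℝ) (_hc' : 0 < c') (hc2 : c' ≤ 1 / 2) :
    ∀ᶠ x : ℕ in atTop, WW c' x ≤ WW c (TT (1 / 4) x) := by
  have h1 := log_TT_lim (1 / 4) (by norm_num)
  filter_upwards [h1.eventually_const_lt (show (1 / 8 : ℝ) < 1 / 4 by norm_num), log_top.eventually_ge_atTop 64] with x h2 h3
  unfold WW
  refine Nat.floor_le_floor ?_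
  rw [lt_div_iff₀ (by linarith)] at h2
  set L := Real.log x with hL
  have h4 : (8 : ℝ) ≤ √L := by
    rw [Real.le_sqrt (by norm_num) (by linarith)]
    linarith
  have h5 : √L * √L = L := Real.mul_self_sqrt (by linarith)
  calc L ^ c' ≤ L ^ (1 / 2 : ℝ) := Real.rpow_le_rpow_of_exponent_le (by linarith) hc2
    _ = √L := by rw [Real.sqrt_eq_rpow]
    _ ≤ Real.log (TT (1 / 4) x) := by nlinarith
    _ = Real.log (TT (1 / 4) x) ^ (1 : ℝ) := by rw [Real.rpow_one]
    _ ≤ Real.log (TT (1 / 4) x) ^ c := Real.rpow_le_rpow_of_exponent_le (by nlinarith) hc.le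

theorem y_lim (J : ℕ) (hJ : 1 ≤ J) : Tendsto (fun x : ℕ => ((x - x / J : ℕ) : ℝ) / x) atTop (𝓝 (1 - 1 / (J : ℝ))) := by
  have hJ0 : (0 : ℝ) < J := by exact_mod_cast hJ
  have h1 : Tendsto (fun x : ℕ => 1 - 1 / (J : ℝ)) atTop (𝓝 (1 - 1 / (J : ℝ))) := tendsto_const_nhds
  have h2 : Tendsto (fun x : ℕ => 1 - 1 / (J : ℝ) + 1 / (x : ℝ)) atTop (𝓝 (1 - 1 / (J : ℝ) + 0)) :=
    tendsto_const_nhds.add (tendsto_const_nhds.div_atTop tendsto_natCast_atTop_atTop)
  rw [add_zero] at h2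
  refine tendsto_of_tendsto_of_tendsto_of_le_of_le' h1 h2 ?_ ?_
  · filter_upwards [eventually_ge_atTop 1] with x hx
    have hx0 : (0 : ℝ) < x := by exact_mod_cast hx
    rw [Nat.cast_sub (Nat.div_le_self x J), le_div_iff₀ hx0]
    have : ((x / J : ℕ) : ℝ) ≤ (x : ℝ) / J := Nat.cast_div_le
    have h6 : (x : ℝ) / J = 1 / (J : ℝ) * x := by ring
    linarith
  · filter_upwards [eventually_ge_atTop 1] with x hx
    have hx0 : (0 : ℝ) < x := by exact_mod_cast hx
    rw [Nat.cast_sub (Nat.div_le_self x J), div_le_iff₀ hx0]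
    have h5 : (x : ℝ) ≤ J * ((x / J : ℕ) : ℝ) + J := by
      have h7 := Nat.div_add_mod x J
      have h8 := Nat.mod_lt x (show 0 < J by omega)
      have h9 : x ≤ J * (x / J) + J := by omega
      exact_mod_cast h9
    have h6 : (x : ℝ) / J ≤ ((x / J : ℕ) : ℝ) + 1 := by
      rw [div_le_iff₀ hJ0]
      linarith
    have h7 : (1 - 1 / (J : ℝ) + 1 / (x : ℝ)) * x = x - x / J + 1 := by
      field_simp
    rw [h7]
    linarith

include hD hG in
/-- **The moments.** -/
theorem moment (z : ℕ → ℕ) (hz : Limit z) (c : ℝ) (hc : 1 < c) (b : ℕ → ℕ) (hOK : OK z (WW c) b)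
    (C : Fin s → ℝ) (hC : ∀ i, Tendsto (CF (F i)) atTop (𝓝 (C i))) (hC0 : ∀ i, 0 < C i) (hne : ∀ i, (F i).Nonempty)
    (d0 K0 E0 : ℕ) (hPD : ∀ i j, ∀ f ∈ F i, ∀ g ∈ F j, PD f g d0 K0 E0) (lo l : κ → ℕ → ℕ) (lam : κ → ℝ)
    (hlam : ∀ ι, 0 < lam ι)
    (hl : ∀ ι, Tendsto (fun x : ℕ => (l ι x : ℝ) / Real.log x ^ (F (lab ι)).card) atTop
      (𝓝 (lam ι * (∏ f ∈ F (lab ι), (f.natDegree : ℝ)) / C (lab ι)))) (E1 : ℕ)
    (hl2 : ∀ ι, ∀ᶠ x : ℕ in atTop, ((lo ι x + l ι x : ℕ) : ℝ) ≤ Real.log x ^ E1) (J : ℕ) (hJ : 1 ≤ J) :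
    Tendsto (fun x : ℕ => (∑ n ∈ Ioc (x / J) x, (Tn F lab (RS z (WW c) b) d0 (fun ι => lo ι x) (fun ι => l ι x) n : ℝ)) / x)
      atTop (𝓝 ((1 - 1 / (J : ℝ)) * ∏ ι, lam ι)) := by
  classical
  have hJ0 : (0 : ℝ) < J := by exact_mod_cast hJ
  set n0 := Fintype.card κ with hn0
  set K := KK F lab with hK
  have hdeg0 : ∀ i, ∀ f ∈ F i, (0 : ℝ) < f.natDegree := fun i f hf => by exact_mod_cast (hG i f hf).deg
  have hprodeg : ∀ i, 0 < ∏ f ∈ F i, (f.natDegree : ℝ) := fun i => prod_pos fun f hf => hdeg0 i f hf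
  -- lower bounds for the lengths
  obtain ⟨c1, hc1, hl1⟩ : ∃ c1 : ℝ, 0 < c1 ∧ ∀ ι, ∀ᶠ x : ℕ in atTop, c1 * Real.log x ≤ l ι x := by
    have h1 : ∀ ι : κ, 0 < lam ι * (∏ f ∈ F (lab ι), (f.natDegree : ℝ)) / C (lab ι) := fun ι => by
      have := hlam ι
      have := hprodeg (lab ι)
      have := hC0 (lab ι)
      positivity
    have h2 : ∃ c1 : ℝ, 0 < c1 ∧ ∀ ι : κ, c1 < lam ι * (∏ f ∈ F (lab ι), (f.natDegree : ℝ)) / C (lab ι) := by
      rcases isEmpty_or_nonempty κ with hκ | hκ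
      · exact ⟨1, one_pos, fun ι => (hκ.false ι).elim⟩
      · obtain ⟨ι0, hι0⟩ := Finite.exists_min (fun ι : κ => lam ι * (∏ f ∈ F (lab ι), (f.natDegree : ℝ)) / C (lab ι))
        refine ⟨(lam ι0 * (∏ f ∈ F (lab ι0), (f.natDegree : ℝ)) / C (lab ι0)) / 2, by have := h1 ι0; linarith, fun ι => ?_⟩
        have := hι0 ι
        have := h1 ι0
        linarith
    obtain ⟨c1, hc1, h3⟩ := h2
    refine ⟨c1, hc1, fun ι => ?_⟩
    filter_upwards [(hl ι).eventually_const_lt (h3 ι), log_top.eventually_ge_atTop 1] with x h4 h5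
    rw [lt_div_iff₀ (by positivity)] at h4
    refine le_trans ?_ h4.le
    have h6 : Real.log x ≤ Real.log x ^ (F (lab ι)).card :=
      le_self_pow₀ h5 (by have := (hne (lab ι)).card_pos; omega)
    gcongr
  -- the average of the singular series
  have hsg := sg_avg F lab D hD hG C hC hC0 d0 K0 E0 hPD lo l c1 hc1 hl1 E1 hl2 (fun x => WW c (TT (1 / 4) x))
    (fun c' h1 h2 => cut_ge c hc c' h1 h2)
  obtain ⟨m0, H, hH1, hgr⟩ := grow_all F hG
  obtain ⟨A0, hA0⟩ := box_ar F lab D hD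
  set A : ℕ := A0 + 3 * D + 1 with hA
  have hboxx := hA0 A (by omega)
  -- the densities
  have hVlo : ∀ i, ∀ f ∈ F i, Tendsto (fun x : ℕ => V (z ((x / (2 * J)) ^ f.natDegree)) * Real.log x) atTop
      (𝓝 (1 / (f.natDegree : ℝ))) := by
    intro i f hf
    have h1 := div_lim (2 * J) (by omega)
    exact log_lin _ _ (hG i f hf).deg z hz h1.1 h1.2
  have hVhi : ∀ i, ∀ f ∈ F i, Tendsto (fun x : ℕ => V (z ((2 * H * x) ^ f.natDegree)) * Real.log x) atTop
      (𝓝 (1 / (f.natDegree : ℝ))) := by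
    intro i f hf
    have h1 := mul_lim (2 * H) (by omega)
    exact log_lin _ _ (hG i f hf).deg z hz h1.1 h1.2
  -- the factors of the limit
  have hfac : ∀ v : ℤ[X] → ℕ → ℕ, (∀ i, ∀ f ∈ F i, Tendsto (fun x : ℕ => V (z (v f x)) * Real.log x) atTop
      (𝓝 (1 / (f.natDegree : ℝ)))) → Tendsto (fun x : ℕ => (∑ h ∈ HS d0 (fun ι => lo ι x) (fun ι => l ι x),
        Sg (ar F lab D h) (WW c (TT (1 / 4) x))) * ∏ j, V (z (v (ix F lab j).2.1 x))) atTop (𝓝 (∏ ι, lam ι)) := by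
    intro v hv
    have h1 : ∀ ι : κ, Tendsto (fun x : ℕ => (l ι x : ℝ) * ∏ f ∈ F (lab ι), V (z (v f x))) atTop
        (𝓝 (lam ι / C (lab ι))) := by
      intro ι
      have h2 : Tendsto (fun x : ℕ => ∏ f ∈ F (lab ι), (V (z (v f x)) * Real.log x)) atTop
          (𝓝 (∏ f ∈ F (lab ι), 1 / (f.natDegree : ℝ))) := tendsto_finsetProd _ fun f hf => hv _ f hf
      have h3 := (hl ι).mul h2
      have e1 : lam ι * (∏ f ∈ F (lab ι), (f.natDegree : ℝ)) / C (lab ι) * ∏ f ∈ F (lab ι), 1 / (f.natDegree : ℝ) =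
          lam ι / C (lab ι) := by
        have e2 : (∏ f ∈ F (lab ι), (f.natDegree : ℝ)) * ∏ f ∈ F (lab ι), 1 / (f.natDegree : ℝ) = 1 := by
          rw [← prod_mul_distrib]
          refine prod_eq_one fun f hf => ?_
          have := hdeg0 _ f hf
          field_simp
        calc _ = lam ι / C (lab ι) * ((∏ f ∈ F (lab ι), (f.natDegree : ℝ)) * ∏ f ∈ F (lab ι), 1 / (f.natDegree : ℝ)) := by
              ring
          _ = _ := by rw [e2, mul_one]
      rw [e1] at h3
      refine h3.congr' ?_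
      filter_upwards [log_top.eventually_ge_atTop 1] with x hx
      rw [prod_mul_distrib, prod_const]
      have : 0 < Real.log x ^ (F (lab ι)).card := by positivity
      field_simp
    have h2 : Tendsto (fun x : ℕ => ∏ ι, ((l ι x : ℝ) * ∏ f ∈ F (lab ι), V (z (v f x)))) atTop
        (𝓝 (∏ ι, (lam ι / C (lab ι)))) := tendsto_finsetProd _ fun ι _ => h1 ι
    have h3 := hsg.mul h2
    have e1 : (∏ ι, C (lab ι)) * ∏ ι, (lam ι / C (lab ι)) = ∏ ι, lam ι := by
      rw [← prod_mul_distrib]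
      refine prod_congr rfl fun ι _ => ?_
      have := hC0 (lab ι)
      field_simp
    rw [e1] at h3
    refine h3.congr' ?_
    filter_upwards [eventually_all.2 hl1, log_top.eventually_ge_atTop 1] with x hx hx2
    have hl0 : ∀ ι, 0 < (l ι x : ℝ) := fun ι => lt_of_lt_of_le (by positivity) (hx ι)
    have hPl : 0 < ∏ ι, (l ι x : ℝ) := prod_pos fun ι _ => hl0 ι
    rw [prod_mul_distrib, prod_ix F lab (fun f => V (z (v f x)))]
    field_simp
  have hflo := hfac (fun f x => (x / (2 * J)) ^ f.natDegree) hVlo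
  have hfhi := hfac (fun f x => (2 * H * x) ^ f.natDegree) hVhi
  have hyl := y_lim J hJ
  -- the error term
  have herr : Tendsto (fun x : ℕ => Real.log x ^ (E1 * n0) / Real.log x ^ (E1 * n0 + 1)) atTop (𝓝 0) := by
    have h1 : Tendsto (fun x : ℕ => 1 / Real.log x) atTop (𝓝 0) := tendsto_const_nhds.div_atTop log_top
    refine h1.congr' ?_
    filter_upwards [log_top.eventually_ge_atTop 1] with x hx
    rw [pow_succ]
    have : 0 < Real.log x ^ (E1 * n0) := by positivity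
    field_simp
  set Q : ℝ := (1 - 1 / (J : ℝ)) * ∏ ι, lam ι with hQ
  have hQ0 : 0 ≤ Q := by
    refine mul_nonneg ?_ (prod_nonneg fun ι _ => (hlam ι).le)
    have : 1 / (J : ℝ) ≤ 1 := by
      rw [div_le_one hJ0]
      exact_mod_cast hJ
    linarith
  -- the bounds
  have key : ∀ n : ℕ, ∃ U Lw : ℕ → ℝ, Tendsto U atTop (𝓝 ((1 + 1 / ((n : ℝ) + 1)) * Q)) ∧
      Tendsto Lw atTop (𝓝 ((1 - 1 / ((n : ℝ) + 1)) * Q)) ∧ ∀ᶠ x : ℕ in atTop,
      Lw x ≤ (∑ n ∈ Ioc (x / J) x, (Tn F lab (RS z (WW c) b) d0 (fun ι => lo ι x) (fun ι => l ι x) n : ℝ)) / x ∧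
      (∑ n ∈ Ioc (x / J) x, (Tn F lab (RS z (WW c) b) d0 (fun ι => lo ι x) (fun ι => l ι x) n : ℝ)) / x ≤ U x := by
    intro n
    refine ⟨fun x => (1 + 1 / ((n : ℝ) + 1)) * ((((x - x / J : ℕ) : ℝ) / x) *
        ((∑ h ∈ HS d0 (fun ι => lo ι x) (fun ι => l ι x), Sg (ar F lab D h) (WW c (TT (1 / 4) x))) *
          ∏ j, V (z ((x / (2 * J)) ^ (ix F lab j).2.1.natDegree)))) + Real.log x ^ (E1 * n0) / Real.log x ^ (E1 * n0 + 1),
      fun x => (1 - 1 / ((n : ℝ) + 1)) * ((((x - x / J : ℕ) : ℝ) / x) *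
        ((∑ h ∈ HS d0 (fun ι => lo ι x) (fun ι => l ι x), Sg (ar F lab D h) (WW c (TT (1 / 4) x))) *
          ∏ j, V (z ((2 * H * x) ^ (ix F lab j).2.1.natDegree)))) - Real.log x ^ (E1 * n0) / Real.log x ^ (E1 * n0 + 1),
      ?_, ?_, ?_⟩
    · have := ((hyl.mul hflo).const_mul (1 + 1 / ((n : ℝ) + 1))).add herr
      rw [add_zero] at this
      exact this
    · have := ((hyl.mul hfhi).const_mul (1 - 1 / ((n : ℝ) + 1))).sub herr
      rw [sub_zero] at this
      exact this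
    · filter_upwards [hOK K D A (PP F) (E1 * n0 + 1) n (by omega), hboxx, eventually_all.2 hl2, log_top.eventually_ge_atTop 1,
        eventually_ge_atTop (2 * H + J * (m0 + 1)), TT_small J hJ, log_pow_le E1 1 1 one_pos,
        (div_lim J hJ).1.eventually_ge_atTop (m0 + 1)] with x a1 a2 a3 a4 a5 a6 a7 a8
      set L := Real.log x with hL
      have hx1 : 1 ≤ x := by omega
      have hx0 : (0 : ℝ) < x := by exact_mod_cast hx1
      have hL0 : 0 < L := by linarith
      have hJx : x / J ≤ x := Nat.div_le_self x J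
      rw [Real.rpow_one, one_mul] at a7
      have hlx : ∀ ι, lo ι x + l ι x ≤ x := by
        intro ι
        have := (a3 ι).trans a7
        exact_mod_cast this
      have hsumeq := sum_Tn F lab D hD z (WW c) b d0 (fun ι => lo ι x) (fun ι => l ι x) (x / J) (x - x / J) m0
        (by omega) (fun i f hf m hm => by
          have h1 := (hgr i f hf m hm).1
          have h2 : (0 : ℝ) ≤ ((f.eval (m : ℤ) : ℤ) : ℝ) := le_trans (by positivity) h1
          exact_mod_cast h2)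
      have e1 : x / J + (x - x / J) = x := by omega
      rw [e1] at hsumeq
      rw [hsumeq]
      -- each tuple
      have hcardHS : ((HS d0 (fun ι => lo ι x) (fun ι => l ι x)).card : ℝ) ≤ L ^ (E1 * n0) := by
        have h1 := HS_card d0 (fun ι => lo ι x) (fun ι => l ι x)
        have h2 : ((HS d0 (fun ι => lo ι x) (fun ι => l ι x)).card : ℝ) ≤ ∏ ι, (l ι x : ℝ) := by exact_mod_cast h1
        refine h2.trans ?_
        calc ∏ ι, (l ι x : ℝ) ≤ ∏ _ι : κ, L ^ E1 := by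
              refine prod_le_prod (fun ι _ => Nat.cast_nonneg _) fun ι _ => ?_
              refine le_trans ?_ (a3 ι)
              exact_mod_cast Nat.le_add_left _ _
          _ = L ^ (E1 * n0) := by rw [prod_const, card_univ, ← pow_mul]
      have hone : ∀ h ∈ HS d0 (fun ι => lo ι x) (fun ι => l ι x),
          (1 - 1 / ((n : ℝ) + 1)) * (((x - x / J : ℕ) : ℝ) * (Sg (ar F lab D h) (WW c (TT (1 / 4) x)) *
            ∏ j, V (z ((2 * H * x) ^ (ix F lab j).2.1.natDegree)))) - x / L ^ (E1 * n0 + 1) ≤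
            cnt (ar F lab D h) (RS z (WW c) b) (x / J) (x - x / J) ∧
          cnt (ar F lab D h) (RS z (WW c) b) (x / J) (x - x / J) ≤
            (1 + 1 / ((n : ℝ) + 1)) * (((x - x / J : ℕ) : ℝ) * (Sg (ar F lab D h) (WW c (TT (1 / 4) x)) *
            ∏ j, V (z ((x / (2 * J)) ^ (ix F lab j).2.1.natDegree)))) + x / L ^ (E1 * n0 + 1) := by
        intro h hh
        have hhx : ∀ ι, h ι ≤ x := HS_le d0 _ _ x hlx h hh
        have hsep : Sep d0 h := by
          unfold HS at hh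
          exact (mem_filter.1 hh).2
        refine a1 (ar F lab D h) (a2 h hhx) (fun p _ hp => Gd_ar F lab D hD hG h p hp)
          (Row_ar F lab D hD hG d0 K0 E0 hPD h hsep) (x / J) (x - x / J)
          (fun j => (x / (2 * J)) ^ (ix F lab j).2.1.natDegree) (fun j => (2 * H * x) ^ (ix F lab j).2.1.natDegree)
          hJx (Nat.sub_le _ _) (fun j => ?_) (fun j => ?_) ?_
        · exact a6.trans (Nat.le_self_pow (by have := (hG _ _ (ix F lab j).2.2).deg; omega) _)
        · have hdD := hD _ _ (ix F lab j).2.2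
          calc (2 * H * x) ^ (ix F lab j).2.1.natDegree ≤ (x * x) ^ (ix F lab j).2.1.natDegree :=
                Nat.pow_le_pow_left (Nat.mul_le_mul_right _ (by omega)) _
            _ = x ^ (2 * (ix F lab j).2.1.natDegree) := by rw [← sq, ← pow_mul]
            _ ≤ x ^ A := Nat.pow_le_pow_right hx1 (by omega)
        · intro m hm j
          rw [mem_Ioc] at hm
          rw [evl_ar F lab D hD]
          have h1 : ((m : ℤ) + (h (ix F lab j).1 : ℕ)) = ((m + h (ix F lab j).1 : ℕ) : ℤ) := by push_cast; ring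
          rw [h1]
          obtain ⟨g1, g2⟩ := hgr _ _ (ix F lab j).2.2 (m + h (ix F lab j).1) (by omega)
          have h2 : m + h (ix F lab j).1 ≤ 2 * x := by
            have := hhx (ix F lab j).1
            omega
          constructor
          · have h5 : ((x / (2 * J) : ℕ) : ℝ) ≤ ((m + h (ix F lab j).1 : ℕ) : ℝ) / 2 := by
              have h6 : x / (2 * J) * 2 ≤ m + h (ix F lab j).1 := by
                have h7 : x / (2 * J) = x / J / 2 := by rw [Nat.div_div_eq_div_mul, mul_comm]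
                rw [h7]
                omega
              have h7 : ((x / (2 * J) : ℕ) : ℝ) * 2 ≤ ((m + h (ix F lab j).1 : ℕ) : ℝ) := by exact_mod_cast h6
              linarith
            have h6 : ((((x / (2 * J)) ^ (ix F lab j).2.1.natDegree : ℕ) : ℤ) : ℝ) ≤
                (((ix F lab j).2.1.eval ((m + h (ix F lab j).1 : ℕ) : ℤ) : ℤ) : ℝ) := by
              rw [Int.cast_natCast, Nat.cast_pow]
              exact (pow_le_pow_left₀ (Nat.cast_nonneg _) h5 _).trans g1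
            exact Int.cast_le.1 h6
          · have h6 : (((ix F lab j).2.1.eval ((m + h (ix F lab j).1 : ℕ) : ℤ) : ℤ) : ℝ) ≤
                ((((2 * H * x) ^ (ix F lab j).2.1.natDegree : ℕ) : ℤ) : ℝ) := by
              rw [Int.cast_natCast, Nat.cast_pow]
              refine g2.trans (pow_le_pow_left₀ (by positivity) ?_ _)
              have h7 : H * (m + h (ix F lab j).1) ≤ 2 * H * x := by
                calc H * (m + h (ix F lab j).1) ≤ H * (2 * x) := Nat.mul_le_mul_left _ h2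
                  _ = 2 * H * x := by ring
              exact_mod_cast h7
            exact Int.cast_le.1 h6
      have hxd : ((HS d0 (fun ι => lo ι x) (fun ι => l ι x)).card : ℝ) * (x / L ^ (E1 * n0 + 1)) ≤
          L ^ (E1 * n0) / L ^ (E1 * n0 + 1) * x := by
        calc _ ≤ L ^ (E1 * n0) * (x / L ^ (E1 * n0 + 1)) := by gcongr
          _ = _ := by ring
      constructor
      · rw [le_div_iff₀ hx0]
        have h1 := sum_le_sum fun h hh => (hone h hh).1
        rw [sum_sub_distrib, ← mul_sum, ← mul_sum, ← sum_mul, sum_const, nsmul_eq_mul] at h1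
        refine le_trans ?_ h1
        have h2 : ((1 - 1 / ((n : ℝ) + 1)) * ((((x - x / J : ℕ) : ℝ) / x) *
          ((∑ h ∈ HS d0 (fun ι => lo ι x) (fun ι => l ι x), Sg (ar F lab D h) (WW c (TT (1 / 4) x))) *
          ∏ j, V (z ((2 * H * x) ^ (ix F lab j).2.1.natDegree)))) - L ^ (E1 * n0) / L ^ (E1 * n0 + 1)) * x =
          (1 - 1 / ((n : ℝ) + 1)) * (((x - x / J : ℕ) : ℝ) *
          ((∑ h ∈ HS d0 (fun ι => lo ι x) (fun ι => l ι x), Sg (ar F lab D h) (WW c (TT (1 / 4) x))) *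
          ∏ j, V (z ((2 * H * x) ^ (ix F lab j).2.1.natDegree)))) - L ^ (E1 * n0) / L ^ (E1 * n0 + 1) * x := by
          rw [sub_mul]
          congr 1
          field_simp
        rw [h2]
        linarith
      · rw [div_le_iff₀ hx0]
        have h1 := sum_le_sum fun h hh => (hone h hh).2
        rw [sum_add_distrib, ← mul_sum, ← mul_sum, ← sum_mul, sum_const, nsmul_eq_mul] at h1
        refine h1.trans ?_
        have h2 : ((1 + 1 / ((n : ℝ) + 1)) * ((((x - x / J : ℕ) : ℝ) / x) *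
          ((∑ h ∈ HS d0 (fun ι => lo ι x) (fun ι => l ι x), Sg (ar F lab D h) (WW c (TT (1 / 4) x))) *
          ∏ j, V (z ((x / (2 * J)) ^ (ix F lab j).2.1.natDegree)))) + L ^ (E1 * n0) / L ^ (E1 * n0 + 1)) * x =
          (1 + 1 / ((n : ℝ) + 1)) * (((x - x / J : ℕ) : ℝ) *
          ((∑ h ∈ HS d0 (fun ι => lo ι x) (fun ι => l ι x), Sg (ar F lab D h) (WW c (TT (1 / 4) x))) *
          ∏ j, V (z ((x / (2 * J)) ^ (ix F lab j).2.1.natDegree)))) + L ^ (E1 * n0) / L ^ (E1 * n0 + 1) * x := by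
          rw [add_mul]
          congr 1
          field_simp
        rw [h2]
        linarith
  rw [Metric.tendsto_atTop]
  intro e he
  obtain ⟨n, hn⟩ := exists_nat_gt (Q / e)
  obtain ⟨U, Lw, hU, hL, hUL⟩ := key n
  rw [div_lt_iff₀ he] at hn
  have q1 : 1 / ((n : ℝ) + 1) * Q < e := by
    rw [one_div_mul_eq_div, div_lt_iff₀ (by positivity)]
    linarith
  obtain ⟨N, hN⟩ := eventually_atTop.1 ((hU.eventually_lt_const (show (1 + 1 / ((n : ℝ) + 1)) * Q < Q + e by
    have : (1 + 1 / ((n : ℝ) + 1)) * Q = Q + 1 / ((n : ℝ) + 1) * Q := by ring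
    linarith)).and ((hL.eventually_const_lt (show Q - e < (1 - 1 / ((n : ℝ) + 1)) * Q by
    have : (1 - 1 / ((n : ℝ) + 1)) * Q = Q - 1 / ((n : ℝ) + 1) * Q := by ring
    linarith)).and hUL))
  refine ⟨N, fun x hx => ?_⟩
  obtain ⟨r1, r2, r3, r4⟩ := hN x hx
  rw [Real.dist_eq, abs_lt]
  constructor <;> linarith

end Pool.Agent.H559.PV
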