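import Pool.Agent.H559.HY.Asym

set_option autoImplicit false

/-! # Systems of polynomials some of which may be equal modulo some large primes -/

open Finset
open Pool.Agent.H559.HY (Arr evl cls cls_mod cls_lt cls_eq_iff zero_count evl_sub_const kl wt wt_le kl_card res_le rts
  rts_sub Good dev_le rts_sum box mem_box)

namespace Pool.Agent.H559.PV

variable {k D : ℕ}

/-- no polynomial is constant modulo `p` -/
def Gd (C : Arr k D) (p : ℕ) : Prop := ∀ i, ∃ j : Fin (D + 1), j ≠ 0 ∧ ¬ (p : ℤ) ∣ C i j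

/-- two polynomials are equal modulo `p` -/
def Bad (C : Arr k D) (p : ℕ) : Prop := ∃ i i' : Fin k, i ≠ i' ∧ ∀ j : Fin (D + 1), (p : ℤ) ∣ C i j - C i' j

/-- no two polynomials are equal -/
def Row (C : Arr k D) : Prop := ∀ i i' : Fin k, i ≠ i' → C i ≠ C i'

theorem good_of (C : Arr k D) (p : ℕ) (h : Gd C p) (hb : ¬ Bad C p) : Good C p := by
  refine ⟨h, fun i i' hi => ?_⟩
  by_contra hcon
  push Not at hcon
  exact hb ⟨i, i', hi, hcon⟩

theorem fib_le (C : Arr k D) (p : ℕ) (hp : p.Prime) (hC : Gd C p) (i : Fin k) (c : ℕ) :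
    ((range p).filter (fun r => cls C i p r = c)).card ≤ D := by
  rcases lt_or_ge c p with hc | hc
  · have h1 := zero_count (fun j => C i j - if j = 0 then (c : ℤ) else 0) p hp (by
      obtain ⟨j, hj0, hj⟩ := hC i
      refine ⟨j, ?_⟩
      rw [if_neg hj0, sub_zero]
      exact hj)
    refine le_trans (card_le_card ?_) h1
    intro r hr
    rw [mem_filter] at hr ⊢
    refine ⟨hr.1, ?_⟩
    rw [evl_sub_const]
    exact (cls_eq_iff C i p r c hp.pos hc).1 hr.2
  · have : (range p).filter (fun r => cls C i p r = c) = ∅ := by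
      refine filter_eq_empty_iff.2 fun r _ h => ?_
      have := cls_lt C i p r hp.pos
      omega
    rw [this]
    simp

/-- the number of the `m` killed by the class `r` -/
theorem kill_le (C : Arr k D) (Z : Fin k → ℕ) (p : ℕ) (hp : p.Prime) (hC : Gd C p) (k0 y r : ℕ) (A : Finset ℕ)
    (hA : A ⊆ Ioc k0 (k0 + y)) :
    ((A.filter (fun u => r ∈ kl C Z p u)).card : ℝ) ≤ k * D * (y / p + 1) := by
  set S : Finset ℕ := (univ : Finset (Fin k)).biUnion (fun i => (range p).filter (fun s => cls C i p s = r)) with hS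
  have h1 : A.filter (fun u => r ∈ kl C Z p u) ⊆ (Ioc k0 (k0 + y)).filter (fun m => m % p ∈ S) := by
    intro u hu
    rw [mem_filter] at hu
    refine mem_filter.2 ⟨hA hu.1, ?_⟩
    have h2 := hu.2
    unfold kl at h2
    rw [mem_image] at h2
    obtain ⟨i, _, h3⟩ := h2
    rw [hS, mem_biUnion]
    refine ⟨i, mem_univ _, mem_filter.2 ⟨mem_range.2 (Nat.mod_lt _ hp.pos), ?_⟩⟩
    rw [← h3, ← cls_mod]
  have h2 : (S.card : ℝ) ≤ k * D := by
    have : S.card ≤ ∑ i : Fin k, ((range p).filter (fun s => cls C i p s = r)).card := card_biUnion_le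
    have h3 : ∑ i : Fin k, ((range p).filter (fun s => cls C i p s = r)).card ≤ ∑ _i : Fin k, D :=
      sum_le_sum fun i _ => fib_le C p hp hC i r
    rw [sum_const, card_univ, Fintype.card_fin, smul_eq_mul] at h3
    exact_mod_cast this.trans h3
  have h3 : ((A.filter (fun u => r ∈ kl C Z p u)).card : ℝ) ≤
      (((Ioc k0 (k0 + y)).filter (fun m => m % p ∈ S)).card : ℝ) := by exact_mod_cast card_le_card h1
  refine h3.trans ((res_le p hp.pos S k0 y).trans ?_)
  have h4 : (0 : ℝ) ≤ y / p + 1 := by positivity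
  exact mul_le_mul_of_nonneg_right h2 h4

open Classical in
/-- the total number of the collisions -/
theorem dev_leB (C : Arr k D) (Z : Fin k → ℕ) (p : ℕ) (hp : p.Prime) (hC : Gd C p) (k0 y : ℕ) (A : Finset ℕ)
    (hA : A ⊆ Ioc k0 (k0 + y)) :
    ∑ u ∈ A, |(wt Z p : ℝ) - (kl C Z p u).card| ≤ k ^ 2 * D * (y / p + 1) + if Bad C p then (k : ℝ) * y else 0 := by
  by_cases hb : Bad C p
  · rw [if_pos hb]
    have h0 : (0 : ℝ) ≤ k ^ 2 * D * (y / p + 1) := by positivity
    have h1 : ∀ u ∈ A, |(wt Z p : ℝ) - (kl C Z p u).card| ≤ k := by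
      intro u _
      have h2 : ((kl C Z p u).card : ℝ) ≤ wt Z p := by exact_mod_cast kl_card C Z p u
      have h3 : (wt Z p : ℝ) ≤ k := by exact_mod_cast wt_le Z p
      have h4 : (0 : ℝ) ≤ ((kl C Z p u).card : ℝ) := Nat.cast_nonneg _
      rw [abs_le]
      constructor <;> linarith
    have h2 := sum_le_sum h1
    rw [sum_const, nsmul_eq_mul] at h2
    have h3 : (A.card : ℝ) ≤ y := by
      have := card_le_card hA
      rw [Nat.card_Ioc] at this
      exact_mod_cast (show A.card ≤ y by omega)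
    have h4 : (A.card : ℝ) * k ≤ k * y := by
      rw [mul_comm]
      exact mul_le_mul_of_nonneg_left h3 (Nat.cast_nonneg _)
    linarith
  · rw [if_neg hb, add_zero]
    exact dev_le C Z p hp (good_of C p hC hb) k0 y A hA

theorem rts_card (C : Arr k D) (p c : ℕ) (hp : p.Prime) (hC : Gd C p) : (rts C p c).card ≤ k * D := by
  have h1 : rts C p c ⊆ (univ : Finset (Fin k)).biUnion (fun i => (range p).filter (fun s => cls C i p s = c)) := by
    intro s hs
    unfold rts at hs
    rw [mem_filter] at hs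
    obtain ⟨i, hi⟩ := hs.2
    rw [mem_biUnion]
    exact ⟨i, mem_univ _, mem_filter.2 ⟨hs.1, hi⟩⟩
  refine (card_le_card h1).trans (card_biUnion_le.trans ?_)
  refine (sum_le_sum fun i _ => fib_le C p hp hC i c).trans ?_
  rw [sum_const, card_univ, Fintype.card_fin, smul_eq_mul]

open Classical in
theorem rts_sumB (C : Arr k D) (p : ℕ) (hp : p.Prime) (hC : Gd C p) :
    |∑ r ∈ range p, (((rts C p r).card : ℝ) - k)| ≤ k ^ 2 * D + if Bad C p then (k : ℝ) * p else 0 := by
  by_cases hb : Bad C p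
  · rw [if_pos hb]
    have e : ∀ r, ((rts C p r).card : ℝ) = ∑ s ∈ range p, if (∃ i, cls C i p s = r) then (1 : ℝ) else 0 := by
      intro r
      unfold rts
      rw [card_filter]
      push_cast
      rfl
    have h1 : ∑ r ∈ range p, ((rts C p r).card : ℝ) =
        ∑ s ∈ range p, (((univ : Finset (Fin k)).image (fun i => cls C i p s)).card : ℝ) := by
      simp only [e]
      rw [sum_comm]
      refine sum_congr rfl fun s _ => ?_
      rw [← sum_filter, sum_const, nsmul_eq_mul, mul_one]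
      congr 1
      have : (range p).filter (fun r => ∃ i, cls C i p s = r) = (univ : Finset (Fin k)).image (fun i => cls C i p s) := by
        ext r
        rw [mem_filter, mem_image, mem_range]
        constructor
        · rintro ⟨_, i, hi⟩
          exact ⟨i, mem_univ _, hi⟩
        · rintro ⟨i, _, rfl⟩
          exact ⟨cls_lt C i p s hp.pos, i, rfl⟩
      rw [this]
    have h2 : ∀ s, (((univ : Finset (Fin k)).image (fun i => cls C i p s)).card : ℝ) ≤ k := by
      intro s
      have : ((univ : Finset (Fin k)).image (fun i => cls C i p s)).card ≤ (univ : Finset (Fin k)).card := card_image_le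
      rw [card_univ, Fintype.card_fin] at this
      exact_mod_cast this
    have h3 : ∑ s ∈ range p, (((univ : Finset (Fin k)).image (fun i => cls C i p s)).card : ℝ) ≤ k * p := by
      refine (sum_le_sum fun s _ => h2 s).trans (le_of_eq ?_)
      rw [sum_const, card_range, nsmul_eq_mul, mul_comm]
    have h4 : 0 ≤ ∑ s ∈ range p, (((univ : Finset (Fin k)).image (fun i => cls C i p s)).card : ℝ) :=
      sum_nonneg fun _ _ => Nat.cast_nonneg _
    have h5 : ∑ r ∈ range p, (((rts C p r).card : ℝ) - k) =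
        ∑ s ∈ range p, (((univ : Finset (Fin k)).image (fun i => cls C i p s)).card : ℝ) - k * p := by
      rw [sum_sub_distrib, h1, sum_const, card_range, nsmul_eq_mul, mul_comm (p : ℝ)]
    have h6 : (0 : ℝ) ≤ k ^ 2 * D := by positivity
    rw [h5, abs_le]
    constructor <;> linarith
  · rw [if_neg hb, add_zero]
    exact rts_sum C p hp (good_of C p hC hb)

theorem card_pf (n : ℕ) (hn : n ≠ 0) : (n.primeFactors.card : ℝ) * Real.log 2 ≤ Real.log n := by
  have h1 : 2 ^ n.primeFactors.card ≤ ∏ p ∈ n.primeFactors, p := by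
    rw [← prod_const]
    exact prod_le_prod' fun p hp => (Nat.prime_of_mem_primeFactors hp).two_le
  have h2 : 2 ^ n.primeFactors.card ≤ n := h1.trans (Nat.le_of_dvd (Nat.pos_of_ne_zero hn) (Nat.prod_primeFactors_dvd n))
  rw [← Real.log_pow]
  refine Real.log_le_log (by positivity) ?_
  exact_mod_cast h2

open Classical in
/-- few primes are bad -/
theorem bad_card (C : Arr k D) (H : ℕ) (hH : 1 ≤ H) (hC : C ∈ box k D H) (hR : Row C) (S : Finset ℕ)
    (hS : ∀ p ∈ S, p.Prime ∧ Bad C p) : (S.card : ℝ) ≤ k ^ 2 * (Real.log (2 * H) / Real.log 2) := by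
  have hl2 : 0 < Real.log 2 := Real.log_pos (by norm_num)
  have hH' : (1 : ℝ) ≤ H := by exact_mod_cast hH
  have hrow : ∀ q : Fin k × Fin k, ∃ j : Fin (D + 1), q.1 ≠ q.2 → C q.1 j ≠ C q.2 j := by
    intro q
    by_cases h : q.1 = q.2
    · exact ⟨0, fun h' => absurd h h'⟩
    · obtain ⟨j, hj⟩ := Function.ne_iff.1 (hR q.1 q.2 h)
      exact ⟨j, fun _ => hj⟩
  choose J hJ using hrow
  set N : Fin k × Fin k → ℕ := fun q => (C q.1 (J q) - C q.2 (J q)).natAbs with hN
  have hsub : S ⊆ ((univ : Finset (Fin k)).offDiag).biUnion (fun q => (N q).primeFactors) := by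
    intro p hp
    obtain ⟨hpp, i, i', hi, hd⟩ := hS p hp
    rw [mem_biUnion]
    refine ⟨(i, i'), by rw [mem_offDiag]; exact ⟨mem_univ _, mem_univ _, hi⟩, ?_⟩
    rw [Nat.mem_primeFactors]
    refine ⟨hpp, ?_, ?_⟩
    · have h1 := hd (J (i, i'))
      exact Int.natCast_dvd.1 h1
    · have h1 := hJ (i, i') hi
      have h2 : C i (J (i, i')) - C i' (J (i, i')) ≠ 0 := sub_ne_zero.2 h1
      exact Int.natAbs_ne_zero.2 h2
  have h1 : (S.card : ℝ) ≤ ∑ q ∈ (univ : Finset (Fin k)).offDiag, ((N q).primeFactors.card : ℝ) := by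
    exact_mod_cast (card_le_card hsub).trans card_biUnion_le
  have h2 : ∀ q ∈ (univ : Finset (Fin k)).offDiag, ((N q).primeFactors.card : ℝ) ≤ Real.log (2 * H) / Real.log 2 := by
    intro q hq
    rw [mem_offDiag] at hq
    have h3 : N q ≠ 0 := Int.natAbs_ne_zero.2 (sub_ne_zero.2 (hJ q hq.2.2))
    have h4 := card_pf (N q) h3
    rw [le_div_iff₀ hl2]
    refine h4.trans ?_
    have h5 : N q ≤ 2 * H := by
      rw [mem_box] at hC
      have h6 := hC q.1 (J q)
      have h7 := hC q.2 (J q)
      have h8 := abs_sub (C q.1 (J q)) (C q.2 (J q))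
      have h9 : ((N q : ℕ) : ℤ) = |C q.1 (J q) - C q.2 (J q)| := by
        rw [hN]
        exact (Int.abs_eq_natAbs _).symm
      omega
    exact Real.log_le_log (by exact_mod_cast Nat.pos_of_ne_zero h3) (by exact_mod_cast h5)
  refine h1.trans ((sum_le_sum h2).trans ?_)
  rw [sum_const, nsmul_eq_mul]
  have h3 : 0 ≤ Real.log (2 * H) / Real.log 2 := div_nonneg (Real.log_nonneg (by linarith)) hl2.le
  exact mul_le_mul_of_nonneg_right Pool.Agent.H559.HY.offDiag_le h3

open Classical in
theorem bsum_le (C : Arr k D) (H : ℕ) (hH : 1 ≤ H) (hC : C ∈ box k D H) (hR : Row C) (u v : ℕ) (hu : 1 ≤ u) :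
    ∑ p ∈ (Ioc u v).filter Nat.Prime, (if Bad C p then (1 : ℝ) / p else 0) ≤
      k ^ 2 * (Real.log (2 * H) / Real.log 2) / u := by
  have hu0 : (0 : ℝ) < u := by exact_mod_cast hu
  rw [← sum_filter]
  have h1 := bad_card C H hH hC hR (((Ioc u v).filter Nat.Prime).filter (fun p => Bad C p)) (by
    intro p hp
    rw [mem_filter, mem_filter] at hp
    exact ⟨hp.1.2, hp.2⟩)
  calc ∑ p ∈ ((Ioc u v).filter Nat.Prime).filter (fun p => Bad C p), (1 : ℝ) / p
      ≤ ∑ p ∈ ((Ioc u v).filter Nat.Prime).filter (fun p => Bad C p), (1 : ℝ) / u := by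
        refine sum_le_sum fun p hp => ?_
        rw [mem_filter, mem_filter, mem_Ioc] at hp
        have h2 : (u : ℝ) ≤ p := by exact_mod_cast hp.1.1.1.le
        gcongr
    _ = ((((Ioc u v).filter Nat.Prime).filter (fun p => Bad C p)).card : ℝ) / u := by
        rw [sum_const, nsmul_eq_mul]
        ring
    _ ≤ _ := div_le_div_of_nonneg_right h1 hu0.le

end Pool.Agent.H559.PV
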