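import Pool.Agent.H559.PV.Eng
import Pool.Agent.H559.HY.FinBH
import Pool.Graph.R_seed8.W123.RU.Poly

set_option autoImplicit false

/-! # Polynomials and their translates -/

open Finset Filter Topology Polynomial
open Pool.Agent.H559.HY (Arr evl rts rts_sub box mem_box)
open Pool.Agent.W149.CS (comp_irred comp_natDegree comp_lc)

namespace Pool.Agent.H559.PV

/-- the polynomials of the systems -/
structure GP (f : ℤ[X]) : Prop where
  irr : Irreducible f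
  deg : 0 < f.natDegree
  lead : 0 < f.leadingCoeff

theorem comp_comp' (g : ℤ[X]) (t u : ℤ) : (g.comp (X + C t)).comp (X + C u) = g.comp (X + C (t + u)) := by
  rw [comp_assoc]
  congr 1
  simp only [add_comp, X_comp, C_comp, map_add]
  ring

theorem comp_zero' (g : ℤ[X]) : g.comp (X + C 0) = g := by
  rw [map_zero, add_zero, comp_X]

theorem comp_inj (t : ℤ) (f g : ℤ[X]) (h : f.comp (X + C t) = g.comp (X + C t)) : f = g := by
  have h1 := congrArg (fun q : ℤ[X] => q.comp (X + C (-t))) h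
  simp only [comp_comp', add_neg_cancel, comp_zero'] at h1
  exact h1

/-- no polynomial is periodic -/
theorem not_periodic (g : ℤ[X]) (hd : 0 < g.natDegree) (t u : ℤ) (h : g.comp (X + C t) = g.comp (X + C u)) : t = u := by
  by_contra hne
  have h1 := congrArg (fun q : ℤ[X] => q.comp (X + C (-u))) h
  simp only [comp_comp', add_neg_cancel, comp_zero'] at h1
  refine Pool.Agent.H474R2.PG.ncol_not_periodic (g.map (Int.castRingHom ℚ)) ?_ ((t + -u : ℤ) : ℚ) ?_ ?_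
  · rw [natDegree_map_eq_of_injective (RingHom.injective_int _)]
    exact hd
  · have : t + -u ≠ 0 := by omega
    exact_mod_cast this
  · have h2 := congrArg (Polynomial.map (Int.castRingHom ℚ)) h1
    rw [Polynomial.map_comp] at h2
    simpa using h2

/-- the data of a pair of polynomials -/
def PD (f g : ℤ[X]) (d0 K E : ℕ) : Prop := ∀ t : ℤ, (d0 : ℤ) < |t| → f ≠ g.comp (X + C t) ∧
  ∃ R : ℤ, R ≠ 0 ∧ |(R : ℝ)| ≤ K * (1 + |(t : ℝ)|) ^ E ∧ ∀ x p : ℤ, p ∣ f.eval x → p ∣ g.eval (x + t) → p ∣ R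

theorem PD_mono (f g : ℤ[X]) (d0 K E d0' K' E' : ℕ) (h : PD f g d0 K E) (h1 : d0 ≤ d0') (h2 : K ≤ K') (h3 : E ≤ E') :
    PD f g d0' K' E' := by
  intro t ht
  obtain ⟨a, R, b, c, d⟩ := h t (by omega)
  refine ⟨a, R, b, c.trans ?_, d⟩
  have h4 : (1 : ℝ) ≤ 1 + |(t : ℝ)| := by linarith [abs_nonneg (t : ℝ)]
  have h5 : (K : ℝ) ≤ K' := by exact_mod_cast h2
  have h6 := pow_le_pow_right₀ h4 h3
  gcongr

theorem pair_data (f g : ℤ[X]) (hf : GP f) (hg : GP g) : ∃ d0 K E : ℕ, PD f g d0 K E := by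
  obtain ⟨R, hR1, hR2⟩ := Pool.Agent.W123.RU.Poly.ncolR f g hf.irr hg.irr hf.deg hg.deg hf.lead hg.lead
  obtain ⟨K, E, hKE⟩ := Pool.Agent.W123.RU.Poly.eval_bound R
  have hne : ∃ d0 : ℕ, ∀ t : ℤ, (d0 : ℤ) < |t| → f ≠ g.comp (X + C t) := by
    by_cases h : ∃ t0 : ℤ, f = g.comp (X + C t0)
    · obtain ⟨t0, ht0⟩ := h
      refine ⟨t0.natAbs, fun t ht hcon => ?_⟩
      have h1 := not_periodic g hg.deg t t0 (by rw [← hcon, ← ht0])
      rw [h1, Int.abs_eq_natAbs] at ht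
      exact lt_irrefl _ ht
    · push Not at h
      exact ⟨0, fun t _ => h t⟩
  obtain ⟨d0, hd0⟩ := hne
  refine ⟨d0, K, E, fun t ht => ⟨hd0 t ht, R.eval t, hR1 t (hd0 t ht), hKE t, fun x p h1 h2 => hR2 t x p h1 h2⟩⟩

/-- the data of a finite set of polynomials -/
theorem all_data (G : Finset ℤ[X]) (hG : ∀ f ∈ G, GP f) : ∃ d0 K E : ℕ, ∀ f ∈ G, ∀ g ∈ G, PD f g d0 K E := by
  classical
  have h0 : ∀ q : ℤ[X] × ℤ[X], ∃ d : ℕ × ℕ × ℕ, q.1 ∈ G → q.2 ∈ G → PD q.1 q.2 d.1 d.2.1 d.2.2 := by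
    intro q
    by_cases h : q.1 ∈ G ∧ q.2 ∈ G
    · obtain ⟨d0, K, E, h1⟩ := pair_data q.1 q.2 (hG _ h.1) (hG _ h.2)
      exact ⟨(d0, K, E), fun _ _ => h1⟩
    · exact ⟨(0, 0, 0), fun h1 h2 => absurd ⟨h1, h2⟩ h⟩
  choose d hd using h0
  refine ⟨∑ q ∈ G ×ˢ G, (d q).1, ∑ q ∈ G ×ˢ G, (d q).2.1, ∑ q ∈ G ×ˢ G, (d q).2.2, fun f hf g hg => ?_⟩
  have hm : (f, g) ∈ G ×ˢ G := mem_product.2 ⟨hf, hg⟩
  exact PD_mono f g _ _ _ _ _ _ (hd (f, g) hf hg) (single_le_sum (f := fun q => (d q).1) (fun _ _ => Nat.zero_le _) hm)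
    (single_le_sum (f := fun q => (d q).2.1) (fun _ _ => Nat.zero_le _) hm)
    (single_le_sum (f := fun q => (d q).2.2) (fun _ _ => Nat.zero_le _) hm)

/-- the coefficients of a translate -/
theorem coeff_bound (f : ℤ[X]) (j : ℕ) : ∃ K E : ℕ, ∀ t : ℕ, |(((f.comp (X + C (t : ℤ))).coeff j : ℤ) : ℝ)| ≤
    K * (1 + (t : ℝ)) ^ E := by
  obtain ⟨K, E, h⟩ := Pool.Agent.W123.RU.Poly.eval_bound (hasseDeriv j f)
  refine ⟨K, E, fun t => ?_⟩
  have h1 := h t
  rw [← taylor_coeff, taylor_apply] at h1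
  rwa [Int.cast_natCast, Nat.abs_cast] at h1

/-- the zeros of a system modulo `p` -/
def SZ (F : Finset ℤ[X]) (p : ℕ) : Finset ℕ := by
  classical
  exact (range p).filter (fun m => ∃ f ∈ F, (p : ℤ) ∣ f.eval (m : ℤ))

theorem mem_SZ (F : Finset ℤ[X]) (p m : ℕ) (hp : 0 < p) : m % p ∈ SZ F p ↔ ∃ f ∈ F, (p : ℤ) ∣ f.eval (m : ℤ) := by
  classical
  unfold SZ
  rw [mem_filter, mem_range]
  have h1 : m % p < p := Nat.mod_lt _ hp
  simp only [h1, true_and]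
  refine exists_congr fun f => and_congr_right fun _ => ?_
  exact (Pool.Agent.W123.RU.Poly.per1 f p m).symm

theorem SZ_sub (F : Finset ℤ[X]) (p : ℕ) : SZ F p ⊆ range p := by
  classical
  exact filter_subset _ _

theorem SZ_omF (F : Finset ℤ[X]) (p : ℕ) (hp : p.Prime) : Pool.Agent.H559.HY.omF F p = (SZ F p).card := by
  classical
  unfold Pool.Agent.H559.HY.omF SZ
  congr 1
  refine filter_congr fun s _ => ?_
  have hprime : Prime (p : ℤ) := Nat.prime_iff_prime_int.1 hp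
  exact hprime.dvd_finsetProd_iff _

end Pool.Agent.H559.PV
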