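import Pool.Agent.H559.PV.Avg

set_option autoImplicit false

/-! # The polynomials of a tuple of shifts -/

open Finset Filter Topology Polynomial
open Pool.Agent.T2H32.BF (V V_pos V_anti V_ratio recip_le)
open Pool.Agent.H559.HY (Arr evl cls cls_eq_iff arr evl_arr rts rts_sub not_mem_rts box mem_box Sg Sg_mul split cmpA cmpB
  prodk card_le_p)
open Pool.Agent.W149.CS (comp_irred comp_natDegree comp_lc)

namespace Pool.Agent.H559.PV

/-- shifting the classes -/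
theorem shift_card (p t : ℕ) (S : Finset ℕ) (hS : S ⊆ range p) :
    ((range p).filter (fun m => (m + t) % p ∈ S)).card = S.card := by
  have h1 : Function.Periodic (fun m : ℕ => m % p ∈ S) p := by
    intro m
    simp only [Nat.add_mod_right]
  have h2 := Nat.filter_Ico_card_eq_of_periodic t p (fun m : ℕ => m % p ∈ S) h1
  have h3 : ((range p).filter (fun m => (m + t) % p ∈ S)).card = ((Ico t (t + p)).filter (fun m => m % p ∈ S)).card := by
    have e : Ico t (t + p) = (Ico 0 p).map (addRightEmbedding t) := by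
      rw [map_add_right_Ico, zero_add, add_comm]
    rw [e, filter_map, card_map, range_eq_Ico]
    rfl
  rw [h3, h2, Nat.count_eq_card_filter_range]
  congr 1
  ext m
  rw [mem_filter, mem_range]
  constructor
  · rintro ⟨h4, h5⟩
    rwa [Nat.mod_eq_of_lt h4] at h5
  · intro h4
    have h5 := mem_range.1 (hS h4)
    refine ⟨h5, ?_⟩
    rwa [Nat.mod_eq_of_lt h5]

variable {s : ℕ} (F : Fin s → Finset ℤ[X]) {κ : Type} [Fintype κ] [DecidableEq κ] (lab : κ → Fin s)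

/-- the indices of the polynomials of a tuple -/
abbrev Ix : Type := Σ ι : κ, {f // f ∈ F (lab ι)}

/-- their number -/
noncomputable def KK : ℕ := Fintype.card (Ix F lab)

theorem KK_eq : KK F lab = ∑ ι, (F (lab ι)).card := by
  unfold KK
  rw [Fintype.card_sigma]
  simp

/-- the index -/
noncomputable def ix (j : Fin (KK F lab)) : Ix F lab := (Fintype.equivFin (Ix F lab)).symm j

theorem ix_surj (a : Ix F lab) : ∃ j, ix F lab j = a :=
  ⟨Fintype.equivFin (Ix F lab) a, by unfold ix; rw [Equiv.symm_apply_apply]⟩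

theorem ix_inj : Function.Injective (ix F lab) := (Fintype.equivFin (Ix F lab)).symm.injective

theorem prod_ix (u : ℤ[X] → ℝ) : ∏ j, u (ix F lab j).2.1 = ∏ ι, ∏ f ∈ F (lab ι), u f := by
  have h1 : ∏ j, u (ix F lab j).2.1 = ∏ a : Ix F lab, u a.2.1 :=
    (Fintype.equivFin (Ix F lab)).symm.prod_comp (fun a : Ix F lab => u a.2.1)
  rw [h1, Fintype.prod_sigma]
  refine prod_congr rfl fun ι _ => ?_
  exact prod_coe_sort (F (lab ι)) u

/-- the polynomials of the tuple -/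
noncomputable def qq (h : κ → ℕ) (j : Fin (KK F lab)) : ℤ[X] :=
  (ix F lab j).2.1.comp (X + C ((h (ix F lab j).1 : ℕ) : ℤ))

theorem qq_eval (h : κ → ℕ) (j : Fin (KK F lab)) (m : ℤ) :
    (qq F lab h j).eval m = (ix F lab j).2.1.eval (m + (h (ix F lab j).1 : ℕ)) := by
  unfold qq
  rw [eval_comp]
  simp

theorem qq_deg (h : κ → ℕ) (j : Fin (KK F lab)) : (qq F lab h j).natDegree = (ix F lab j).2.1.natDegree :=
  comp_natDegree _ _

variable (D : ℕ)

/-- the array of the tuple -/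
noncomputable def ar (h : κ → ℕ) : Arr (KK F lab) D := arr D (qq F lab h)

/-- the classes of the tuple -/
noncomputable def Oh (h : κ → ℕ) (p : ℕ) : Finset ℕ := rts (ar F lab D h) p 0

variable (hD : ∀ i, ∀ f ∈ F i, f.natDegree ≤ D)

include hD in
theorem evl_ar (h : κ → ℕ) (j : Fin (KK F lab)) (m : ℕ) :
    evl (ar F lab D h j) m = (ix F lab j).2.1.eval ((m : ℤ) + (h (ix F lab j).1 : ℕ)) := by
  unfold ar
  rw [evl_arr D (qq F lab h) (fun j => by rw [qq_deg]; exact hD _ _ (ix F lab j).2.2), qq_eval]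

include hD in
theorem Oh_iff (h : κ → ℕ) (p : ℕ) (hp : p.Prime) (m : ℕ) :
    m % p ∉ Oh F lab D h p ↔ ∀ ι, (m + h ι) % p ∉ SZ (F (lab ι)) p := by
  unfold Oh
  rw [not_mem_rts _ p m 0 hp.pos]
  have e : ∀ j, cls (ar F lab D h) j p m ≠ 0 ↔ ¬ (p : ℤ) ∣ (ix F lab j).2.1.eval ((m : ℤ) + (h (ix F lab j).1 : ℕ)) := by
    intro j
    rw [Ne, cls_eq_iff _ j p m 0 hp.pos hp.pos, evl_ar F lab D hD, Nat.cast_zero, sub_zero]
  simp only [e]
  constructor
  · intro h1 ι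
    rw [mem_SZ _ _ _ hp.pos]
    rintro ⟨f, hf, h2⟩
    obtain ⟨j, hj⟩ := ix_surj F lab ⟨ι, ⟨f, hf⟩⟩
    have h3 := h1 j
    rw [hj] at h3
    apply h3
    push_cast at h2 ⊢
    exact h2
  · intro h1 j h2
    have h3 := h1 (ix F lab j).1
    rw [mem_SZ _ _ _ hp.pos] at h3
    apply h3
    refine ⟨(ix F lab j).2.1, (ix F lab j).2.2, ?_⟩
    push_cast
    exact h2

theorem Oh_sub (h : κ → ℕ) (p : ℕ) : Oh F lab D h p ⊆ range p := rts_sub _ _ _

/-- the shifted classes of one system -/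
def Sh (h : κ → ℕ) (ι : κ) (p : ℕ) : Finset ℕ := (range p).filter (fun m => (m + h ι) % p ∈ SZ (F (lab ι)) p)

include hD in
theorem Oh_union (h : κ → ℕ) (p : ℕ) (hp : p.Prime) : Oh F lab D h p = univ.biUnion (fun ι => Sh F lab h ι p) := by
  ext m
  rw [mem_biUnion]
  constructor
  · intro hm
    have h1 := mem_range.1 (Oh_sub F lab D h p hm)
    have h2 : ¬ (m % p ∉ Oh F lab D h p) := by
      rw [Nat.mod_eq_of_lt h1]
      exact fun h => h hm
    rw [Oh_iff F lab D hD h p hp] at h2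
    push Not at h2
    obtain ⟨ι, h3⟩ := h2
    exact ⟨ι, mem_univ _, mem_filter.2 ⟨mem_range.2 h1, h3⟩⟩
  · rintro ⟨ι, _, h1⟩
    unfold Sh at h1
    rw [mem_filter, mem_range] at h1
    by_contra hcon
    have h2 : m % p ∉ Oh F lab D h p := by rwa [Nat.mod_eq_of_lt h1.1]
    rw [Oh_iff F lab D hD h p hp] at h2
    exact h2 ι h1.2

theorem Sh_card (h : κ → ℕ) (ι : κ) (p : ℕ) : (Sh F lab h ι p).card = (SZ (F (lab ι)) p).card :=
  shift_card p (h ι) _ (SZ_sub _ _)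

include hD in
theorem Oh_le (h : κ → ℕ) (p : ℕ) (hp : p.Prime) : (Oh F lab D h p).card ≤ ∑ ι, (SZ (F (lab ι)) p).card := by
  rw [Oh_union F lab D hD h p hp]
  refine card_biUnion_le.trans (le_of_eq ?_)
  exact sum_congr rfl fun ι _ => Sh_card F lab h ι p

/-- a collision of the tuple modulo `p` -/
def Cl (h : κ → ℕ) (p : ℕ) : Prop := ∃ ι ι' : κ, ι ≠ ι' ∧ ∃ f ∈ F (lab ι), ∃ g ∈ F (lab ι'), ∃ x : ℤ,
  (p : ℤ) ∣ f.eval x ∧ (p : ℤ) ∣ g.eval (x + ((h ι' : ℤ) - h ι))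

include hD in
theorem Oh_eq (h : κ → ℕ) (p : ℕ) (hp : p.Prime) (hcl : ¬ Cl F lab h p) :
    (Oh F lab D h p).card = ∑ ι, (SZ (F (lab ι)) p).card := by
  rw [Oh_union F lab D hD h p hp, card_biUnion]
  · exact sum_congr rfl fun ι _ => Sh_card F lab h ι p
  · intro ι _ ι' _ hne
    rw [Function.onFun, disjoint_left]
    intro m h1 h2
    unfold Sh at h1 h2
    rw [mem_filter] at h1 h2
    obtain ⟨f, hf, hf2⟩ := (mem_SZ _ _ _ hp.pos).1 h1.2
    obtain ⟨g, hg, hg2⟩ := (mem_SZ _ _ _ hp.pos).1 h2.2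
    apply hcl
    refine ⟨ι, ι', hne, f, hf, g, hg, ((m + h ι : ℕ) : ℤ), hf2, ?_⟩
    have e : ((m + h ι : ℕ) : ℤ) + ((h ι' : ℤ) - h ι) = ((m + h ι' : ℕ) : ℤ) := by
      push_cast
      ring
    rw [e]
    exact hg2

/-- the separated tuples -/
def Sep (d0 : ℕ) (h : κ → ℕ) : Prop := ∀ ι ι' : κ, ι ≠ ι' → (d0 : ℤ) < |(h ι' : ℤ) - h ι|

open Classical in
/-- few primes have a collision -/
theorem Cl_card (d0 K E : ℕ) (hPD : ∀ i j, ∀ f ∈ F i, ∀ g ∈ F j, PD f g d0 K E) (Hm : ℕ)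
    (h : κ → ℕ) (hh : ∀ ι, h ι ≤ Hm) (hs : Sep d0 h) (S : Finset ℕ) (hS : ∀ p ∈ S, p.Prime ∧ Cl F lab h p) :
    (S.card : ℝ) ≤ (∑ ι, (F (lab ι)).card : ℕ) ^ 2 * ((Real.log (K + 1) + E * Real.log (1 + Hm)) / Real.log 2) := by
  have hl2 : 0 < Real.log 2 := Real.log_pos (by norm_num)
  have hHm : (0 : ℝ) ≤ Hm := Nat.cast_nonneg _
  have hKn : (0 : ℝ) ≤ K := Nat.cast_nonneg _
  have hB0 : 0 ≤ (Real.log (K + 1) + E * Real.log (1 + Hm)) / Real.log 2 := by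
    have h1 : 0 ≤ Real.log ((K : ℝ) + 1) := Real.log_nonneg (by linarith)
    have h2 : 0 ≤ Real.log (1 + (Hm : ℝ)) := Real.log_nonneg (by linarith)
    positivity
  -- the resultants
  have hR : ∀ q : Ix F lab × Ix F lab, ∃ R : ℤ, R ≠ 0 ∧ (q.1.1 ≠ q.2.1 →
      |(R : ℝ)| ≤ (K + 1) * (1 + Hm) ^ E ∧
      ∀ x p : ℤ, p ∣ q.1.2.1.eval x → p ∣ q.2.2.1.eval (x + ((h q.2.1 : ℤ) - h q.1.1)) → p ∣ R) := by
    intro q
    by_cases hq : q.1.1 = q.2.1
    · exact ⟨1, one_ne_zero, fun h' => absurd hq h'⟩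
    · obtain ⟨-, R, h1, h2, h3⟩ := hPD _ _ _ q.1.2.2 _ q.2.2.2 ((h q.2.1 : ℤ) - h q.1.1) (hs _ _ hq)
      refine ⟨R, h1, fun _ => ⟨h2.trans ?_, h3⟩⟩
      have h4 : |(((h q.2.1 : ℤ) - h q.1.1 : ℤ) : ℝ)| ≤ Hm := by
        push_cast
        have a1 : ((h q.2.1 : ℕ) : ℝ) ≤ Hm := by exact_mod_cast hh _
        have a2 : ((h q.1.1 : ℕ) : ℝ) ≤ Hm := by exact_mod_cast hh _
        have a3 : (0 : ℝ) ≤ ((h q.2.1 : ℕ) : ℝ) := Nat.cast_nonneg _
        have a4 : (0 : ℝ) ≤ ((h q.1.1 : ℕ) : ℝ) := Nat.cast_nonneg _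
        rw [abs_le]
        constructor <;> linarith
      gcongr
      linarith
  choose R hR0 hR1 using hR
  have hsub : S ⊆ ((univ : Finset (Ix F lab × Ix F lab)).filter (fun q => q.1.1 ≠ q.2.1)).biUnion
      (fun q => (R q).natAbs.primeFactors) := by
    intro p hp
    obtain ⟨hpp, ι, ι', hne, f, hf, g, hg, x, h1, h2⟩ := hS p hp
    rw [mem_biUnion]
    refine ⟨(⟨ι, ⟨f, hf⟩⟩, ⟨ι', ⟨g, hg⟩⟩), mem_filter.2 ⟨mem_univ _, hne⟩, ?_⟩
    rw [Nat.mem_primeFactors]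
    refine ⟨hpp, ?_, Int.natAbs_ne_zero.2 (hR0 _)⟩
    exact Int.natCast_dvd.1 ((hR1 (⟨ι, ⟨f, hf⟩⟩, ⟨ι', ⟨g, hg⟩⟩) hne).2 x p h1 h2)
  have h1 : (S.card : ℝ) ≤ ∑ q ∈ (univ : Finset (Ix F lab × Ix F lab)).filter (fun q => q.1.1 ≠ q.2.1),
      ((R q).natAbs.primeFactors.card : ℝ) := by
    exact_mod_cast (card_le_card hsub).trans card_biUnion_le
  have h2 : ∀ q ∈ (univ : Finset (Ix F lab × Ix F lab)).filter (fun q => q.1.1 ≠ q.2.1),
      ((R q).natAbs.primeFactors.card : ℝ) ≤ (Real.log (K + 1) + E * Real.log (1 + Hm)) / Real.log 2 := by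
    intro q hq
    rw [mem_filter] at hq
    rw [le_div_iff₀ hl2]
    have h3 : (R q).natAbs ≠ 0 := Int.natAbs_ne_zero.2 (hR0 q)
    refine (card_pf _ h3).trans ?_
    have h4 : (((R q).natAbs : ℕ) : ℝ) ≤ (K + 1) * (1 + Hm) ^ E := by
      rw [Nat.cast_natAbs, Int.cast_abs]
      exact (hR1 q hq.2).1
    have h5 := Real.log_le_log (by exact_mod_cast Nat.pos_of_ne_zero h3) h4
    rwa [Real.log_mul (by positivity) (by positivity), Real.log_pow] at h5
  refine h1.trans ((sum_le_sum h2).trans ?_)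
  rw [sum_const, nsmul_eq_mul]
  refine mul_le_mul_of_nonneg_right ?_ hB0
  have h3 := card_filter_le (univ : Finset (Ix F lab × Ix F lab)) (fun q => q.1.1 ≠ q.2.1)
  have h4 : (univ : Finset (Ix F lab × Ix F lab)).card = (∑ ι, (F (lab ι)).card) ^ 2 := by
    rw [card_univ, Fintype.card_prod, ← sq]
    congr 1
    exact KK_eq F lab
  rw [h4] at h3
  exact_mod_cast h3

end Pool.Agent.H559.PV
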