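import Pool.Agent.H559.PV.SgT

set_option autoImplicit false

/-! # The average of the singular series of the tuples -/

open Finset Filter Topology Polynomial
open Pool.Agent.T2H32.BF (V V_pos V_anti V_ratio recip_le mertens)
open Pool.Agent.H559.BS (g g_pos log_top)
open Pool.Agent.H559.HY (Arr evl arr evl_arr rts rts_sub zero_count box mem_box Sg Sg_mul Sg_nonneg split cmpA cmpB prodk
  card_le_p CF omF WW WW_top no_common rho_conv)
open Pool.Agent.H474R2.PG (rho)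

namespace Pool.Agent.H559.PV

/-- the densities of one system -/
theorem CF_den (G : Finset ℤ[X]) (T : ℕ) : CF G T = den (SZ G) T / V T ^ G.card := by
  unfold CF den V
  rw [← prod_pow, ← prod_div_distrib]
  refine prod_congr rfl fun p hp => ?_
  rw [SZ_omF G p (mem_filter.1 hp).2]

theorem SZ_rho (G : Finset ℤ[X]) (hG : ∀ f ∈ G, GP f) : ∃ B : ℕ, ∀ p : ℕ, p.Prime → B < p →
    (SZ G p).card = ∑ f ∈ G, rho f p := by
  classical
  have h0 : ∀ q : ℤ[X] × ℤ[X], ∃ B : ℕ, q.1 ∈ G → q.2 ∈ G → q.1 ≠ q.2 → ∀ p : ℕ, p.Prime → B < p → ∀ x : ℤ,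
      (p : ℤ) ∣ q.1.eval x → ¬ (p : ℤ) ∣ q.2.eval x := by
    intro q
    by_cases h : q.1 ∈ G ∧ q.2 ∈ G ∧ q.1 ≠ q.2
    · have g1 := hG _ h.1
      have g2 := hG _ h.2.1
      obtain ⟨B, hB⟩ := no_common q.1 q.2 g1.irr g2.irr g1.deg g2.deg h.2.2 (by
        intro h3
        have h4 := congrArg Polynomial.leadingCoeff h3
        rw [leadingCoeff_neg] at h4
        have := g1.lead
        have := g2.lead
        omega)
      exact ⟨B, fun _ _ _ => hB⟩
    · exact ⟨0, fun h1 h2 h3 => absurd ⟨h1, h2, h3⟩ h⟩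
  choose B hB using h0
  refine ⟨∑ q ∈ G ×ˢ G, B q, fun p hp hpB => ?_⟩
  have e : SZ G p = G.biUnion (fun f => (range p).filter (fun a : ℕ => (p : ℤ) ∣ f.eval (a : ℤ))) := by
    ext m
    unfold SZ
    simp only [mem_filter, mem_biUnion]
    constructor
    · rintro ⟨h1, f, h2, h3⟩
      exact ⟨f, h2, h1, h3⟩
    · rintro ⟨f, h2, h1, h3⟩
      exact ⟨h1, f, h2, h3⟩
  rw [e, card_biUnion]
  · rfl
  · intro f hf g hg hfg
    rw [Function.onFun, disjoint_left]
    intro m h1 h2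
    rw [mem_filter] at h1 h2
    have h3 : B (f, g) ≤ ∑ q ∈ G ×ˢ G, B q :=
      single_le_sum (f := B) (fun _ _ => Nat.zero_le _) (mem_product.2 ⟨hf, hg⟩)
    exact hB (f, g) hf hg hfg p hp (by omega) m h1.2 h2.2

variable {s : ℕ} (F : Fin s → Finset ℤ[X])

theorem sd_small (hG : ∀ i, ∀ f ∈ F i, GP f) (i : Fin s) (ε : ℝ) (hε : 0 < ε) :
    ∃ u0 : ℕ, ∀ u v : ℕ, u0 ≤ u → u ≤ v → |sd F i u v| ≤ ε := by
  classical
  obtain ⟨B, hB⟩ := SZ_rho (F i) (hG i)
  have h0 : ∀ f : ℤ[X], ∃ L : ℝ, f ∈ F i →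
      Tendsto (fun N : ℕ => ∑ p ∈ (Ioc 1 N).filter Nat.Prime, ((rho f p : ℝ) - 1) / p) atTop (𝓝 L) := by
    intro f
    by_cases h : f ∈ F i
    · obtain ⟨L, hL⟩ := rho_conv f (hG i f h).irr (hG i f h).deg
      exact ⟨L, fun _ => hL⟩
    · exact ⟨0, fun h' => absurd h' h⟩
  choose L hL using h0
  have hT : Tendsto (fun N : ℕ => ∑ f ∈ F i, ∑ p ∈ (Ioc 1 N).filter Nat.Prime, ((rho f p : ℝ) - 1) / p) atTop
      (𝓝 (∑ f ∈ F i, L f)) := tendsto_finsetSum _ fun f hf => hL f hf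
  rw [Metric.tendsto_atTop] at hT
  obtain ⟨N, hN⟩ := hT (ε / 2) (by positivity)
  refine ⟨max (max B N) 1, fun u v hu huv => ?_⟩
  have hu1 : B ≤ u := (le_max_left _ _).trans ((le_max_left _ _).trans hu)
  have hu2 : N ≤ u := (le_max_right _ _).trans ((le_max_left _ _).trans hu)
  have hu3 : 1 ≤ u := (le_max_right _ _).trans hu
  have e : sd F i u v = ∑ f ∈ F i, ∑ p ∈ (Ioc 1 v).filter Nat.Prime, ((rho f p : ℝ) - 1) / p -
      ∑ f ∈ F i, ∑ p ∈ (Ioc 1 u).filter Nat.Prime, ((rho f p : ℝ) - 1) / p := by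
    rw [← sum_sub_distrib]
    have e1 : ∀ f ∈ F i, ∑ p ∈ (Ioc 1 v).filter Nat.Prime, ((rho f p : ℝ) - 1) / p -
        ∑ p ∈ (Ioc 1 u).filter Nat.Prime, ((rho f p : ℝ) - 1) / p =
        ∑ p ∈ (Ioc u v).filter Nat.Prime, ((rho f p : ℝ) - 1) / p := by
      intro f _
      have e2 : (Ioc 1 v).filter Nat.Prime = (Ioc 1 u).filter Nat.Prime ∪ (Ioc u v).filter Nat.Prime := by
        rw [← filter_union]
        congr 1
        ext n
        simp only [mem_union, mem_Ioc]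
        omega
      have e3 : Disjoint ((Ioc 1 u).filter Nat.Prime) ((Ioc u v).filter Nat.Prime) := by
        refine disjoint_filter_filter ?_
        rw [disjoint_left]
        intro n h1 h2
        rw [mem_Ioc] at h1 h2
        omega
      rw [e2, sum_union e3, add_sub_cancel_left]
    rw [sum_congr rfl e1, sum_comm]
    unfold sd
    refine sum_congr rfl fun p hp => ?_
    rw [mem_filter, mem_Ioc] at hp
    rw [hB p hp.2 (by omega), ← sum_div, sum_sub_distrib]
    simp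
  have h1 := hN u hu2
  have h2 := hN v (hu2.trans huv)
  rw [Real.dist_eq, abs_lt] at h1 h2
  rw [e, abs_le]
  constructor <;> linarith [h1.1, h1.2, h2.1, h2.2]

theorem Tpow (c' : ℝ) (hc' : 0 < c') (N : ℕ) (A1 : ℝ) (hA1 : 0 ≤ A1) (h : c' * N ≤ 1 / 2) :
    ∀ᶠ x : ℕ in atTop, A1 * ((WW c' x : ℝ) + 1) ^ N ≤ Real.log x := by
  have h1 : Tendsto (fun x : ℕ => Real.log x ^ (1 / 2 : ℝ)) atTop atTop :=
    (tendsto_rpow_atTop (by norm_num)).comp log_top
  filter_upwards [log_top.eventually_ge_atTop 1, h1.eventually_ge_atTop (A1 * 2 ^ N)] with x h2 h3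
  have h4 : (WW c' x : ℝ) ≤ Real.log x ^ c' := Nat.floor_le (by positivity)
  have h5 : (1 : ℝ) ≤ Real.log x ^ c' := Real.one_le_rpow h2 hc'.le
  have h0 : 0 ≤ Real.log x := by linarith
  calc A1 * ((WW c' x : ℝ) + 1) ^ N ≤ A1 * (2 * Real.log x ^ c') ^ N := by
        gcongr
        linarith
    _ = A1 * 2 ^ N * Real.log x ^ (c' * N) := by
        rw [mul_pow, Real.rpow_mul h0, Real.rpow_natCast]
        ring
    _ ≤ Real.log x ^ (1 / 2 : ℝ) * Real.log x ^ (1 / 2 : ℝ) := by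
        gcongr
    _ = Real.log x := by
        rw [← Real.rpow_add (by linarith)]
        norm_num

variable {κ : Type} [Fintype κ] [DecidableEq κ]

open Classical in
/-- few tuples are not separated -/
theorem nonsep (d0 : ℕ) (lo l : κ → ℕ) (m : ℝ) (hm : 0 < m) (hl : ∀ ι, m ≤ l ι) :
    (((Fintype.piFinset (fun ι => Ioc (lo ι) (lo ι + l ι))).filter (fun h => ¬ Sep d0 h)).card : ℝ) ≤
      (Fintype.card κ) ^ 2 * (2 * d0 + 1) * (∏ ι, (l ι : ℝ)) / m := by
  set HH := Fintype.piFinset (fun ι => Ioc (lo ι) (lo ι + l ι)) with hHH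
  -- one pair and one difference
  have h1 : ∀ (q : κ × κ) (δ : ℤ), q.1 ≠ q.2 →
      ((HH.filter (fun h => (h q.2 : ℤ) - h q.1 = δ)).card : ℝ) * m ≤ ∏ ι, (l ι : ℝ) := by
    intro q δ hq
    have h2 : (HH.filter (fun h => (h q.2 : ℤ) - h q.1 = δ)).card ≤
        (Fintype.piFinset (fun ι => if ι = q.2 then ({0} : Finset ℕ) else Ioc (lo ι) (lo ι + l ι))).card := by
      refine card_le_card_of_injOn (fun h => Function.update h q.2 0) ?_ ?_
      · intro h hh
        rw [mem_coe, mem_filter, hHH, Fintype.mem_piFinset] at hh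
        rw [mem_coe, Fintype.mem_piFinset]
        intro ι
        by_cases hι : ι = q.2
        · rw [if_pos hι, hι]
          simp
        · rw [if_neg hι]
          show Function.update h q.2 0 ι ∈ _
          rw [Function.update_of_ne hι]
          exact hh.1 ι
      · intro h hh h' hh' he
        rw [mem_coe, mem_filter] at hh hh'
        have he' : ∀ ι, Function.update h q.2 0 ι = Function.update h' q.2 0 ι := fun ι => congrFun he ι
        have h3 : ∀ ι, ι ≠ q.2 → h ι = h' ι := by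
          intro ι hι
          have := he' ι
          rwa [Function.update_of_ne hι, Function.update_of_ne hι] at this
        funext ι
        by_cases hι : ι = q.2
        · have h4 := h3 q.1 hq
          rw [hι]
          have h5 := hh.2
          have h6 := hh'.2
          rw [h4] at h5
          omega
        · exact h3 ι hι
    rw [Fintype.card_piFinset] at h2
    have h3 : (∏ ι, ((if ι = q.2 then ({0} : Finset ℕ) else Ioc (lo ι) (lo ι + l ι)).card : ℝ)) * m ≤ ∏ ι, (l ι : ℝ) := by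
      rw [← mul_prod_erase univ _ (mem_univ q.2), ← mul_prod_erase univ (fun ι => (l ι : ℝ)) (mem_univ q.2)]
      have h4 : ∏ ι ∈ univ.erase q.2, ((if ι = q.2 then ({0} : Finset ℕ) else Ioc (lo ι) (lo ι + l ι)).card : ℝ) =
          ∏ ι ∈ univ.erase q.2, (l ι : ℝ) := by
        refine prod_congr rfl fun ι hι => ?_
        rw [if_neg (ne_of_mem_erase hι), Nat.card_Ioc]
        congr 1
        omega
      rw [h4, if_pos rfl, card_singleton, Nat.cast_one, one_mul, mul_comm]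
      exact mul_le_mul_of_nonneg_right (hl q.2) (prod_nonneg fun _ _ => Nat.cast_nonneg _)
    refine le_trans (mul_le_mul_of_nonneg_right ?_ hm.le) h3
    exact_mod_cast h2
  have hsub : HH.filter (fun h => ¬ Sep d0 h) ⊆ ((univ : Finset (κ × κ)).filter (fun q => q.1 ≠ q.2)).biUnion (fun q =>
      (Icc (-(d0 : ℤ)) d0).biUnion (fun δ => HH.filter (fun h => (h q.2 : ℤ) - h q.1 = δ))) := by
    intro h hh
    rw [mem_filter] at hh
    have h2 := hh.2
    unfold Sep at h2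
    push Not at h2
    obtain ⟨ι, ι', hne, h3⟩ := h2
    rw [mem_biUnion]
    refine ⟨(ι, ι'), mem_filter.2 ⟨mem_univ _, hne⟩, ?_⟩
    rw [mem_biUnion]
    refine ⟨(h ι' : ℤ) - h ι, ?_, mem_filter.2 ⟨hh.1, rfl⟩⟩
    rw [mem_Icc]
    exact abs_le.1 h3
  have h2 : ((HH.filter (fun h => ¬ Sep d0 h)).card : ℝ) ≤ ∑ q ∈ (univ : Finset (κ × κ)).filter (fun q => q.1 ≠ q.2),
      ∑ δ ∈ Icc (-(d0 : ℤ)) d0, ((HH.filter (fun h => (h q.2 : ℤ) - h q.1 = δ)).card : ℝ) := by
    have h3 := (card_le_card hsub).trans (card_biUnion_le.trans (sum_le_sum fun q _ => card_biUnion_le))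
    exact_mod_cast h3
  have hP0 : 0 ≤ ∏ ι, (l ι : ℝ) := prod_nonneg fun _ _ => Nat.cast_nonneg _
  have h3 : ∑ q ∈ (univ : Finset (κ × κ)).filter (fun q => q.1 ≠ q.2),
      ∑ δ ∈ Icc (-(d0 : ℤ)) d0, ((HH.filter (fun h => (h q.2 : ℤ) - h q.1 = δ)).card : ℝ) ≤
      ∑ _q ∈ (univ : Finset (κ × κ)).filter (fun q => q.1 ≠ q.2), ∑ _δ ∈ Icc (-(d0 : ℤ)) d0, (∏ ι, (l ι : ℝ)) / m := by
    refine sum_le_sum fun q hq => sum_le_sum fun δ _ => ?_
    rw [le_div_iff₀ hm]
    exact h1 q δ (mem_filter.1 hq).2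
  refine h2.trans (h3.trans ?_)
  rw [sum_const, sum_const, Int.card_Icc, nsmul_eq_mul, nsmul_eq_mul]
  have h4 : (((univ : Finset (κ × κ)).filter (fun q => q.1 ≠ q.2)).card : ℝ) ≤ (Fintype.card κ) ^ 2 := by
    have h5 := card_filter_le (univ : Finset (κ × κ)) (fun q => q.1 ≠ q.2)
    rw [card_univ, Fintype.card_prod, ← sq] at h5
    exact_mod_cast h5
  have h5 : (((d0 : ℤ) + 1 - -(d0 : ℤ)).toNat : ℝ) = 2 * d0 + 1 := by
    have : ((d0 : ℤ) + 1 - -(d0 : ℤ)).toNat = 2 * d0 + 1 := by omega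
    rw [this]
    push_cast
    rfl
  rw [h5]
  calc (((univ : Finset (κ × κ)).filter (fun q => q.1 ≠ q.2)).card : ℝ) * ((2 * d0 + 1) * ((∏ ι, (l ι : ℝ)) / m)) ≤
        (Fintype.card κ) ^ 2 * ((2 * d0 + 1) * ((∏ ι, (l ι : ℝ)) / m)) := by gcongr
    _ = _ := by ring

end Pool.Agent.H559.PV
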