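import Pool.Agent.H559.PV.SgA

set_option autoImplicit false

/-! # The average of the singular series: the limit -/

open Finset Filter Topology Polynomial
open Pool.Agent.T2H32.BF (V V_pos V_anti V_ratio recip_le mertens)
open Pool.Agent.H559.BS (g g_pos log_top)
open Pool.Agent.H559.HY (Arr Sg Sg_nonneg CF WW WW_top)

namespace Pool.Agent.H559.PV

variable {s : ℕ} (F : Fin s → Finset ℤ[X]) {κ : Type} [Fintype κ] [DecidableEq κ] (lab : κ → Fin s) (D : ℕ)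

open Classical in
/-- the separated tuples of shifts -/
noncomputable def HS (d0 : ℕ) (lo l : κ → ℕ) : Finset (κ → ℕ) :=
  (Fintype.piFinset (fun ι => Ioc (lo ι) (lo ι + l ι))).filter (fun h => Sep d0 h)

theorem T_top (c' : ℝ) (hc' : 0 < c') : Tendsto (fun x : ℕ => WW c' x) atTop atTop :=
  WW_top c' hc' (fun x => x) 1 one_pos (by
    refine tendsto_const_nhds.congr' ?_
    filter_upwards [log_top.eventually_ge_atTop 1] with x hx
    rw [div_self (by linarith)])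

theorem nb_lim (c' : ℝ) (hc' : 0 < c') (K E E1 : ℕ) : Tendsto (fun x : ℕ => (Real.log ((K : ℝ) + 1) +
    E * Real.log (1 + Real.log x ^ E1)) / (WW c' x : ℝ)) atTop (𝓝 0) := by
  have h1 : Tendsto (fun y : ℝ => 2 * ((Real.log ((K : ℝ) + 1) + E * Real.log 2) * (y ^ c')⁻¹ +
      E * E1 * (Real.log y / y ^ c'))) atTop (𝓝 (2 * ((Real.log ((K : ℝ) + 1) + E * Real.log 2) * 0 + E * E1 * 0))) := by
    refine Tendsto.const_mul _ (Tendsto.add (Tendsto.const_mul _ ?_) (Tendsto.const_mul _ ?_))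
    · exact tendsto_inv_atTop_zero.comp (tendsto_rpow_atTop hc')
    · exact (isLittleO_log_rpow_atTop hc').tendsto_div_nhds_zero
  have h2 := h1.comp log_top
  have e0 : 2 * ((Real.log ((K : ℝ) + 1) + E * Real.log 2) * 0 + (E : ℝ) * E1 * 0) = 0 := by ring
  rw [e0] at h2
  refine tendsto_of_tendsto_of_tendsto_of_le_of_le' tendsto_const_nhds h2 ?_ ?_
  · filter_upwards [log_top.eventually_ge_atTop 1] with x hx
    have h3 : 0 ≤ Real.log ((K : ℝ) + 1) := Real.log_nonneg (by linarith [(Nat.cast_nonneg K : (0 : ℝ) ≤ K)])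
    have h4 : 0 ≤ Real.log (1 + Real.log x ^ E1) := by
      refine Real.log_nonneg ?_
      have : 0 ≤ Real.log x ^ E1 := by positivity
      linarith
    positivity
  · have h5 : Tendsto (fun x : ℕ => Real.log x ^ c') atTop atTop := (tendsto_rpow_atTop hc').comp log_top
    filter_upwards [log_top.eventually_ge_atTop 1, h5.eventually_ge_atTop 2] with x hx hx2
    simp only [Function.comp_apply]
    set y := Real.log x with hy
    have h3 : 0 ≤ Real.log ((K : ℝ) + 1) := Real.log_nonneg (by linarith [(Nat.cast_nonneg K : (0 : ℝ) ≤ K)])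
    have h4 : y ^ c' / 2 ≤ (WW c' x : ℝ) := by
      have := Nat.lt_floor_add_one (y ^ c')
      unfold WW
      linarith
    have h6 : Real.log (1 + y ^ E1) ≤ Real.log 2 + E1 * Real.log y := by
      have h7 : 1 + y ^ E1 ≤ 2 * y ^ E1 := by
        have : 1 ≤ y ^ E1 := one_le_pow₀ hx
        linarith
      have h8 := Real.log_le_log (by positivity) h7
      rwa [Real.log_mul (by norm_num) (by positivity), Real.log_pow] at h8
    have h7 : 0 ≤ Real.log y := Real.log_nonneg hx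
    have hE : (0 : ℝ) ≤ E := Nat.cast_nonneg _
    have h8 : Real.log ((K : ℝ) + 1) + E * Real.log (1 + y ^ E1) ≤
        Real.log ((K : ℝ) + 1) + E * (Real.log 2 + E1 * Real.log y) := by gcongr
    have h9 : 0 ≤ Real.log ((K : ℝ) + 1) + E * (Real.log 2 + E1 * Real.log y) := by positivity
    calc (Real.log ((K : ℝ) + 1) + E * Real.log (1 + y ^ E1)) / (WW c' x : ℝ) ≤
          (Real.log ((K : ℝ) + 1) + E * (Real.log 2 + E1 * Real.log y)) / (y ^ c' / 2) := by gcongr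
      _ = _ := by
          field_simp
          ring

variable (hD : ∀ i, ∀ f ∈ F i, f.natDegree ≤ D) (hG : ∀ i, ∀ f ∈ F i, GP f)

include hD hG in
theorem sg_eps (C : Fin s → ℝ) (hC : ∀ i, Tendsto (CF (F i)) atTop (𝓝 (C i))) (hC0 : ∀ i, 0 < C i)
    (d0 K0 E0 : ℕ) (hPD : ∀ i j, ∀ f ∈ F i, ∀ g ∈ F j, PD f g d0 K0 E0) (lo l : κ → ℕ → ℕ) (c1 : ℝ) (hc1 : 0 < c1)
    (hl1 : ∀ ι, ∀ᶠ x : ℕ in atTop, c1 * Real.log x ≤ l ι x) (E1 : ℕ)
    (hl2 : ∀ ι, ∀ᶠ x : ℕ in atTop, ((lo ι x + l ι x : ℕ) : ℝ) ≤ Real.log x ^ E1) (w : ℕ → ℕ)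
    (hw : ∀ c' : ℝ, 0 < c' → c' ≤ 1 / 2 → ∀ᶠ x : ℕ in atTop, WW c' x ≤ w x) (ε : ℝ) (hε : 0 < ε) (hε1 : ε ≤ 1 / 4) :
    ∃ c' : ℝ, 0 < c' ∧ ∀ᶠ x : ℕ in atTop,
      Real.exp (-ε) * ((1 - 2 * ε) ^ Fintype.card κ / (1 + ε) - ε) * ((∏ ι, CF (F (lab ι)) (WW c' x)) * ∏ ι, (l ι x : ℝ)) ≤
        ∑ h ∈ HS d0 (fun ι => lo ι x) (fun ι => l ι x), Sg (ar F lab D h) (w x) ∧
      ∑ h ∈ HS d0 (fun ι => lo ι x) (fun ι => l ι x), Sg (ar F lab D h) (w x) ≤
        Real.exp ε * ((1 + 2 * ε) ^ Fintype.card κ / (1 - ε)) * ((∏ ι, CF (F (lab ι)) (WW c' x)) * ∏ ι, (l ι x : ℝ)) := by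
  classical
  set n := Fintype.card κ with hn
  set K := KK F lab with hK
  set κ₀ : ℕ := PP F + K * D + ∑ i, (F i).card * D with hκ₀
  obtain ⟨B, Kf, hKf, havg⟩ := avg κ₀ ε hε (by linarith)
  set c' : ℝ := 1 / (2 * ((B : ℝ) + K + 1)) with hc'd
  have hBn : (0 : ℝ) ≤ B := Nat.cast_nonneg _
  have hKn : (0 : ℝ) ≤ K := Nat.cast_nonneg _
  have hc' : 0 < c' := by positivity
  have hc2 : c' ≤ 1 / 2 := by
    rw [hc'd]
    refine one_div_le_one_div_of_le (by norm_num) ?_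
    linarith
  have hcN : c' * ((B + K : ℕ) : ℝ) ≤ 1 / 2 := by
    rw [hc'd, one_div_mul_eq_div, div_le_div_iff₀ (by positivity) (by norm_num)]
    push_cast
    linarith
  have hcK : c' * ((K : ℕ) : ℝ) ≤ 1 / 2 := by
    refine le_trans ?_ hcN
    gcongr
    push_cast
    linarith
  refine ⟨c', hc', ?_⟩
  have hg := g_pos
  have hTt := T_top c' hc'
  -- lower bounds for the densities
  set bb : Fin s → ℝ := fun i => (C i / 2) * (g / 2) ^ (F i).card with hbb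
  have hbb0 : ∀ i, 0 < bb i := fun i => by
    have := hC0 i
    rw [hbb]
    positivity
  have hVT : ∀ᶠ x : ℕ in atTop, (g / 2) / ((WW c' x : ℝ) + 1) ≤ V (WW c' x) := by
    have h1 := mertens.comp hTt
    filter_upwards [h1.eventually_const_lt (show g / 2 < g by linarith), hTt.eventually_ge_atTop 2] with x h2 h3
    simp only [Function.comp_apply] at h2
    have h4 : (2 : ℝ) ≤ WW c' x := by exact_mod_cast h3
    have h5 : 0 < Real.log (WW c' x) := Real.log_pos (by linarith)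
    have h6 : Real.log (WW c' x) ≤ (WW c' x : ℝ) + 1 := by
      have := Real.log_le_sub_one_of_pos (show (0 : ℝ) < WW c' x by linarith)
      linarith
    have h7 := V_pos (WW c' x)
    rw [div_le_iff₀ (by linarith)]
    nlinarith
  have hden : ∀ᶠ x : ℕ in atTop, ∀ i, bb i / ((WW c' x : ℝ) + 1) ^ (F i).card ≤ den (SZ (F i)) (WW c' x) := by
    have h1 : ∀ᶠ x : ℕ in atTop, ∀ i, C i / 2 < CF (F i) (WW c' x) := by
      refine eventually_all.2 fun i => ?_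
      exact ((hC i).comp hTt).eventually_const_lt (by have := hC0 i; linarith)
    filter_upwards [h1, hVT] with x h2 h3 i
    have h4 := h2 i
    rw [CF_den, lt_div_iff₀ (pow_pos (V_pos _) _)] at h4
    refine le_trans ?_ h4.le
    have h5 := pow_le_pow_left₀ (by positivity) h3 (F i).card
    rw [div_pow] at h5
    have h6 := hC0 i
    calc bb i / ((WW c' x : ℝ) + 1) ^ (F i).card = C i / 2 * ((g / 2) ^ (F i).card / ((WW c' x : ℝ) + 1) ^ (F i).card) := by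
          rw [hbb]
          ring
      _ ≤ _ := by gcongr
  -- the eventual inequalities
  have hP1 : ∀ᶠ x : ℕ in atTop, ∀ ι : κ, Kf / (ε * c1 * bb (lab ι)) * ((WW c' x : ℝ) + 1) ^ (B + K) ≤ Real.log x := by
    refine eventually_all.2 fun ι => ?_
    have := hbb0 (lab ι)
    exact Tpow c' hc' (B + K) _ (by positivity) hcN
  have hbprod : 0 < ∏ ι, bb (lab ι) := prod_pos fun ι _ => hbb0 _
  have hP2 : ∀ᶠ x : ℕ in atTop, (n : ℝ) ^ 2 * (2 * d0 + 1) / (ε * c1 * ∏ ι, bb (lab ι)) * ((WW c' x : ℝ) + 1) ^ K ≤ Real.log x :=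
    Tpow c' hc' K _ (by positivity) hcK
  have hsd : ∀ᶠ x : ℕ in atTop, ∀ ι, |sd F (lab ι) (WW c' x) (w x)| ≤ ε / (4 * (n + 1)) := by
    refine eventually_all.2 fun ι => ?_
    obtain ⟨u0, hu0⟩ := sd_small F hG (lab ι) (ε / (4 * (n + 1))) (by positivity)
    filter_upwards [hTt.eventually_ge_atTop u0, hw c' hc' hc2] with x h1 h2 using hu0 _ _ h1 h2
  have hnb : ∀ᶠ x : ℕ in atTop, (K : ℝ) * D * (K ^ 2 / Real.log 2) * ((Real.log ((K0 : ℝ) + 1) +
      E0 * Real.log (1 + Real.log x ^ E1)) / (WW c' x : ℝ)) ≤ ε / 4 := by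
    have h1 := (nb_lim c' hc' K0 E0 E1).const_mul ((K : ℝ) * D * (K ^ 2 / Real.log 2))
    rw [mul_zero] at h1
    filter_upwards [h1.eventually_lt_const (show 0 < ε / 4 by positivity)] with x hx using hx.le
  have hu2 : ∀ᶠ x : ℕ in atTop, 2 * ((K : ℝ) * D + K + 1) ^ 2 / (WW c' x : ℝ) ≤ ε / 4 := by
    have h1 : Tendsto (fun x : ℕ => 2 * ((K : ℝ) * D + K + 1) ^ 2 / (WW c' x : ℝ)) atTop (𝓝 0) :=
      tendsto_const_nhds.div_atTop (tendsto_natCast_atTop_atTop.comp hTt)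
    filter_upwards [h1.eventually_lt_const (show 0 < ε / 4 by positivity)] with x hx using hx.le
  filter_upwards [hden, hP1, hP2, hsd, hnb, hu2, eventually_all.2 hl1, eventually_all.2 hl2, hw c' hc' hc2,
    hTt.eventually_ge_atTop (max (PP F + 1) (2 * (K * D + K))), log_top.eventually_ge_atTop 1]
    with x h1 h2 h3 h4 h5 h6 h7 h8 h9 h10 h11
  set T := WW c' x with hT
  set L := Real.log x with hL
  have hT0 : (0 : ℝ) ≤ T := Nat.cast_nonneg _
  have hT1 : (1 : ℝ) ≤ (T : ℝ) + 1 := by linarith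
  have hTP : PP F + 1 ≤ T := (le_max_left _ _).trans h10
  have hTK : 2 * (K * D + K) ≤ T := (le_max_right _ _).trans h10
  have hTpos : (0 : ℝ) < T := by exact_mod_cast (show 0 < T by omega)
  have hL0 : 0 < L := by linarith
  set ρ : κ → ℝ := fun ι => den (SZ (F (lab ι))) T with hρ
  have hρ0 : ∀ ι, 0 ≤ ρ ι := fun ι => den_nonneg _ _ fun p _ _ => SZ_sub _ _
  have hkK : ∀ ι, (F (lab ι)).card ≤ K := by
    intro ι
    rw [hK, KK_eq]
    exact single_le_sum (f := fun ι => (F (lab ι)).card) (fun _ _ => Nat.zero_le _) (mem_univ ι)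
  -- `E ≤ ε l ρ`
  have hE : ∀ ι, Kf * ((T : ℝ) + 1) ^ B ≤ ε * (l ι x * ρ ι) := by
    intro ι
    have a1 := h1 (lab ι)
    have a2 := h2 ι
    have a3 := h7 ι
    have a4 := hbb0 (lab ι)
    have a5 : ((T : ℝ) + 1) ^ (B + (F (lab ι)).card) ≤ ((T : ℝ) + 1) ^ (B + K) := pow_le_pow_right₀ hT1 (by have := hkK ι; omega)
    have a6 : 0 < ((T : ℝ) + 1) ^ (F (lab ι)).card := by positivity
    rw [div_le_iff₀ a6] at a1
    rw [div_mul_eq_mul_div, div_le_iff₀ (by positivity)] at a2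
    have a7 : Kf * ((T : ℝ) + 1) ^ B * ((T : ℝ) + 1) ^ (F (lab ι)).card ≤
        ε * (l ι x * ρ ι) * ((T : ℝ) + 1) ^ (F (lab ι)).card := by
      calc Kf * ((T : ℝ) + 1) ^ B * ((T : ℝ) + 1) ^ (F (lab ι)).card = Kf * ((T : ℝ) + 1) ^ (B + (F (lab ι)).card) := by
            rw [pow_add]
            ring
        _ ≤ Kf * ((T : ℝ) + 1) ^ (B + K) := by gcongr
        _ ≤ L * (ε * c1 * bb (lab ι)) := a2
        _ = ε * (c1 * L) * bb (lab ι) := by ring
        _ ≤ ε * (l ι x) * (ρ ι * ((T : ℝ) + 1) ^ (F (lab ι)).card) := by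
            refine mul_le_mul (by gcongr) a1 a4.le (by positivity)
        _ = _ := by ring
    exact le_of_mul_le_mul_right a7 a6
  have hS : ∀ ι : κ, ∀ p ≤ T, p.Prime → SZ (F (lab ι)) p ⊆ range p ∧ (SZ (F (lab ι)) p).card ≤ κ₀ := by
    intro ι p _ hp
    refine ⟨SZ_sub _ _, ?_⟩
    by_cases hpP : PP F < p
    · have b1 := SZ_card F D hD hG (lab ι) p hp hpP
      have b2 : (F (lab ι)).card * D ≤ ∑ i, (F i).card * D :=
        single_le_sum (f := fun i => (F i).card * D) (fun _ _ => Nat.zero_le _) (mem_univ (lab ι))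
      omega
    · have b1 := card_le_card (SZ_sub (F (lab ι)) p)
      rw [card_range] at b1
      omega
  have hO : ∀ h : κ → ℕ, ∀ p ≤ T, p.Prime → Oh F lab D h p ⊆ range p ∧ (Oh F lab D h p).card ≤ κ₀ := by
    intro h p _ hp
    refine ⟨Oh_sub F lab D h p, ?_⟩
    by_cases hpP : PP F < p
    · have b1 : (Oh F lab D h p).card ≤ K * D := Oh_card F lab D hD hG h p hp hpP
      omega
    · have b1 := card_le_card (Oh_sub F lab D h p)
      rw [card_range] at b1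
      omega
  obtain ⟨hup, hlow⟩ := havg κ T (fun ι => SZ (F (lab ι))) (fun h => Oh F lab D h) hS hO
    (fun h p _ hp m => Oh_iff F lab D hD h p hp m) (fun ι => lo ι x) (fun ι => l ι x)
  set HH := Fintype.piFinset (fun ι => Ioc (lo ι x) (lo ι x + l ι x)) with hHH
  set Pl : ℝ := ∏ ι, (l ι x : ℝ) with hPl
  set Pρ : ℝ := ∏ ι, ρ ι with hPρ
  have hPl0 : 0 ≤ Pl := prod_nonneg fun _ _ => Nat.cast_nonneg _
  have hPρ0 : 0 ≤ Pρ := prod_nonneg fun ι _ => hρ0 ι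
  have hlr : ∀ ι, 0 ≤ (l ι x : ℝ) * ρ ι := fun ι => mul_nonneg (Nat.cast_nonneg _) (hρ0 ι)
  have hup2 : (1 - ε) * ∑ h ∈ HH, den (Oh F lab D h) T ≤ (1 + 2 * ε) ^ n * (Pl * Pρ) := by
    refine hup.trans ?_
    calc ∏ ι, ((1 + ε) * (l ι x * ρ ι) + Kf * ((T : ℝ) + 1) ^ B) ≤ ∏ ι, ((1 + 2 * ε) * (l ι x * ρ ι)) := by
          refine prod_le_prod (fun ι _ => ?_) fun ι _ => ?_
          · have := hlr ι
            positivity
          · have := hE ι
            linarith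
      _ = _ := by
          rw [prod_mul_distrib, prod_mul_distrib, prod_const, card_univ]
  have hlow2 : (1 - 2 * ε) ^ n * (Pl * Pρ) ≤ (1 + ε) * ∑ h ∈ HH, den (Oh F lab D h) T := by
    have h0 : ∀ ι, (1 - 2 * ε) * (l ι x * ρ ι) ≤ (1 - ε) * (l ι x * ρ ι) - Kf * ((T : ℝ) + 1) ^ B := by
      intro ι
      have := hE ι
      linarith
    have h0' : ∀ ι, 0 ≤ (1 - 2 * ε) * (l ι x * ρ ι) := fun ι => mul_nonneg (by linarith) (hlr ι)
    refine le_trans ?_ (hlow fun ι => (h0' ι).trans (h0 ι))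
    calc (1 - 2 * ε) ^ n * (Pl * Pρ) = ∏ ι, ((1 - 2 * ε) * (l ι x * ρ ι)) := by
          rw [prod_mul_distrib, prod_mul_distrib, prod_const, card_univ]
      _ ≤ _ := prod_le_prod (fun ι _ => h0' ι) fun ι _ => h0 ι
  -- the tuples which are not separated
  have hns : ((HH.filter (fun h => ¬ Sep d0 h)).card : ℝ) ≤ ε * (Pl * Pρ) := by
    have b1 := nonsep d0 (fun ι => lo ι x) (fun ι => l ι x) (c1 * L) (by positivity) h7
    refine b1.trans ?_
    have b2 : ∏ ι, bb (lab ι) ≤ Pρ * ((T : ℝ) + 1) ^ K := by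
      calc ∏ ι, bb (lab ι) ≤ ∏ ι, (ρ ι * ((T : ℝ) + 1) ^ (F (lab ι)).card) := by
            refine prod_le_prod (fun ι _ => (hbb0 _).le) fun ι _ => ?_
            have := h1 (lab ι)
            rwa [div_le_iff₀ (by positivity)] at this
        _ = _ := by
            rw [prod_mul_distrib, prod_pow_eq_pow_sum, hK, KK_eq]
    rw [div_mul_eq_mul_div, div_le_iff₀ (by positivity)] at h3
    have b3 : (n : ℝ) ^ 2 * (2 * d0 + 1) * ((T : ℝ) + 1) ^ K ≤ ε * (c1 * L) * Pρ * ((T : ℝ) + 1) ^ K := by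
      calc (n : ℝ) ^ 2 * (2 * d0 + 1) * ((T : ℝ) + 1) ^ K ≤ L * (ε * c1 * ∏ ι, bb (lab ι)) := h3
        _ ≤ L * (ε * c1 * (Pρ * ((T : ℝ) + 1) ^ K)) := by gcongr
        _ = _ := by ring
    have b4 := le_of_mul_le_mul_right b3 (by positivity)
    rw [div_le_iff₀ (by positivity)]
    calc (n : ℝ) ^ 2 * (2 * d0 + 1) * Pl ≤ (ε * (c1 * L) * Pρ) * Pl := by gcongr
      _ = _ := by ring
  -- the sum over the separated tuples
  have hsplit : ∑ h ∈ HH, den (Oh F lab D h) T = ∑ h ∈ HS d0 (fun ι => lo ι x) (fun ι => l ι x), den (Oh F lab D h) T +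
      ∑ h ∈ HH.filter (fun h => ¬ Sep d0 h), den (Oh F lab D h) T := by
    unfold HS
    rw [sum_filter_add_sum_filter_not]
  have hd0 : ∀ h, 0 ≤ den (Oh F lab D h) T := fun h => den_nonneg _ _ fun p _ _ => Oh_sub F lab D h p
  have hd1 : ∀ h, den (Oh F lab D h) T ≤ 1 := fun h => den_le_one _ _ fun p _ _ => Oh_sub F lab D h p
  have hns2 : ∑ h ∈ HH.filter (fun h => ¬ Sep d0 h), den (Oh F lab D h) T ≤ ε * (Pl * Pρ) := by
    refine le_trans ?_ hns
    calc ∑ h ∈ HH.filter (fun h => ¬ Sep d0 h), den (Oh F lab D h) T ≤ ∑ _h ∈ HH.filter (fun h => ¬ Sep d0 h), (1 : ℝ) :=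
          sum_le_sum fun h _ => hd1 h
      _ = _ := by simp
  have hns3 : 0 ≤ ∑ h ∈ HH.filter (fun h => ¬ Sep d0 h), den (Oh F lab D h) T := sum_nonneg fun h _ => hd0 h
  set SS := ∑ h ∈ HS d0 (fun ι => lo ι x) (fun ι => l ι x), den (Oh F lab D h) T with hSS
  -- the singular series
  have hSg : ∀ h ∈ HS d0 (fun ι => lo ι x) (fun ι => l ι x), den (Oh F lab D h) T / V T ^ K * Real.exp (-ε) ≤
      Sg (ar F lab D h) (w x) ∧ Sg (ar F lab D h) (w x) ≤ den (Oh F lab D h) T / V T ^ K * Real.exp ε := by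
    intro h hh
    unfold HS at hh
    rw [mem_filter, Fintype.mem_piFinset] at hh
    set Hm : ℕ := ⌊L ^ E1⌋₊ with hHm
    have hhm : ∀ ι, h ι ≤ Hm := by
      intro ι
      have b1 := (mem_Ioc.1 (hh.1 ι)).2
      refine Nat.le_floor ?_
      refine le_trans ?_ (h8 ι)
      exact_mod_cast b1
    have hHm1 : (Hm : ℝ) ≤ L ^ E1 := Nat.floor_le (by positivity)
    have hcl := Cl_card F lab d0 K0 E0 hPD Hm h hhm hh.2
      (((Ioc T (w x)).filter Nat.Prime).filter (fun p => Cl F lab h p)) (by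
        intro p hp
        rw [mem_filter, mem_filter] at hp
        exact ⟨hp.1.2, hp.2⟩)
    have hts := tail_sum F lab D hD hG h T (w x) (by omega) (by omega) _ hcl
    have hl2 := Real.log_pos (show (1 : ℝ) < 2 by norm_num)
    have c0 : ∑ ι, |sd F (lab ι) T (w x)| ≤ ε / 4 := by
      calc ∑ ι, |sd F (lab ι) T (w x)| ≤ ∑ _ι : κ, ε / (4 * (n + 1)) := sum_le_sum fun ι _ => h4 ι
        _ = n * (ε / (4 * (n + 1))) := by rw [sum_const, card_univ, nsmul_eq_mul]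
        _ ≤ ε / 4 := by
            rw [mul_div_assoc', div_le_div_iff₀ (by positivity) (by norm_num)]
            nlinarith
    have c2 : (K : ℝ) * D * ((∑ ι, (F (lab ι)).card : ℕ) ^ 2 * ((Real.log ((K0 : ℝ) + 1) + E0 * Real.log (1 + Hm)) / Real.log 2)) /
        T ≤ ε / 4 := by
      refine le_trans ?_ h5
      rw [← KK_eq F lab]
      have c3 : Real.log (1 + (Hm : ℝ)) ≤ Real.log (1 + L ^ E1) := Real.log_le_log (by positivity) (by linarith)
      calc (K : ℝ) * D * ((K : ℝ) ^ 2 * ((Real.log ((K0 : ℝ) + 1) + E0 * Real.log (1 + Hm)) / Real.log 2)) / T ≤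
            (K : ℝ) * D * ((K : ℝ) ^ 2 * ((Real.log ((K0 : ℝ) + 1) + E0 * Real.log (1 + L ^ E1)) / Real.log 2)) / T := by
            gcongr
        _ = _ := by
            field_simp
    have hσ := hts.trans (add_le_add c0 c2)
    have hb := Sg_bounds F lab D hD hG h T (w x) h9 (by omega) (by omega) (by exact_mod_cast hTK) _ hσ
    have hVT0 : 0 ≤ den (Oh F lab D h) T / V T ^ K := div_nonneg (hd0 h) (pow_nonneg (V_pos _).le _)
    constructor
    · refine le_trans (mul_le_mul_of_nonneg_left (Real.exp_le_exp.2 ?_) hVT0) hb.1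
      linarith
    · refine hb.2.trans (mul_le_mul_of_nonneg_left (Real.exp_le_exp.2 ?_) hVT0)
      linarith
  have hVK : 0 < V T ^ K := pow_pos (V_pos _) _
  have hCFe : (∏ ι, CF (F (lab ι)) T) = Pρ / V T ^ K := by
    rw [hPρ, hK, KK_eq, ← prod_pow_eq_pow_sum, ← prod_div_distrib]
    exact prod_congr rfl fun ι _ => CF_den _ _
  rw [hCFe]
  have hlowS : ∑ h ∈ HS d0 (fun ι => lo ι x) (fun ι => l ι x), Sg (ar F lab D h) (w x) ≥ SS / V T ^ K * Real.exp (-ε) := by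
    rw [hSS, sum_div, sum_mul]
    exact sum_le_sum fun h hh => (hSg h hh).1
  have hupS : ∑ h ∈ HS d0 (fun ι => lo ι x) (fun ι => l ι x), Sg (ar F lab D h) (w x) ≤ SS / V T ^ K * Real.exp ε := by
    rw [hSS, sum_div, sum_mul]
    exact sum_le_sum fun h hh => (hSg h hh).2
  have hPP : 0 ≤ Pl * Pρ := mul_nonneg hPl0 hPρ0
  constructor
  · refine le_trans ?_ hlowS
    have d1 : ((1 - 2 * ε) ^ n / (1 + ε) - ε) * (Pl * Pρ) ≤ SS := by
      have d2 : (1 - 2 * ε) ^ n / (1 + ε) * (Pl * Pρ) ≤ ∑ h ∈ HH, den (Oh F lab D h) T := by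
        rw [div_mul_eq_mul_div, div_le_iff₀ (by linarith)]
        linarith
      rw [hsplit] at d2
      linarith
    calc Real.exp (-ε) * ((1 - 2 * ε) ^ n / (1 + ε) - ε) * (Pρ / V T ^ K * Pl) =
          ((1 - 2 * ε) ^ n / (1 + ε) - ε) * (Pl * Pρ) / V T ^ K * Real.exp (-ε) := by ring
      _ ≤ _ := by gcongr
  · refine hupS.trans ?_
    have d1 : SS ≤ (1 + 2 * ε) ^ n / (1 - ε) * (Pl * Pρ) := by
      rw [div_mul_eq_mul_div, le_div_iff₀ (by linarith)]
      have : SS ≤ ∑ h ∈ HH, den (Oh F lab D h) T := by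
        rw [hsplit]
        linarith
      have h1ε : 0 ≤ 1 - ε := by linarith
      calc SS * (1 - ε) ≤ (∑ h ∈ HH, den (Oh F lab D h) T) * (1 - ε) := by gcongr
        _ ≤ _ := by linarith
    calc SS / V T ^ K * Real.exp ε ≤ (1 + 2 * ε) ^ n / (1 - ε) * (Pl * Pρ) / V T ^ K * Real.exp ε := by gcongr
      _ = _ := by ring

include hD hG in
/-- **The average of the singular series of the tuples.** -/
theorem sg_avg (C : Fin s → ℝ) (hC : ∀ i, Tendsto (CF (F i)) atTop (𝓝 (C i))) (hC0 : ∀ i, 0 < C i)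
    (d0 K0 E0 : ℕ) (hPD : ∀ i j, ∀ f ∈ F i, ∀ g ∈ F j, PD f g d0 K0 E0) (lo l : κ → ℕ → ℕ) (c1 : ℝ) (hc1 : 0 < c1)
    (hl1 : ∀ ι, ∀ᶠ x : ℕ in atTop, c1 * Real.log x ≤ l ι x) (E1 : ℕ)
    (hl2 : ∀ ι, ∀ᶠ x : ℕ in atTop, ((lo ι x + l ι x : ℕ) : ℝ) ≤ Real.log x ^ E1) (w : ℕ → ℕ)
    (hw : ∀ c' : ℝ, 0 < c' → c' ≤ 1 / 2 → ∀ᶠ x : ℕ in atTop, WW c' x ≤ w x) :
    Tendsto (fun x : ℕ => (∑ h ∈ HS d0 (fun ι => lo ι x) (fun ι => l ι x), Sg (ar F lab D h) (w x)) / ∏ ι, (l ι x : ℝ))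
      atTop (𝓝 (∏ ι, C (lab ι))) := by
  set n := Fintype.card κ with hn
  set Q : ℝ := ∏ ι, C (lab ι) with hQ
  have hQ0 : 0 < Q := prod_pos fun ι _ => hC0 _
  rw [Metric.tendsto_atTop]
  intro δ hδ
  -- the choice of `ε`
  have hcL : Tendsto (fun ε : ℝ => Real.exp (-ε) * ((1 - 2 * ε) ^ n / (1 + ε) - ε) * ((1 - ε) * Q)) (𝓝 0) (𝓝 Q) := by
    have : ContinuousAt (fun ε : ℝ => Real.exp (-ε) * ((1 - 2 * ε) ^ n / (1 + ε) - ε) * ((1 - ε) * Q)) 0 := by
      have h1 : (1 : ℝ) + 0 ≠ 0 := by norm_num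
      fun_prop (disch := exact h1)
    have h2 := this.tendsto
    simpa using h2
  have hcU : Tendsto (fun ε : ℝ => Real.exp ε * ((1 + 2 * ε) ^ n / (1 - ε)) * ((1 + ε) * Q)) (𝓝 0) (𝓝 Q) := by
    have : ContinuousAt (fun ε : ℝ => Real.exp ε * ((1 + 2 * ε) ^ n / (1 - ε)) * ((1 + ε) * Q)) 0 := by
      have h1 : (1 : ℝ) - 0 ≠ 0 := by norm_num
      fun_prop (disch := exact h1)
    have h2 := this.tendsto
    simpa using h2
  have hcP : Tendsto (fun ε : ℝ => (1 - 2 * ε) ^ n / (1 + ε) - ε) (𝓝 0) (𝓝 1) := by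
    have : ContinuousAt (fun ε : ℝ => (1 - 2 * ε) ^ n / (1 + ε) - ε) 0 := by
      have h1 : (1 : ℝ) + 0 ≠ 0 := by norm_num
      fun_prop (disch := exact h1)
    have h2 := this.tendsto
    simpa using h2
  have hev : ∀ᶠ ε : ℝ in 𝓝 0, Q - δ < Real.exp (-ε) * ((1 - 2 * ε) ^ n / (1 + ε) - ε) * ((1 - ε) * Q) ∧
      Real.exp ε * ((1 + 2 * ε) ^ n / (1 - ε)) * ((1 + ε) * Q) < Q + δ ∧ 0 < (1 - 2 * ε) ^ n / (1 + ε) - ε ∧ ε ≤ 1 / 4 := by
    filter_upwards [hcL.eventually_const_lt (show Q - δ < Q by linarith), hcU.eventually_lt_const (show Q < Q + δ by linarith),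
      hcP.eventually_const_lt (show (0 : ℝ) < 1 by norm_num), eventually_le_nhds (show (0 : ℝ) < 1 / 4 by norm_num)]
      with ε a1 a2 a3 a4 using ⟨a1, a2, a3, a4⟩
  obtain ⟨ε, ⟨e1, e2, e3, e4⟩, hε⟩ := ((hev.filter_mono nhdsWithin_le_nhds).and
    (self_mem_nhdsWithin : ∀ᶠ ε : ℝ in 𝓝[>] 0, ε ∈ Set.Ioi (0 : ℝ))).exists
  have hε0 : 0 < ε := hε
  obtain ⟨c', hc', hmain⟩ := sg_eps F lab D hD hG C hC hC0 d0 K0 E0 hPD lo l c1 hc1 hl1 E1 hl2 w hw ε hε0 e4
  have hP : Tendsto (fun x : ℕ => ∏ ι, CF (F (lab ι)) (WW c' x)) atTop (𝓝 Q) :=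
    tendsto_finsetProd _ fun ι _ => (hC (lab ι)).comp (T_top c' hc')
  obtain ⟨N, hN⟩ := eventually_atTop.1 (hmain.and ((hP.eventually_const_lt (show (1 - ε) * Q < Q by nlinarith)).and
    ((hP.eventually_lt_const (show Q < (1 + ε) * Q by nlinarith)).and ((eventually_all.2 hl1).and
      (log_top.eventually_ge_atTop 1)))))
  refine ⟨N, fun x hx => ?_⟩
  obtain ⟨⟨m1, m2⟩, m3, m4, m5, m6⟩ := hN x hx
  have hl0 : ∀ ι, 0 < (l ι x : ℝ) := fun ι => lt_of_lt_of_le (by positivity) (m5 ι)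
  have hPl : 0 < ∏ ι, (l ι x : ℝ) := prod_pos fun ι _ => hl0 ι
  rw [Real.dist_eq, abs_lt]
  constructor
  · rw [neg_lt_sub_iff_lt_add, ← sub_lt_iff_lt_add', lt_div_iff₀ hPl]
    refine lt_of_lt_of_le ?_ m1
    rw [← mul_assoc]
    refine mul_lt_mul_of_pos_right (e1.trans_le ?_) hPl
    have := Real.exp_pos (-ε)
    gcongr
  · rw [sub_lt_iff_lt_add, add_comm, div_lt_iff₀ hPl]
    refine lt_of_le_of_lt m2 ?_
    rw [← mul_assoc]
    refine mul_lt_mul_of_pos_right (lt_of_le_of_lt ?_ e2) hPl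
    have := Real.exp_pos ε
    have h1 : 0 < 1 - ε := by linarith
    gcongr

end Pool.Agent.H559.PV
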