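import Pool.Agent.H559.PV.Rows

set_option autoImplicit false

/-! # The singular series of a tuple -/

open Finset Filter Topology Polynomial
open Pool.Agent.T2H32.BF (V V_pos V_anti V_ratio recip_le)
open Pool.Agent.H559.HY (Arr evl arr evl_arr rts rts_sub zero_count box mem_box Sg Sg_mul split cmpA cmpB prodk card_le_p)
open Pool.Agent.W149.CS (comp_irred comp_natDegree comp_lc)

namespace Pool.Agent.H559.PV

variable {s : ℕ} (F : Fin s → Finset ℤ[X]) {κ : Type} [Fintype κ] [DecidableEq κ] (lab : κ → Fin s) (D : ℕ)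
variable (hD : ∀ i, ∀ f ∈ F i, f.natDegree ≤ D) (hG : ∀ i, ∀ f ∈ F i, GP f)

/-- the primes above which no polynomial degenerates -/
noncomputable def PP : ℕ := ∑ i, ∑ f ∈ F i, f.leadingCoeff.natAbs

theorem lc_le (i : Fin s) (f : ℤ[X]) (hf : f ∈ F i) : f.leadingCoeff.natAbs ≤ PP F := by
  unfold PP
  have h1 : f.leadingCoeff.natAbs ≤ ∑ f ∈ F i, f.leadingCoeff.natAbs :=
    single_le_sum (f := fun f : ℤ[X] => f.leadingCoeff.natAbs) (fun _ _ => Nat.zero_le _) hf
  have h2 : ∑ f ∈ F i, f.leadingCoeff.natAbs ≤ ∑ i, ∑ f ∈ F i, f.leadingCoeff.natAbs :=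
    single_le_sum (f := fun i => ∑ f ∈ F i, f.leadingCoeff.natAbs) (fun _ _ => Nat.zero_le _) (mem_univ i)
  omega

theorem not_dvd_lc (i : Fin s) (f : ℤ[X]) (hf : f ∈ F i) (hgp : GP f) (p : ℕ) (hp : PP F < p) :
    ¬ (p : ℤ) ∣ f.leadingCoeff := by
  intro h
  have h1 : p ∣ f.leadingCoeff.natAbs := Int.natCast_dvd.1 h
  have h2 := hgp.lead
  have h3 := Nat.le_of_dvd (by omega) h1
  have h4 := lc_le F i f hf
  omega

include hD hG in
theorem Gd_ar (h : κ → ℕ) (p : ℕ) (hp : PP F < p) : Gd (ar F lab D h) p := by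
  intro j
  have hf := (ix F lab j).2.2
  have hd := hD _ _ hf
  have hgp := hG _ _ hf
  refine ⟨⟨(ix F lab j).2.1.natDegree, Nat.lt_succ_of_le hd⟩, ?_, ?_⟩
  · intro h1
    have h2 := congrArg Fin.val h1
    simp only [Fin.val_zero] at h2
    have := hgp.deg
    omega
  · have h1 : ar F lab D h j ⟨(ix F lab j).2.1.natDegree, Nat.lt_succ_of_le hd⟩ = (ix F lab j).2.1.leadingCoeff := by
      show (qq F lab h j).coeff (ix F lab j).2.1.natDegree = _
      rw [← qq_deg F lab h j]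
      show (qq F lab h j).leadingCoeff = _
      exact comp_lc _ _
    rw [h1]
    exact not_dvd_lc F _ _ hf hgp p hp

include hD hG in
theorem Oh_card (h : κ → ℕ) (p : ℕ) (hp : p.Prime) (hpP : PP F < p) : (Oh F lab D h p).card ≤ KK F lab * D :=
  rts_card _ p 0 hp (Gd_ar F lab D hD hG h p hpP)

include hD hG in
theorem SZ_card (i : Fin s) (p : ℕ) (hp : p.Prime) (hpP : PP F < p) : (SZ (F i) p).card ≤ (F i).card * D := by
  classical
  have h1 : SZ (F i) p ⊆ (F i).biUnion (fun f => (range p).filter (fun r => (p : ℤ) ∣ evl (fun j : Fin (D + 1) => f.coeff j) r)) := by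
    intro m hm
    unfold SZ at hm
    rw [mem_filter] at hm
    obtain ⟨hm1, f, hf, hm2⟩ := hm
    rw [mem_biUnion]
    refine ⟨f, hf, mem_filter.2 ⟨hm1, ?_⟩⟩
    have h2 := evl_arr D (fun _ : Fin 1 => f) (fun _ => hD i f hf) 0 m
    unfold arr at h2
    rw [h2]
    exact hm2
  refine (card_le_card h1).trans (card_biUnion_le.trans ?_)
  refine (sum_le_card_nsmul _ _ D fun f hf => ?_).trans (le_of_eq (by rw [smul_eq_mul]))
  refine zero_count _ p hp ⟨⟨f.natDegree, Nat.lt_succ_of_le (hD i f hf)⟩, ?_⟩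
  exact not_dvd_lc F i f hf (hG i f hf) p hpP

/-- the sum of the deviations of one system -/
noncomputable def sd (i : Fin s) (u v : ℕ) : ℝ :=
  ∑ p ∈ (Ioc u v).filter Nat.Prime, (((SZ (F i) p).card : ℝ) - (F i).card) / p

open Classical in
include hD hG in
theorem tail_sum (h : κ → ℕ) (u v : ℕ) (hu : 1 ≤ u) (huP : PP F ≤ u) (nb : ℝ)
    (hnb : ((((Ioc u v).filter Nat.Prime).filter (fun p => Cl F lab h p)).card : ℝ) ≤ nb) :
    |∑ p ∈ (Ioc u v).filter Nat.Prime, (((Oh F lab D h p).card : ℝ) - KK F lab) / p| ≤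
      ∑ ι, |sd F (lab ι) u v| + KK F lab * D * nb / u := by
  have hu0 : (0 : ℝ) < u := by exact_mod_cast hu
  set del : ℕ → ℝ := fun p => (∑ ι, ((SZ (F (lab ι)) p).card : ℝ)) - (Oh F lab D h p).card with hdel
  have hp : ∀ p ∈ (Ioc u v).filter Nat.Prime, p.Prime ∧ PP F < p ∧ u < p := by
    intro p hp
    rw [mem_filter, mem_Ioc] at hp
    exact ⟨hp.2, by omega, hp.1.1⟩
  have hdel0 : ∀ p ∈ (Ioc u v).filter Nat.Prime, 0 ≤ del p := by
    intro p hp'
    have h1 := Oh_le F lab D hD h p (hp p hp').1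
    have h2 : ((Oh F lab D h p).card : ℝ) ≤ ∑ ι, ((SZ (F (lab ι)) p).card : ℝ) := by exact_mod_cast h1
    rw [hdel]
    simp only
    linarith
  have hdel1 : ∀ p ∈ (Ioc u v).filter Nat.Prime, del p ≤ if Cl F lab h p then (KK F lab : ℝ) * D else 0 := by
    intro p hp'
    obtain ⟨h1, h2, h3⟩ := hp p hp'
    split_ifs with hcl
    · have h4 : ∑ ι, (SZ (F (lab ι)) p).card ≤ KK F lab * D := by
        rw [KK_eq, sum_mul]
        exact sum_le_sum fun ι _ => SZ_card F D hD hG (lab ι) p h1 h2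
      have h5 : ∑ ι, ((SZ (F (lab ι)) p).card : ℝ) ≤ (KK F lab : ℝ) * D := by exact_mod_cast h4
      have h6 : (0 : ℝ) ≤ ((Oh F lab D h p).card : ℝ) := Nat.cast_nonneg _
      rw [hdel]
      simp only
      linarith
    · have h4 := Oh_eq F lab D hD h p h1 hcl
      have h5 : ((Oh F lab D h p).card : ℝ) = ∑ ι, ((SZ (F (lab ι)) p).card : ℝ) := by exact_mod_cast h4
      rw [hdel]
      simp only
      linarith
  have e1 : ∑ p ∈ (Ioc u v).filter Nat.Prime, (((Oh F lab D h p).card : ℝ) - KK F lab) / p =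
      ∑ ι, sd F (lab ι) u v - ∑ p ∈ (Ioc u v).filter Nat.Prime, del p / p := by
    unfold sd
    rw [sum_comm, ← sum_sub_distrib]
    refine sum_congr rfl fun p _ => ?_
    rw [← sum_div, ← sub_div, sum_sub_distrib]
    have h1 : (KK F lab : ℝ) = ∑ ι, ((F (lab ι)).card : ℝ) := by
      rw [KK_eq]
      push_cast
      rfl
    rw [h1, hdel]
    simp only
    ring
  have e2 : |∑ p ∈ (Ioc u v).filter Nat.Prime, del p / p| ≤ KK F lab * D * nb / u := by
    rw [abs_of_nonneg (sum_nonneg fun p hp' => div_nonneg (hdel0 p hp') (Nat.cast_nonneg _))]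
    calc ∑ p ∈ (Ioc u v).filter Nat.Prime, del p / p ≤
          ∑ p ∈ (Ioc u v).filter Nat.Prime, (if Cl F lab h p then (KK F lab : ℝ) * D / u else 0) := by
          refine sum_le_sum fun p hp' => ?_
          obtain ⟨h1, h2, h3⟩ := hp p hp'
          have h4 := hdel1 p hp'
          have hp0 : (0 : ℝ) < p := by exact_mod_cast h1.pos
          split_ifs at h4 ⊢ with hcl
          · have h5 : (u : ℝ) ≤ p := by exact_mod_cast h3.le
            gcongr
          · have h5 : del p = 0 := le_antisymm h4 (hdel0 p hp')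
            rw [h5, zero_div]
      _ = ((((Ioc u v).filter Nat.Prime).filter (fun p => Cl F lab h p)).card : ℝ) * ((KK F lab : ℝ) * D / u) := by
          rw [← sum_filter, sum_const, nsmul_eq_mul]
      _ ≤ nb * ((KK F lab : ℝ) * D / u) := mul_le_mul_of_nonneg_right hnb (by positivity)
      _ = _ := by ring
  rw [e1]
  calc |∑ ι, sd F (lab ι) u v - ∑ p ∈ (Ioc u v).filter Nat.Prime, del p / p| ≤
        |∑ ι, sd F (lab ι) u v| + |∑ p ∈ (Ioc u v).filter Nat.Prime, del p / p| := abs_sub _ _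
    _ ≤ _ := add_le_add (abs_sum_le_sum_abs _ _) e2

include hD hG in
/-- **The singular series of a tuple**: only the small primes matter. -/
theorem Sg_bounds (h : κ → ℕ) (u v : ℕ) (huv : u ≤ v) (hu : 1 ≤ u) (huP : PP F ≤ u)
    (huK : 2 * ((KK F lab : ℝ) * D + KK F lab) ≤ u) (σ : ℝ)
    (hσ : |∑ p ∈ (Ioc u v).filter Nat.Prime, (((Oh F lab D h p).card : ℝ) - KK F lab) / p| ≤ σ) :
    den (Oh F lab D h) u / V u ^ KK F lab * Real.exp (-(σ + 2 * ((KK F lab : ℝ) * D + KK F lab + 1) ^ 2 / u)) ≤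
        Sg (ar F lab D h) v ∧
      Sg (ar F lab D h) v ≤
        den (Oh F lab D h) u / V u ^ KK F lab * Real.exp (σ + 2 * ((KK F lab : ℝ) * D + KK F lab + 1) ^ 2 / u) := by
  set K := KK F lab with hK
  set c : ℝ := (K : ℝ) * D + K with hc
  have hc0 : 0 ≤ c := by positivity
  have hu0 : (0 : ℝ) < u := by exact_mod_cast hu
  have hVu := V_pos u
  have hVv := V_pos v
  have e1 : Sg (ar F lab D h) v * V v ^ K = den (Oh F lab D h) u *
      ∏ p ∈ (Ioc u v).filter Nat.Prime, (1 - ((Oh F lab D h p).card : ℝ) / p) := by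
    rw [← Sg_mul, split _ u v huv]
    rfl
  have hpp : ∀ p ∈ (Ioc u v).filter Nat.Prime, p.Prime ∧ PP F < p ∧ u < p := by
    intro p hp
    rw [mem_filter, mem_Ioc] at hp
    exact ⟨hp.2, by omega, hp.1.1⟩
  have hA := cmpA u v hu (fun p => (Oh F lab D h p).card) (fun _ => K) c (fun p _ => card_le_p _ _ _) (fun p _ => by
    rw [hc]
    have : (0 : ℝ) ≤ K * D := by positivity
    linarith) hc0
  have hB := cmpB u v hu (fun p => (Oh F lab D h p).card) (fun _ => K) c (fun p hp => by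
    obtain ⟨h1, h2, h3⟩ := hpp p hp
    have h4 : ((Oh F lab D h p).card : ℝ) ≤ K * D := by exact_mod_cast Oh_card F lab D hD hG h p h1 h2
    rw [hc]
    have : (0 : ℝ) ≤ K := Nat.cast_nonneg _
    linarith) hc0 huK
  rw [prodk u v huv K] at hA hB
  have hd0 : 0 ≤ den (Oh F lab D h) u := den_nonneg _ _ fun p _ _ => Oh_sub F lab D h p
  have e2 : Sg (ar F lab D h) v = den (Oh F lab D h) u *
      (∏ p ∈ (Ioc u v).filter Nat.Prime, (1 - ((Oh F lab D h p).card : ℝ) / p)) / V v ^ K := by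
    rw [← e1]
    field_simp
  have e3 : ∀ t : ℝ, den (Oh F lab D h) u / V u ^ K * Real.exp t =
      den (Oh F lab D h) u * (Real.exp t * (V v / V u) ^ K) / V v ^ K := by
    intro t
    rw [div_pow]
    field_simp
  rw [e2, e3, e3]
  have hs1 := (abs_le.1 hσ).1
  have hs2 := (abs_le.1 hσ).2
  have hVV : 0 ≤ (V v / V u) ^ K := by positivity
  have hcc : c ^ 2 ≤ (c + 1) ^ 2 := by nlinarith
  have hcc2 : c ≤ (c + 1) ^ 2 := by nlinarith
  constructor
  · refine div_le_div_of_nonneg_right (mul_le_mul_of_nonneg_left (le_trans ?_ hB) hd0) (by positivity)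
    refine mul_le_mul_of_nonneg_right (Real.exp_le_exp.2 ?_) hVV
    have h1 : 2 * c ^ 2 / (u : ℝ) ≤ 2 * (c + 1) ^ 2 / u := by gcongr
    linarith
  · refine div_le_div_of_nonneg_right (mul_le_mul_of_nonneg_left (hA.trans ?_) hd0) (by positivity)
    refine mul_le_mul_of_nonneg_right (Real.exp_le_exp.2 ?_) hVV
    have h1 : 2 * c / (u : ℝ) ≤ 2 * (c + 1) ^ 2 / u := by gcongr
    linarith

end Pool.Agent.H559.PV
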